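import Mathlib

set_option linter.unusedSectionVars false

namespace Pool.Agent.MP_993212_an.H18

open Matrix Finset

variable {U V W : Type} [Fintype U] [Fintype V] [Fintype W]
  [DecidableEq U] [DecidableEq V] [DecidableEq W]

theorem pow_nonneg' {M : Matrix V V ℝ} (hM : ∀ u v, 0 ≤ M u v) (k : ℕ) (u v : V) :
    0 ≤ (M ^ k) u v := by
  induction k generalizing u v with
  | zero => rw [pow_zero, Matrix.one_apply]; split_ifs <;> norm_num
  | succ k ih =>
    rw [pow_succ, Matrix.mul_apply]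
    exact Finset.sum_nonneg fun w _ => mul_nonneg (ih _ _) (hM _ _)

/-- Perron vector of an irreducible nonnegative real matrix -/
theorem exists_perron_real [Nonempty V] (M : Matrix V V ℝ) (hM : ∀ u v, 0 ≤ M u v)
    (irr : ∀ u v, ∃ n, (M ^ n) u v ≠ 0) :
    ∃ (l : ℝ) (x : V → ℝ), 0 ≤ l ∧ (∀ v, 0 < x v) ∧ M *ᵥ x = l • x := by
  choose n hn using irr
  obtain ⟨N, hN⟩ : ∃ N, ∀ u v, n u v < N := by
    refine ⟨(∑ u, ∑ v, n u v) + 1, fun u v => Nat.lt_succ_of_le ?_⟩
    exact (Finset.single_le_sum (f := fun v => n u v) (fun _ _ => Nat.zero_le _)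
      (Finset.mem_univ v)).trans (Finset.single_le_sum (f := fun u => ∑ v, n u v)
      (fun _ _ => Nat.zero_le _) (Finset.mem_univ u))
  set B : Matrix V V ℝ := ∑ k ∈ Finset.range N, M ^ k with hB
  have Bpos : ∀ u v, 0 < B u v := by
    intro u v
    rw [hB, Matrix.sum_apply]
    exact Finset.sum_pos' (fun k _ => pow_nonneg' hM k u v)
      ⟨n u v, Finset.mem_range.2 (hN u v), lt_of_le_of_ne (pow_nonneg' hM _ u v) (hn u v).symm⟩
  have comm : M * B = B * M := by
    rw [hB, Finset.mul_sum, Finset.sum_mul]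
    exact Finset.sum_congr rfl fun k _ => by rw [← pow_succ, ← pow_succ']
  have Bv : ∀ d : V → ℝ, (∀ v, 0 ≤ d v) → d ≠ 0 → ∀ u, 0 < (B *ᵥ d) u := by
    intro d hd h0 u
    obtain ⟨v, hv⟩ := Function.ne_iff.1 h0
    exact Finset.sum_pos' (fun w _ => mul_nonneg (Bpos u w).le (hd w))
      ⟨v, Finset.mem_univ v, mul_pos (Bpos u v) (lt_of_le_of_ne (hd v) (Ne.symm hv))⟩
  set C : ℝ := ∑ u, ∑ v, M u v with hC
  set K : Set ((V → ℝ) × ℝ) :=
    (stdSimplex ℝ V ×ˢ Set.Icc 0 C) ∩ {p | ∀ u, p.2 * p.1 u ≤ (M *ᵥ p.1) u} with hK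
  have Kc : IsCompact K := by
    refine ((isCompact_stdSimplex ℝ V).prod isCompact_Icc).inter_right ?_
    rw [Set.ofPred_forall]
    refine isClosed_iInter fun u => isClosed_le (by fun_prop) ?_
    simp only [Matrix.mulVec, dotProduct]
    fun_prop
  have memK : ∀ (y : V → ℝ) (r : ℝ), y ∈ stdSimplex ℝ V → 0 ≤ r →
      (∀ u, r * y u ≤ (M *ᵥ y) u) → (y, r) ∈ K := by
    intro y r hy hr h
    refine ⟨⟨hy, hr, ?_⟩, h⟩
    have h1 : ∑ u, r * y u ≤ ∑ u, (M *ᵥ y) u := Finset.sum_le_sum fun u _ => h u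
    rw [← Finset.mul_sum, hy.2, mul_one] at h1
    refine h1.trans (Finset.sum_le_sum fun u _ => Finset.sum_le_sum fun v _ => ?_)
    have : y v ≤ 1 := by
      rw [← hy.2]
      exact Finset.single_le_sum (fun w _ => hy.1 w) (Finset.mem_univ v)
    nlinarith [hM u v]
  have Kne : K.Nonempty := by
    obtain ⟨v⟩ := ‹Nonempty V›
    refine ⟨(Pi.single v 1, 0), memK _ _ (single_mem_stdSimplex ℝ v) le_rfl fun u => ?_⟩
    rw [zero_mul]
    exact Finset.sum_nonneg fun w _ => mul_nonneg (hM u w) ((single_mem_stdSimplex ℝ v).1 w)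
  obtain ⟨⟨x, r⟩, ⟨⟨hx, hr⟩, hxr⟩, hmax⟩ := Kc.exists_isMaxOn Kne continuous_snd.continuousOn
  simp only [Set.mem_ofPred_eq] at hx hr hxr
  have x0 : x ≠ 0 := by
    intro h
    have := hx.2
    simp [h] at this
  have ypos := Bv x hx.1 x0
  have hMy : M *ᵥ (B *ᵥ x) - r • (B *ᵥ x) = B *ᵥ (M *ᵥ x - r • x) := by
    rw [Matrix.mulVec_sub, Matrix.mulVec_smul, Matrix.mulVec_mulVec, Matrix.mulVec_mulVec, comm]
  by_cases hd : M *ᵥ x - r • x = 0
  · refine ⟨r, B *ᵥ x, hr.1, ypos, ?_⟩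
    rw [hd, Matrix.mulVec_zero] at hMy
    exact sub_eq_zero.1 hMy
  exfalso
  have dpos := Bv _ (fun v => by simpa using hxr v) hd
  rw [← hMy] at dpos
  set y := B *ᵥ x with hy
  obtain ⟨u0, -, hu0⟩ := Finset.exists_min_image Finset.univ
    (fun u => (M *ᵥ y - r • y) u / y u) Finset.univ_nonempty
  set e := (M *ᵥ y - r • y) u0 / y u0 with he
  have epos : 0 < e := div_pos (dpos u0) (ypos u0)
  have spos : 0 < ∑ u, y u := Finset.sum_pos (fun u _ => ypos u) Finset.univ_nonempty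
  have := hmax (memK ((∑ u, y u)⁻¹ • y) (r + e) ⟨fun u => ?_, ?_⟩ (by linarith [hr.1]) fun u => ?_)
  · simp only [Set.mem_ofPred_eq] at this
    linarith
  · exact mul_nonneg (inv_pos.2 spos).le (ypos u).le
  · simp only [Pi.smul_apply, smul_eq_mul]
    rw [← Finset.mul_sum, inv_mul_cancel₀ spos.ne']
  · have h1 := hu0 u (Finset.mem_univ u)
    rw [le_div_iff₀ (ypos u)] at h1
    simp only [Pi.sub_apply, Pi.smul_apply, smul_eq_mul] at h1
    rw [Matrix.mulVec_smul]
    simp only [Pi.smul_apply, smul_eq_mul]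
    nlinarith [inv_pos.2 spos]

/-- the real matrix of a matrix over the naturals -/
def cr (A : Matrix V W ℕ) : Matrix V W ℝ := A.map (Nat.cast : ℕ → ℝ)

@[simp] theorem cr_apply (A : Matrix V W ℕ) (u : V) (w : W) : cr A u w = (A u w : ℝ) := rfl

theorem cr_mul (A : Matrix U V ℕ) (B : Matrix V W ℕ) : cr (A * B) = cr A * cr B := by
  ext u w
  simp [Matrix.mul_apply]

theorem cr_pow (A : Matrix V V ℕ) (k : ℕ) : cr (A ^ k) = cr A ^ k := by
  induction k with
  | zero => ext u v; simp [Matrix.one_apply]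
  | succ k ih => rw [pow_succ, pow_succ, cr_mul, ih]

/-- right Perron vector; the eigenvalue is at least one when no row vanishes -/
theorem exists_perron [Nonempty V] (A : Matrix V V ℕ) (irr : ∀ u v, ∃ n, (A ^ n) u v ≠ 0)
    (out : ∀ u, ∃ v, A u v ≠ 0) :
    ∃ (l : ℝ) (x : V → ℝ), 1 ≤ l ∧ (∀ v, 0 < x v) ∧ cr A *ᵥ x = l • x := by
  obtain ⟨l, x, -, hx, h⟩ := exists_perron_real (cr A) (fun u v => by simp) (fun u v => by
    obtain ⟨n, hn⟩ := irr u v
    exact ⟨n, by rw [← cr_pow]; simpa using hn⟩)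
  refine ⟨l, x, ?_, hx, h⟩
  obtain ⟨u, -, hu⟩ := Finset.exists_min_image Finset.univ x Finset.univ_nonempty
  obtain ⟨v, hv⟩ := out u
  have h1 : l * x u = ∑ w, (A u w : ℝ) * x w := by
    have := congrFun h u
    simp only [Pi.smul_apply, smul_eq_mul] at this
    rw [← this]; rfl
  have h2 : (A u v : ℝ) * x v ≤ ∑ w, (A u w : ℝ) * x w :=
    Finset.single_le_sum (f := fun w => (A u w : ℝ) * x w)
      (fun w _ => mul_nonneg (by positivity) (hx w).le) (Finset.mem_univ v)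
  have h3 : (1 : ℝ) ≤ A u v := by exact_mod_cast Nat.pos_of_ne_zero hv
  have h4 := hu v (Finset.mem_univ v)
  nlinarith [hx u, hx v]

theorem pow_mulVec_eig {M : Matrix V V ℝ} {l : ℝ} {x : V → ℝ} (h : M *ᵥ x = l • x) (k : ℕ) :
    (M ^ k) *ᵥ x = l ^ k • x := by
  induction k with
  | zero => simp
  | succ k ih => rw [pow_succ, ← Matrix.mulVec_mulVec, h, Matrix.mulVec_smul, ih, smul_smul,
      ← pow_succ']

theorem exists_bounds (x : V → ℝ) (hx : ∀ v, 0 < x v) :
    ∃ a b : ℝ, 0 < a ∧ 0 < b ∧ ∀ v, a ≤ x v ∧ x v ≤ b := by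
  cases isEmpty_or_nonempty V with
  | inl h => exact ⟨1, 1, one_pos, one_pos, fun v => isEmptyElim v⟩
  | inr h =>
    obtain ⟨u, -, hu⟩ := Finset.exists_min_image Finset.univ x Finset.univ_nonempty
    obtain ⟨u', -, hu'⟩ := Finset.exists_max_image Finset.univ x Finset.univ_nonempty
    exact ⟨x u, x u', hx u, hx u', fun v => ⟨hu v (Finset.mem_univ v), hu' v (Finset.mem_univ v)⟩⟩

/-- row sums of powers grow like the Perron value -/
theorem rowsum_growth {A : Matrix V V ℕ} {l : ℝ} {x : V → ℝ} (hl : 0 ≤ l) (hx : ∀ v, 0 < x v)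
    (h : cr A *ᵥ x = l • x) :
    ∃ c : ℝ, 0 < c ∧ ∀ m u, c * l ^ m ≤ ∑ v, ((A ^ m) u v : ℝ) := by
  obtain ⟨a, b, ha, hb, hab⟩ := exists_bounds x hx
  refine ⟨a / b, div_pos ha hb, fun m u => ?_⟩
  have h1 : l ^ m * x u = ∑ v, ((A ^ m) u v : ℝ) * x v := by
    have := congrFun (pow_mulVec_eig h m) u
    simp only [Pi.smul_apply, smul_eq_mul] at this
    rw [← this, ← cr_pow]; rfl
  have h2 : ∑ v, ((A ^ m) u v : ℝ) * x v ≤ (∑ v, ((A ^ m) u v : ℝ)) * b := by
    rw [Finset.sum_mul]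
    exact Finset.sum_le_sum fun v _ => mul_le_mul_of_nonneg_left (hab v).2 (by positivity)
  rw [div_mul_eq_mul_div, div_le_iff₀ hb]
  nlinarith [(hab u).1, pow_nonneg hl m]

/-- Doeblin contraction on one class `K` of a matrix whose entries inside `K` are at least one -/
theorem rep_block {E : Matrix V V ℝ} (hE : ∀ u v, 0 ≤ E u v) {l : ℝ} {x : V → ℝ}
    (hx : ∀ v, 0 < x v) (h : E *ᵥ x = l • x) (K : V → Prop)
    (h1 : ∀ u v, K u → K v → 1 ≤ E u v) (h2 : ∀ u v, K u → ¬ K v → E u v = 0)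
    (r : V → ℝ) (hr : ∀ u, ¬ K u → r u = 0) (hs : 0 < r ⬝ᵥ x) :
    ∃ k, ∀ v, K v → 0 < (r ᵥ* E ^ k) v := by
  obtain ⟨a, b, ha, hb, hab⟩ := exists_bounds x hx
  obtain ⟨v0, hv0⟩ : ∃ v, K v := by
    by_contra hno
    have : r = 0 := funext fun u => hr u fun hu => hno ⟨u, hu⟩
    simp [this] at hs
  have row : ∀ u, ∑ v, E u v * x v = l * x u := fun u => congrFun h u
  have lpos : a / b ≤ l := by
    have h3 : E v0 v0 * x v0 ≤ ∑ v, E v0 v * x v :=
      Finset.single_le_sum (f := fun v => E v0 v * x v)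
        (fun v _ => mul_nonneg (hE _ _) (hx v).le) (Finset.mem_univ v0)
    rw [row] at h3
    have h4 : 1 ≤ l := by nlinarith [h1 v0 v0 hv0 hv0, hx v0]
    have h5 : a / b ≤ 1 := by
      rw [div_le_one hb]; exact (hab v0).1.trans (hab v0).2
    linarith
  have kpos : 0 < a / b := div_pos ha hb
  let ng : (V → ℝ) → ℝ := fun r => ∑ u, max (-r u) 0 * x u
  let ps : (V → ℝ) → ℝ := fun r => ∑ u, max (r u) 0 * x u
  have ng0 : ∀ r, 0 ≤ ng r := fun r =>
    Finset.sum_nonneg fun u _ => mul_nonneg (le_max_right _ _) (hx u).le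
  have pn : ∀ r, ps r = r ⬝ᵥ x + ng r := by
    intro r
    simp only [ps, ng, dotProduct, ← Finset.sum_add_distrib]
    refine Finset.sum_congr rfl fun u _ => ?_
    rcases le_total (r u) 0 with h | h
    · rw [max_eq_right h, max_eq_left (by linarith)]; ring
    · rw [max_eq_left h, max_eq_right (by linarith)]; ring
  have low : ∀ (y : V → ℝ), (∀ u, 0 ≤ y u) → (∀ u, ¬ K u → y u = 0) → ∀ v, K v →
      (∑ u, y u * x u) / b ≤ ∑ u, y u * E u v := by
    intro y hy hy0 v hv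
    rw [Finset.sum_div]
    refine Finset.sum_le_sum fun u _ => ?_
    by_cases hu : K u
    · rw [mul_div_assoc]
      refine mul_le_mul_of_nonneg_left ?_ (hy u)
      have : x u / b ≤ 1 := by rw [div_le_one hb]; exact (hab u).2
      linarith [h1 u v hu hv]
    · simp [hy0 u hu]
  have split : ∀ (r : V → ℝ) v, (r ᵥ* E) v =
      ∑ u, max (r u) 0 * E u v - ∑ u, max (-r u) 0 * E u v := by
    intro r v
    simp only [Matrix.vecMul, dotProduct, ← Finset.sum_sub_distrib]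
    refine Finset.sum_congr rfl fun u _ => ?_
    rcases le_total (r u) 0 with h | h
    · rw [max_eq_right h, max_eq_left (by linarith)]; ring
    · rw [max_eq_left h, max_eq_right (by linarith)]; ring
  have tot : ∀ y : V → ℝ, ∑ v, (∑ u, y u * E u v) * x v = l * ∑ u, y u * x u := by
    intro y
    simp only [Finset.sum_mul]
    rw [Finset.sum_comm, Finset.mul_sum]
    refine Finset.sum_congr rfl fun u _ => ?_
    simp only [mul_assoc]
    rw [← Finset.mul_sum, row]; ring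
  have one : ∀ r : V → ℝ, (∀ u, ¬ K u → r u = 0) → 0 ≤ r ⬝ᵥ x →
      (∀ u, ¬ K u → (r ᵥ* E) u = 0) ∧ ng (r ᵥ* E) ≤ (l - a / b) * ng r ∧
      ∀ v, K v → (r ⬝ᵥ x) / b - l * ng r / a ≤ (r ᵥ* E) v := by
    intro r hr hs
    have hz : ∀ u, ¬ K u → (r ᵥ* E) u = 0 := by
      intro v hv
      refine Finset.sum_eq_zero fun u _ => ?_
      by_cases hu : K u
      · simp [h2 u v hu hv]
      · simp [hr u hu]
    have lp := low (fun u => max (r u) 0) (fun u => le_max_right _ _)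
      (fun u hu => by simp [hr u hu])
    have ln := low (fun u => max (-r u) 0) (fun u => le_max_right _ _)
      (fun u hu => by simp [hr u hu])
    have nn : ∀ v, 0 ≤ ∑ u, max (-r u) 0 * E u v := fun v =>
      Finset.sum_nonneg fun u _ => mul_nonneg (le_max_right _ _) (hE u v)
    refine ⟨hz, ?_, fun v hv => ?_⟩
    · have hb1 : ∀ v, max (-(r ᵥ* E) v) 0 * x v ≤
          (∑ u, max (-r u) 0 * E u v) * x v - (if v = v0 then a / b * ng r else 0) := by
        intro v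
        by_cases hv : K v
        · have e1 : ng r / b ≤ ∑ u, max (r u) 0 * E u v := by
            refine le_trans ?_ (lp v hv)
            refine div_le_div_of_nonneg_right ?_ hb.le
            have := pn r
            simp only [ps] at this
            linarith
          have e2 : max (-(r ᵥ* E) v) 0 ≤ ∑ u, max (-r u) 0 * E u v - ng r / b := by
            refine max_le ?_ (sub_nonneg.2 (ln v hv))
            rw [split]; linarith
          have e3 : a / b * ng r ≤ ng r / b * x v := by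
            rw [show a / b * ng r = ng r / b * a by ring]
            exact mul_le_mul_of_nonneg_left (hab v).1 (div_nonneg (ng0 r) hb.le)
          have e4 := mul_le_mul_of_nonneg_right e2 (hx v).le
          have e5 : 0 ≤ a / b * ng r := mul_nonneg kpos.le (ng0 r)
          split_ifs <;> nlinarith
        · rw [hz v hv, if_neg (fun e : v = v0 => hv (e ▸ hv0))]
          simpa using mul_nonneg (nn v) (hx v).le
      have := Finset.sum_le_sum fun v (_ : v ∈ Finset.univ) => hb1 v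
      rw [Finset.sum_sub_distrib, tot] at this
      simp only [Finset.sum_ite_eq', Finset.mem_univ, if_true] at this
      simp only [ng] at this ⊢
      linarith
    · have e1 : (r ⬝ᵥ x) / b ≤ ∑ u, max (r u) 0 * E u v := by
        refine le_trans ?_ (lp v hv)
        refine div_le_div_of_nonneg_right ?_ hb.le
        have := pn r
        simp only [ps] at this
        linarith [ng0 r]
      have e2 : (∑ u, max (-r u) 0 * E u v) * x v ≤ l * ng r := by
        simp only [ng]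
        rw [← tot]
        exact Finset.single_le_sum (f := fun v => (∑ u, max (-r u) 0 * E u v) * x v)
          (fun v _ => mul_nonneg (nn v) (hx v).le) (Finset.mem_univ v)
      have e3 : ∑ u, max (-r u) 0 * E u v ≤ l * ng r / a := by
        rw [le_div_iff₀ ha]
        nlinarith [nn v, (hab v).1]
      rw [split]; linarith
  have lp : 0 < l := lt_of_lt_of_le kpos lpos
  have dot : ∀ k, (r ᵥ* E ^ k) ⬝ᵥ x = l ^ k * (r ⬝ᵥ x) := by
    intro k
    rw [← Matrix.dotProduct_mulVec, pow_mulVec_eig h, dotProduct_smul, smul_eq_mul]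
  have it : ∀ k, (∀ u, ¬ K u → (r ᵥ* E ^ k) u = 0) ∧
      ng (r ᵥ* E ^ k) ≤ (l - a / b) ^ k * ng r := by
    intro k
    induction k with
    | zero => simpa using hr
    | succ k ih =>
      obtain ⟨o1, o2, -⟩ := one _ ih.1 (by rw [dot]; positivity)
      rw [pow_succ, ← Matrix.vecMul_vecMul]
      refine ⟨o1, o2.trans ?_⟩
      rw [pow_succ', mul_assoc]
      exact mul_le_mul_of_nonneg_left ih.2 (by linarith)
  have q0 : 0 ≤ (l - a / b) / l := div_nonneg (by linarith) lp.le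
  have q1 : (l - a / b) / l < 1 := by rw [div_lt_one lp]; linarith
  obtain ⟨k, hk⟩ := exists_pow_lt_of_lt_one
    (show 0 < (r ⬝ᵥ x) / b / (l * (ng r + 1) / a) by have := ng0 r; positivity) q1
  refine ⟨k + 1, fun v hv => ?_⟩
  obtain ⟨-, -, o3⟩ := one _ (it k).1 (by rw [dot]; positivity)
  rw [pow_succ, ← Matrix.vecMul_vecMul]
  refine lt_of_lt_of_le ?_ (o3 v hv)
  rw [dot]
  have hn := ng0 r
  rw [div_pow, div_lt_div_iff₀ (by positivity) (by positivity)] at hk
  have e1 : l * ng (r ᵥ* E ^ k) / a ≤ (l - a / b) ^ k * (l * (ng r + 1) / a) := by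
    have := (it k).2
    have h5 : 0 ≤ (l - a / b) ^ k := pow_nonneg (by linarith) k
    rw [← mul_div_assoc]
    refine div_le_div_of_nonneg_right ?_ ha.le
    nlinarith
  have e2 : l ^ k * (r ⬝ᵥ x) / b = (r ⬝ᵥ x) / b * l ^ k := by ring
  linarith

theorem mul_ne_zero_of {A : Matrix U V ℕ} {B : Matrix V W ℕ} {u : U} {v : V} {w : W}
    (h1 : A u v ≠ 0) (h2 : B v w ≠ 0) : (A * B) u w ≠ 0 := by
  rw [Matrix.mul_apply]
  intro h
  exact mul_ne_zero h1 h2 (Finset.sum_eq_zero_iff.1 h v (Finset.mem_univ v))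

theorem exists_of_mul_ne_zero {α : Type} [Semiring α] {A : Matrix U V α} {B : Matrix V W α}
    {u : U} {w : W} (h : (A * B) u w ≠ 0) : ∃ v, A u v ≠ 0 ∧ B v w ≠ 0 := by
  rw [Matrix.mul_apply] at h
  obtain ⟨v, -, hv⟩ := Finset.exists_ne_zero_of_sum_ne_zero h
  exact ⟨v, left_ne_zero_of_mul hv, right_ne_zero_of_mul hv⟩

/-- upper bound for the entries of powers -/
theorem pow_upper {A : Matrix V V ℕ} {l : ℝ} {x : V → ℝ} (hl : 0 ≤ l) (hx : ∀ v, 0 < x v)
    (h : cr A *ᵥ x = l • x) :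
    ∃ C : ℝ, 0 < C ∧ ∀ m u v, ((A ^ m) u v : ℝ) ≤ C * l ^ m := by
  obtain ⟨a, b, ha, hb, hab⟩ := exists_bounds x hx
  refine ⟨b / a, div_pos hb ha, fun m u v => ?_⟩
  have h1 : l ^ m * x u = ∑ v, ((A ^ m) u v : ℝ) * x v := by
    have := congrFun (pow_mulVec_eig h m) u
    simp only [Pi.smul_apply, smul_eq_mul] at this
    rw [← this, ← cr_pow]; rfl
  have h2 : ((A ^ m) u v : ℝ) * x v ≤ ∑ v, ((A ^ m) u v : ℝ) * x v :=
    Finset.single_le_sum (f := fun v => ((A ^ m) u v : ℝ) * x v)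
      (fun w _ => mul_nonneg (by positivity) (hx w).le) (Finset.mem_univ v)
  rw [div_mul_eq_mul_div, le_div_iff₀ ha]
  have h3 : (0 : ℝ) ≤ (A ^ m) u v := by positivity
  nlinarith [(hab u).2, (hab v).1, pow_nonneg hl m]

/-- entries of powers grow like the Perron value wherever a fixed power connects all
intermediate vertices -/
theorem entry_growth {A : Matrix V V ℕ} {l : ℝ} {x : V → ℝ} (hl : 0 < l) (hx : ∀ v, 0 < x v)
    (h : cr A *ᵥ x = l • x) (N : ℕ) :
    ∃ c : ℝ, 0 < c ∧ ∀ m u v, (∀ w, (A ^ m) u w ≠ 0 → (A ^ N) w v ≠ 0) →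
      c * l ^ (m + N) ≤ ((A ^ (m + N)) u v : ℝ) := by
  obtain ⟨c, hc, hrow⟩ := rowsum_growth hl.le hx h
  refine ⟨c / l ^ N, by positivity, fun m u v hw => ?_⟩
  rw [show c / l ^ N * l ^ (m + N) = c * l ^ m by rw [pow_add]; field_simp, pow_add,
    Matrix.mul_apply]
  refine (hrow m u).trans ?_
  push_cast
  refine Finset.sum_le_sum fun w _ => ?_
  by_cases h0 : (A ^ m) u w = 0
  · simp [h0]
  · have : (1 : ℝ) ≤ (A ^ N) w v := by exact_mod_cast Nat.pos_of_ne_zero (hw w h0)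
    have h3 : (0 : ℝ) ≤ (A ^ m) u w := by positivity
    nlinarith

/-- primitive matrices -/
def Prim (A : Matrix V V ℕ) : Prop := Nonempty V ∧ ∃ N, 1 ≤ N ∧ ∀ u v, (A ^ N) u v ≠ 0

theorem Prim.out {A : Matrix V V ℕ} (h : Prim A) (u : V) : ∃ v, A u v ≠ 0 := by
  obtain ⟨-, N, hN, h⟩ := h
  obtain ⟨N, rfl⟩ : ∃ M, N = M + 1 := ⟨N - 1, by omega⟩
  have := h u u
  rw [pow_succ'] at this
  obtain ⟨v, hv, -⟩ := exists_of_mul_ne_zero this
  exact ⟨v, hv⟩

theorem Prim.inn {A : Matrix V V ℕ} (h : Prim A) (v : V) : ∃ u, A u v ≠ 0 := by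
  obtain ⟨-, N, hN, h⟩ := h
  obtain ⟨N, rfl⟩ : ∃ M, N = M + 1 := ⟨N - 1, by omega⟩
  have := h v v
  rw [pow_succ] at this
  obtain ⟨u, -, hu⟩ := exists_of_mul_ne_zero this
  exact ⟨u, hu⟩

theorem Prim.perron {A : Matrix V V ℕ} (h : Prim A) :
    ∃ (l : ℝ) (x : V → ℝ), 1 ≤ l ∧ (∀ v, 0 < x v) ∧ cr A *ᵥ x = l • x := by
  have := h.1
  obtain ⟨-, N, -, hN⟩ := id h
  exact exists_perron A (fun u v => ⟨N, hN u v⟩) h.out

theorem Prim.growth {A : Matrix V V ℕ} (hA : Prim A) {l : ℝ} {x : V → ℝ} (hl : 0 < l)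
    (hx : ∀ v, 0 < x v) (h : cr A *ᵥ x = l • x) :
    ∃ (c : ℝ) (N : ℕ), 0 < c ∧ ∀ m, N ≤ m → ∀ u v, c * l ^ m ≤ ((A ^ m) u v : ℝ) := by
  obtain ⟨-, N, -, hN⟩ := hA
  obtain ⟨c, hc, hg⟩ := entry_growth hl hx h N
  refine ⟨c, N, hc, fun m hm u v => ?_⟩
  obtain ⟨m, rfl⟩ : ∃ k, m = k + N := ⟨m - N, by omega⟩
  exact hg m u v fun w _ => hN w v

/-- a real row vector with positive Perron value becomes positive -/
theorem Prim.rep {A : Matrix V V ℕ} (hA : Prim A) {l : ℝ} {x : V → ℝ}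
    (hx : ∀ v, 0 < x v) (h : cr A *ᵥ x = l • x) (r : V → ℝ) (hs : 0 < r ⬝ᵥ x) :
    ∃ m0, ∀ m, m0 ≤ m → ∀ v, 0 < (r ᵥ* cr A ^ m) v := by
  obtain ⟨-, N, -, hN⟩ := id hA
  obtain ⟨k, hk⟩ := rep_block (E := cr A ^ N) (fun u v => by rw [← cr_pow]; simp) hx
    (pow_mulVec_eig h N) (fun _ => True)
    (fun u v _ _ => by
      rw [← cr_pow, cr_apply]; exact_mod_cast Nat.pos_of_ne_zero (hN u v))
    (fun u v _ hv => absurd trivial hv) r (fun u hu => absurd trivial hu) hs
  refine ⟨N * k, fun m hm => ?_⟩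
  induction m, hm using Nat.le_induction with
  | base => intro v; rw [pow_mul]; exact hk v trivial
  | succ m _ ih =>
    intro v
    rw [pow_succ, ← Matrix.vecMul_vecMul]
    obtain ⟨u, hu⟩ := hA.inn v
    refine Finset.sum_pos' (fun w _ => mul_nonneg (ih w).le (by simp)) ⟨u, Finset.mem_univ u, ?_⟩
    exact mul_pos (ih u) (by simpa using Nat.pos_of_ne_zero hu)

end Pool.Agent.MP_993212_an.H18
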