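import Pool.Agent.MP_993212_an.H18.B2

set_option linter.unusedSectionVars false

namespace Pool.Agent.MP_993212_an.H18

open Matrix H16 H46

variable {V W K K' : Type} [Fintype V] [Fintype W] [Fintype K] [Fintype K'] [DecidableEq V]
  [DecidableEq W] [DecidableEq K] [DecidableEq K']

theorem ch_pow_succ {A : Matrix V V ℕ} {B : Matrix W W ℕ} {T : Matrix V W ℕ} (h : Ch A B T)
    (q : ℕ) : Ch (A ^ (q + 1)) (B ^ (q + 1)) T := by
  induction h with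
  | refl => exact Ch.refl
  | step R S _ ih =>
    rw [pow_succ' (R * S), Matrix.mul_assoc] at ih
    have := Ch.step _ _ ih
    rwa [← H12.pow_inter (Matrix.mul_assoc S R S), Matrix.mul_assoc, ← pow_succ] at this

theorem ch_restrict {A : Matrix V V ℕ} {B : Matrix W W ℕ} {T : Matrix V W ℕ} (h : Ch A B T)
    (u0 : V) {f : K → V} (hf : Function.Injective f)
    (hr : ∀ u, (∃ i, f i = u) ↔ ∃ i j, (A ^ i) u0 u ≠ 0 ∧ (A ^ j) u u0 ≠ 0) :
    ∃ (T' : Matrix W V ℕ) (n : ℕ), T * T' = A ^ n ∧ T' * A = B * T' ∧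
      ∀ (J : Type) [Fintype J] [DecidableEq J] (g : J → W), Function.Injective g →
        (∀ w, (∃ j, g j = w) ↔ ∃ i j : ℕ, (A ^ i * T) u0 w ≠ 0 ∧ (T' * A ^ j) w u0 ≠ 0) →
        Real (A.submatrix f f) (B.submatrix g g) ((zz T).submatrix f g) := by
  induction h with
  | refl =>
    refine ⟨1, 0, by simp, by simp, fun J _ _ g hg e => ?_⟩
    refine real_range hf hf hf hg rfl (Set.ext fun w => (e w).trans ?_) ?_
    · simpa using (hr w).symm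
    · rw [zz_one, Matrix.submatrix_one _ hf]
      exact Real.refl _
  | @step W X _ _ _ _ R S T h ih =>
    classical
    obtain ⟨T', n, h1, h2, h3⟩ := ih
    have hi := h.inter
    refine ⟨S * T', n + 1, ?_, ?_, fun J _ _ g hg e => ?_⟩
    · rw [Matrix.mul_assoc, ← Matrix.mul_assoc R, ← Matrix.mul_assoc T, ← hi, Matrix.mul_assoc, h1,
        pow_succ']
    · rw [Matrix.mul_assoc, h2]
      simp only [Matrix.mul_assoc]
    let p : W → Prop := fun w => ∃ i j : ℕ, (A ^ i * T) u0 w ≠ 0 ∧ (T' * A ^ j) w u0 ≠ 0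
    have a1 : ∀ (i : ℕ) x w, (A ^ i * (T * R)) u0 x ≠ 0 → S x w ≠ 0 → (A ^ (i + 1) * T) u0 w ≠ 0 := by
      intro i x w g1 g2
      rw [pow_succ, Matrix.mul_assoc, hi, ← Matrix.mul_assoc T, ← Matrix.mul_assoc]
      exact mul_ne_zero_of g1 g2
    have a2 : ∀ (j : ℕ) x w, (S * T' * A ^ j) x u0 ≠ 0 → R w x ≠ 0 → (T' * A ^ (j + 1)) w u0 ≠ 0 := by
      intro j x w g1 g2
      rw [pow_succ', ← Matrix.mul_assoc, h2, Matrix.mul_assoc R, Matrix.mul_assoc R]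
      exact mul_ne_zero_of g2 g1
    have r1 := h3 {w // p w} Subtype.val Subtype.val_injective fun w =>
      ⟨fun ⟨j, hj⟩ => hj ▸ j.2, fun hw => ⟨⟨w, hw⟩, rfl⟩⟩
    have r2 := Real.step (R.submatrix (Subtype.val : {w // p w} → W) g) (S.submatrix g Subtype.val)
    rw [← sub_mul R S (Subtype.val : {w // p w} → W) hg (Subtype.val : {w // p w} → W)
      (fun w w' x g1 g2 => (e x).2 (by
        obtain ⟨i, -, g3, -⟩ := w.2
        obtain ⟨-, j, -, g4⟩ := w'.2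
        refine ⟨i, j, ?_, ?_⟩
        · rw [← Matrix.mul_assoc]; exact mul_ne_zero_of g3 g1
        · rw [Matrix.mul_assoc]; exact mul_ne_zero_of g2 g4)),
      ← sub_mul S R g (g := (Subtype.val : {w // p w} → W)) Subtype.val_injective g
        (fun x x' w g1 g2 => by
        obtain ⟨i, -, g3, -⟩ := (e _).1 ⟨x, rfl⟩
        obtain ⟨-, j, -, g4⟩ := (e _).1 ⟨x', rfl⟩
        exact ⟨⟨w, _, _, a1 i _ w g3 g1, a2 j _ w g4 g2⟩, rfl⟩)] at r2
    have r3 := r1.trans r2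
    rwa [zz_sub, ← sub_mul (zz T) (zz R) f (g := (Subtype.val : {w // p w} → W))
      Subtype.val_injective g (fun u x w g1 g2 => by
        obtain ⟨i, -, g3, -⟩ := (hr _).1 ⟨u, rfl⟩
        obtain ⟨-, j, -, g4⟩ := (e _).1 ⟨x, rfl⟩
        exact ⟨⟨w, _, _, mul_ne_zero_of g3 (zz_ne.1 g1), a2 j _ w g4 (zz_ne.1 g2)⟩, rfl⟩),
      ← zz_mul] at r3

theorem prim_irr {A : Matrix K K ℕ} (h : H16.Prim A) : Irr A := by
  obtain ⟨N, hN, h⟩ := h
  exact fun a b => ⟨N - 1, by rw [Nat.sub_add_cancel hN]; exact (h a b).ne'⟩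

theorem b1_core {A : Matrix V V ℕ} {B : Matrix W W ℕ} {R : Matrix V W ℤ} {S : Matrix W V ℤ}
    {l a : ℕ} (hz : ZSE A B R S l) {f : K → V} {g : K' → W} (hf : Function.Injective f)
    (hg : Function.Injective g) {x : V → ℕ} {y : W → ℕ} {c : ℕ}
    (l1 : ∀ a b, A a b ≠ 0 → x a ≤ x b) (l2 : ∀ a b, B a b ≠ 0 → y a ≤ y b)
    (l3 : ∀ a b, R a b ≠ 0 → x a ≤ y b) (l4 : ∀ a b, S a b ≠ 0 → y a ≤ x b)
    (e1 : ∀ u, x u = c ↔ ∃ i, f i = u) (e2 : ∀ u, y u = c ↔ ∃ i, g i = u) (k0 : K)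
    (i1 : Irr (A.submatrix f f)) (i2 : Irr (B.submatrix g g)) {T : Matrix V W ℕ} (h : Ch A B T)
    (e : zz T = zz A ^ a * R) : Real (A.submatrix f f) (B.submatrix g g) (R.submatrix f g) := by
  obtain ⟨-, -, y3, -⟩ := restrict_lev hz hf hg l1 l2 l3 l4 e1 e2
  obtain ⟨z1, z2, z3, z4⟩ := hz
  have x0 := (e1 _).2 ⟨k0, rfl⟩
  obtain ⟨T', n, h1, h2, h3⟩ := ch_restrict h (f k0) hf fun u => ⟨by
    rintro ⟨i, rfl⟩
    obtain ⟨_, g1⟩ := i1 k0 i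
    obtain ⟨_, g2⟩ := i1 i k0
    exact ⟨_, _, sub_pow_ne g1, sub_pow_ne g2⟩, fun ⟨i, j, g1, g2⟩ => (e1 u).1 (by
      have := lev_pow l1 g1
      have := lev_pow l1 g2
      omega)⟩
  have lp : ∀ k u v, (zz A ^ k) u v ≠ 0 → x u ≤ x v := fun k u v h => lev_pow l1 (zpw_ne.1 h)
  have lT : ∀ u w, zz T u w ≠ 0 → x u ≤ y w := fun u w g1 => by
    rw [e] at g1
    obtain ⟨v, g2, g3⟩ := exists_of_mul_ne_zero g1
    exact (lp _ _ _ g2).trans (l3 _ _ g3)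
  have eT : (zz T).submatrix f g = zz (A.submatrix f f) ^ a * R.submatrix f g := by
    rw [e, sub_mul_lev (lp a) l3 hf e1 e1 e2, ← zz_pow, ← zz_sub, sub_pow_lev l1 hf e1, zz_pow]
  have eS : zz (T' * A ^ (a + l)) = S * zz A ^ n := by
    rw [H12.pow_inter' h2, zz_mul, zz_pow, pow_add, ← z4, ← zz_pow A, ← h1, zz_mul, e,
      ← Matrix.mul_assoc (zz B ^ a), ← H12.pow_inter' z2]
    simp only [Matrix.mul_assoc]
  refine (h3 K' g hg fun w => ⟨?_, ?_⟩).of_eq (a := a) (b := 0) (by simp [eT])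
  · rintro ⟨j, rfl⟩
    obtain ⟨b, g1⟩ := i1.out_pow (a + l) k0
    rw [← zpw_ne, pow_add, ← y3, ← Matrix.mul_assoc, ← eT] at g1
    obtain ⟨w0, g2, -⟩ := exists_of_mul_ne_zero g1
    obtain ⟨i, g3⟩ := i2 w0 j
    obtain ⟨b', g4⟩ := i1.inn_pow (l + n) k0
    rw [← zpw_ne, pow_add, ← y3, Matrix.mul_assoc, ← zz_pow, ← sub_pow_lev l1 hf e1, zz_sub, zz_pow,
      ← sub_mul_lev l4 (lp n) hf e2 e1 e1, ← eS] at g4
    obtain ⟨w1, -, g5⟩ := exists_of_mul_ne_zero g4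
    obtain ⟨i', g6⟩ := i2 j w1
    refine ⟨i + 1, i' + 1 + (a + l), ?_, ?_⟩
    · rw [h.inter_pow]
      exact mul_ne_zero_of (zz_ne.1 g2) (sub_pow_ne g3)
    · rw [pow_add A (i' + 1), ← Matrix.mul_assoc, H12.pow_inter' h2, Matrix.mul_assoc]
      exact mul_ne_zero_of (sub_pow_ne g6) (zz_ne.1 g5)
  · rintro ⟨i, j, g1, g2⟩
    obtain ⟨v, g3, g4⟩ := exists_of_mul_ne_zero g1
    obtain ⟨b, g5⟩ := i1.out_pow (a + l) k0
    have g6 := zz_ne.2 (mul_ne_zero_of g2 (sub_pow_ne g5))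
    rw [Matrix.mul_assoc, ← pow_add, add_comm j, pow_add, ← Matrix.mul_assoc, zz_mul, eS,
      zz_pow] at g6
    obtain ⟨v1, g7, g8⟩ := exists_of_mul_ne_zero g6
    obtain ⟨v2, g9, g10⟩ := exists_of_mul_ne_zero g7
    have := lev_pow l1 g3
    have := lT _ _ (zz_ne.2 g4)
    have := l4 _ _ g9
    have := lp _ _ _ g10
    have := lp _ _ _ g8
    have := (e1 _).2 ⟨b, rfl⟩
    exact (e2 w).1 (by omega)

theorem b1 : B1 := by
  rintro n m a b A B R S l q f g ⟨z1, z2, z3, z4⟩ hq ⟨l, rfl⟩ ha -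
    ⟨hf, hg, p1, p2, x, y, c, ⟨l1, l2, l3, l4⟩, e1, e2⟩ ⟨T, h, i, j, e⟩
  obtain ⟨q, rfl⟩ : ∃ k, q = k + 1 := ⟨q - 1, by omega⟩
  refine b1_core (l := l) (a := i) ⟨?_, ?_, ?_, ?_⟩ hf hg l1 l2 l3 l4 e1 e2 ⟨0, ha⟩ (prim_irr p1)
    (prim_irr p2) (ch_pow_succ ((Ch.pow A (q * i + j)).trans h) q) ?_
  · rw [zz_pow, zz_pow, H12.pow_inter z1]
  · rw [zz_pow, zz_pow, H12.pow_inter' z2]
  · rw [z3, zz_pow, pow_mul]
  · rw [z4, zz_pow, pow_mul]
  · rw [zz_mul, zz_pow, pow_add, Matrix.mul_assoc, ← e, ← Matrix.mul_assoc, ← pow_add, zz_pow,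
      ← pow_mul, add_mul, one_mul]

end Pool.Agent.MP_993212_an.H18
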