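import Pool.Agent.MP_993212_an.H18.Base

set_option linter.unusedSectionVars false

namespace Pool.Agent.MP_993212_an.H18

open Matrix H16

variable {n : ℕ} {K K' K'' V W : Type} [Fintype K] [Fintype K'] [Fintype K''] [Fintype V]
  [Fintype W] [DecidableEq K] [DecidableEq K'] [DecidableEq K''] [DecidableEq V] [DecidableEq W]

/-- the cyclic block matrix of a family -/
def cyc (C : ZMod (n + 1) → Matrix K K' ℕ) : Matrix (K × ZMod (n + 1)) (K' × ZMod (n + 1)) ℕ :=
  fun a b => if b.2 = a.2 + 1 then C a.2 a.1 b.1 else 0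

theorem dia_mul_cyc (Y : ZMod (n + 1) → Matrix K K' ℕ) (X : ZMod (n + 1) → Matrix K' K'' ℕ) :
    blockDiagonal Y * cyc X = cyc fun i => Y i * X i := by
  ext ⟨a, i⟩ ⟨b, j⟩
  simp only [Matrix.mul_apply, Fintype.sum_prod_type, blockDiagonal_apply, cyc, ite_mul, zero_mul,
    Finset.sum_ite_eq, Finset.mem_univ, if_true]
  split_ifs <;> simp

theorem cyc_mul_dia (X : ZMod (n + 1) → Matrix K K' ℕ) (Y : ZMod (n + 1) → Matrix K' K'' ℕ) :
    cyc X * blockDiagonal Y = cyc fun i => X i * Y (i + 1) := by
  ext ⟨a, i⟩ ⟨b, j⟩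
  simp only [Matrix.mul_apply, Fintype.sum_prod_type, blockDiagonal_apply, cyc, ite_mul, zero_mul,
    Finset.sum_ite_eq', Finset.mem_univ, if_true]
  by_cases h : j = i + 1
  · simp [h]
  · simp [h, Ne.symm h]

theorem ch_cyc (Y : ZMod (n + 1) → Matrix K K' ℕ) (X : ZMod (n + 1) → Matrix K' K ℕ) :
    Ch (cyc fun i => Y i * X i) (cyc fun i => X i * Y (i + 1)) (blockDiagonal Y) := by
  rw [← dia_mul_cyc, ← cyc_mul_dia]
  exact Ch.single _ _

theorem succ_val (i : ZMod (n + 1)) :
    (i.val = n ∧ (i + 1).val = 0) ∨ (i.val < n ∧ (i + 1).val = i.val + 1) := by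
  have h : i + 1 = ((i.val + 1 : ℕ) : ZMod (n + 1)) := by simp
  have h1 := ZMod.val_lt i
  rw [h, ZMod.val_natCast]
  by_cases h2 : i.val = n
  · exact Or.inl ⟨h2, by rw [h2, Nat.mod_self]⟩
  · exact Or.inr ⟨by omega, Nat.mod_eq_of_lt (by omega)⟩

theorem rotate0 (C C' Y : ZMod (n + 1) → Matrix K K ℕ) (X : Matrix K K ℕ)
    (h1 : ∀ i, C i * Y (i + 1) = Y i * C' i) (h2 : ∀ i, i.val = n → C i = Y i * X)
    (h3 : ∀ i, i.val = n → C' i = X * Y (i + 1)) : Ch (cyc C) (cyc C') (blockDiagonal Y) := by
  let M : ℕ → ZMod (n + 1) → Matrix K K ℕ := fun k i =>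
    if n + 1 ≤ i.val + k then (if n + 1 ≤ (i + 1).val + k then C' i else X)
    else (if n + 1 ≤ (i + 1).val + k then C i * Y (i + 1) else C i)
  let T : ℕ → ZMod (n + 1) → Matrix K K ℕ := fun k i => if n + 1 ≤ i.val + k then Y i else 1
  have key : ∀ k, k ≤ n + 1 → Ch (cyc C) (cyc (M k)) (blockDiagonal (T k)) := by
    intro k
    induction k with
    | zero =>
      intro _
      have e1 : M 0 = C := funext fun i => by
        have := ZMod.val_lt i
        have := ZMod.val_lt (i + 1)
        simp only [M]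
        rw [if_neg (by omega), if_neg (by omega)]
      have e2 : T 0 = 1 := funext fun i => by
        have := ZMod.val_lt i
        simp only [T]
        rw [if_neg (by omega)]; rfl
      rw [e1, e2, blockDiagonal_one]
      exact Ch.refl
    | succ k ih =>
      intro hk
      have c := ch_cyc (fun i => if i.val + k = n then Y i else 1) (fun i =>
        if i.val + k = n then (if n + 1 ≤ (i + 1).val + k then C' i else X) else M k i)
      have e1 : (fun i => (if i.val + k = n then Y i else 1) * if i.val + k = n then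
          (if n + 1 ≤ (i + 1).val + k then C' i else X) else M k i) = M k := funext fun i => by
        by_cases h : i.val + k = n
        · simp only [M]
          rw [if_pos h, if_pos h, if_neg (show ¬ n + 1 ≤ i.val + k by omega)]
          split_ifs with h4
          · exact (h1 i).symm
          · exact (h2 i (by have := succ_val i; omega)).symm
        · simp [h]
      have e2 : (fun i => (if i.val + k = n then (if n + 1 ≤ (i + 1).val + k then C' i else X)
          else M k i) * if (i + 1).val + k = n then Y (i + 1) else 1) = M (k + 1) :=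
        funext fun i => by
          have := succ_val i
          simp only [M]
          split_ifs <;> first | omega | simp only [Matrix.mul_one] | exact (h3 i (by omega)).symm
      rw [e1, e2] at c
      have c2 := (ih (by omega)).trans c
      rw [← blockDiagonal_mul] at c2
      have e3 : (fun i => T k i * if i.val + k = n then Y i else 1) = T (k + 1) :=
        funext fun i => by
          simp only [T]
          split_ifs <;> first | omega | simp
      rwa [e3] at c2
  have := key (n + 1) le_rfl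
  simpa only [M, T, le_add_iff_nonneg_left, Nat.zero_le, if_true] using this

theorem rotate (C : ZMod (n + 1) → Matrix K K ℕ) (C' : ZMod (n + 1) → Matrix K' K' ℕ)
    (Y : ZMod (n + 1) → Matrix K K' ℕ) (X : Matrix K' K ℕ)
    (h1 : ∀ i, C i * Y (i + 1) = Y i * C' i) (h2 : ∀ i, i.val = n → C i = Y i * X)
    (h3 : ∀ i, i.val = n → C' i = X * Y (i + 1)) : Ch (cyc C) (cyc C') (blockDiagonal Y) := by
  have c1 := ch_cyc (fun _ : ZMod (n + 1) => fromCols (1 : Matrix K K ℕ) (0 : Matrix K K' ℕ))
    (fun i => fromRows (C i) 0)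
  have c3 := ch_cyc (fun _ : ZMod (n + 1) => fromRows (0 : Matrix K K' ℕ) (1 : Matrix K' K' ℕ))
    (fun i => fromCols 0 (C' i))
  have c2 := rotate0 (fun i => fromBlocks (C i) 0 0 0) (fun i => fromBlocks 0 0 0 (C' i))
    (fun i => fromBlocks 0 (Y i) 0 0) (fromBlocks 0 0 X 0)
    (fun i => by simp [fromBlocks_multiply, h1]) (fun i h => by simp [fromBlocks_multiply, h2 i h])
    (fun i h => by simp [fromBlocks_multiply, h3 i h])
  simp only [fromRows_mul_fromCols, fromCols_mul_fromRows, Matrix.mul_zero, Matrix.zero_mul,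
    Matrix.mul_one, Matrix.one_mul, zero_add, add_zero] at c1 c3
  have c := (c1.trans c2).trans c3
  simpa [← blockDiagonal_mul, fromCols_mul_fromBlocks, fromCols_mul_fromRows] using c

/-- the tower of height `n + 1` over `C` -/
def tw (n : ℕ) (C : Matrix K K ℕ) : Matrix (K × ZMod (n + 1)) (K × ZMod (n + 1)) ℕ :=
  cyc fun i => if i.val = n then C else 1

theorem ch_tw {C : Matrix K K ℕ} {C' : Matrix K' K' ℕ} {T : Matrix K K' ℕ} (h : Ch C C' T) :
    Ch (tw n C) (tw n C') (blockDiagonal fun _ => T) := by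
  induction h with
  | refl => exact (blockDiagonal_one (o := ZMod (n + 1)) (m := K) (α := ℕ)).symm ▸ Ch.refl
  | step R S _ ih =>
    rw [blockDiagonal_mul]
    refine ih.trans (rotate _ _ _ S (fun i => ?_) (fun i h => if_pos h) fun i h => if_pos h)
    split_ifs <;> simp [Matrix.mul_assoc]

theorem zz_dia (T : Matrix K K' ℕ) :
    zz (blockDiagonal fun _ : ZMod (n + 1) => T) = blockDiagonal fun _ => zz T := by
  ext ⟨a, i⟩ ⟨b, j⟩
  simp only [zz_apply, blockDiagonal_apply]
  split_ifs <;> simp

theorem real_tw {C : Matrix K K ℕ} {C' : Matrix K' K' ℕ} {R : Matrix K K' ℤ} (h : Real C C' R) :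
    Real (tw n C) (tw n C') (blockDiagonal fun _ => R) := by
  obtain ⟨T, h, a, b, e⟩ := h
  refine real_cancel (ch_tw (Ch.pow C a)) ?_
  have := (ch_tw (n := n) ((Ch.pow C b).trans h)).real
  rwa [zz_dia, zz_mul, zz_pow, ← e, blockDiagonal_mul, ← zz_pow, ← zz_dia] at this

theorem lab_pow {A : Matrix V V ℕ} {lab : V → ZMod (n + 1)}
    (hA : ∀ a b, A a b ≠ 0 → lab b = lab a + 1) {k : ℕ} {a b : V} (h : (A ^ k) a b ≠ 0) :
    lab b = lab a + k := by
  induction k generalizing b with
  | zero => simp [pw_zero_eq h]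
  | succ k ih =>
    obtain ⟨c, h1, h2⟩ := pw_split h
    rw [hA c b (by simpa using h2), ih h1]
    push_cast; ring

theorem ch_nat {A : Matrix V V ℕ} {lab : V → ZMod (n + 1)}
    (hA : ∀ a b, A a b ≠ 0 → lab b = lab a + 1) {f : K → V} (hf : Function.Injective f)
    (hr : ∀ u, lab u = 0 ↔ ∃ i, f i = u) :
    Ch (tw n ((A ^ (n + 1)).submatrix f f)) A
      (Matrix.of fun a u => (A ^ a.2.val) (f a.1) u) := by
  have l0 : ∀ i, lab (f i) = 0 := fun i => (hr _).2 ⟨i, rfl⟩
  let E : ZMod (n + 1) → Matrix V V ℕ := fun i a b => if lab a = i then A a b else 0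
  have hE : ∀ i : ZMod (n + 1), (A ^ i.val).submatrix f id * E i =
      (A ^ (i.val + 1)).submatrix f id := by
    intro i
    ext y u
    simp only [pow_succ, Matrix.mul_apply, Matrix.submatrix_apply, id, E]
    refine Finset.sum_congr rfl fun a _ => ?_
    by_cases h : (A ^ i.val) (f y) a = 0
    · simp [h]
    · rw [if_pos (by simpa [l0] using lab_pow hA h)]
  have one : ∀ M : Matrix V V ℕ, (∀ a b, M a b ≠ 0 → lab b = 0) →
      M.submatrix id f * (1 : Matrix V V ℕ).submatrix f id = M := by
    intro M h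
    rw [← sub_mul M 1 id hf id fun a _ b h1 _ => (hr b).1 (h a b h1)]
    simp
  have last : ∀ i : ZMod (n + 1), i.val = n → i + 1 = 0 := fun i h => by
    have := succ_val i
    exact (ZMod.val_eq_zero _).1 (by omega)
  have c1 := rotate (fun i => if i.val = n then (A ^ (n + 1)).submatrix f f else 1) E
    (fun i => (A ^ i.val).submatrix f id) (Matrix.of fun a y => if (lab a).val = n then A a (f y)
      else 0) (fun i => by
      rw [hE]
      obtain ⟨h1, h2⟩ | ⟨h1, h2⟩ := succ_val i
      · rw [if_pos h1, h2, h1, pow_zero,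
          ← sub_mul _ 1 f hf id fun a _ b h3 _ => (hr b).1 (by simpa [l0] using lab_pow hA h3)]
        simp
      · rw [if_neg (by omega), h2, Matrix.one_mul]) (fun i h => by
      rw [if_pos h, h]
      ext y y'
      simp only [pow_succ, Matrix.mul_apply, Matrix.submatrix_apply, id, Matrix.of_apply]
      refine Finset.sum_congr rfl fun a _ => ?_
      by_cases h1 : (A ^ n) (f y) a = 0
      · simp [h1]
      · rw [if_pos (by rw [lab_pow hA h1, l0, zero_add, ZMod.val_natCast_of_lt (by omega)])])
      (fun i h => by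
      rw [last i h, ZMod.val_zero, pow_zero, ← one (E i) fun a b h1 => by
        simp only [E] at h1
        split_ifs at h1 with h2
        · rw [hA a b h1, h2, last i h]
        · exact absurd rfl h1]
      congr 1
      ext a y
      simp only [Matrix.submatrix_apply, id, E, Matrix.of_apply]
      exact if_congr ⟨fun h1 => h1 ▸ h, fun h1 => ZMod.val_injective _ (h1.trans h.symm)⟩ rfl rfl)
  have c2 := Ch.single
    (Matrix.of fun (a : V × ZMod (n + 1)) (u : V) => if a.1 = u ∧ lab u = a.2 then 1 else 0)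
    (Matrix.of fun (u : V) (b : V × ZMod (n + 1)) => if lab b.1 = b.2 then A u b.1 else 0)
  have e1 : (Matrix.of fun (a : V × ZMod (n + 1)) (u : V) => if a.1 = u ∧ lab u = a.2 then 1 else 0)
      * (Matrix.of fun (u : V) (b : V × ZMod (n + 1)) => if lab b.1 = b.2 then A u b.1 else 0) =
      cyc E := by
    ext ⟨a, i⟩ ⟨b, j⟩
    simp only [Matrix.mul_apply, Matrix.of_apply, ite_and, ite_mul, zero_mul, Finset.sum_ite_eq,
      Finset.mem_univ, if_true, one_mul, cyc, E]
    by_cases h : A a b = 0
    · simp [h]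
    · rw [hA a b h]
      by_cases h1 : lab a = i
      · simp [h1, eq_comm]
      · simp [h1]
  have e2 : (Matrix.of fun (u : V) (b : V × ZMod (n + 1)) => if lab b.1 = b.2 then A u b.1 else 0) *
      (Matrix.of fun (a : V × ZMod (n + 1)) (u : V) => if a.1 = u ∧ lab u = a.2 then 1 else 0) =
      A := by
    ext u v
    simp only [Matrix.mul_apply, Matrix.of_apply, Fintype.sum_prod_type, ite_mul, zero_mul,
      Finset.sum_ite_eq, Finset.mem_univ, if_true]
    rw [Finset.sum_eq_single v] <;> simp +contextual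
  rw [e1, e2] at c2
  have c := c1.trans c2
  have e3 : (blockDiagonal fun i : ZMod (n + 1) => (A ^ i.val).submatrix f id) *
      (Matrix.of fun (a : V × ZMod (n + 1)) (u : V) => if a.1 = u ∧ lab u = a.2 then 1 else 0) =
      Matrix.of fun a u => (A ^ a.2.val) (f a.1) u := by
    ext ⟨y, i⟩ u
    simp only [Matrix.mul_apply, Matrix.of_apply, Fintype.sum_prod_type, blockDiagonal_apply,
      ite_and, mul_ite, mul_one, mul_zero, Matrix.submatrix_apply, id]
    by_cases h : (A ^ i.val) (f y) u = 0
    · simp [h]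
    · have : lab u = i := by simpa [l0] using lab_pow hA h
      simp [this]
  rwa [e3] at c

theorem tower {A : Matrix V V ℕ} {B : Matrix W W ℕ} {R : Matrix V W ℤ} {lab : V → ZMod (n + 1)}
    {lab' : W → ZMod (n + 1)} (hA : ∀ a b, A a b ≠ 0 → lab b = lab a + 1)
    (hB : ∀ a b, B a b ≠ 0 → lab' b = lab' a + 1) (hR : ∀ a b, R a b ≠ 0 → lab' b = lab a)
    {f : K → V} {g : K' → W} (hf : Function.Injective f) (hg : Function.Injective g)
    (hr : ∀ u, lab u = 0 ↔ ∃ i, f i = u) (hr' : ∀ u, lab' u = 0 ↔ ∃ i, g i = u)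
    (e : zz A * R = R * zz B)
    (h : Real ((A ^ (n + 1)).submatrix f f) ((B ^ (n + 1)).submatrix g g) (R.submatrix f g)) :
    Real A B R := by
  refine real_cancel (ch_nat hA hf hr) ?_
  have := (real_tw (n := n) h).trans (ch_nat hB hg hr').real
  have e1 : (blockDiagonal fun _ : ZMod (n + 1) => R.submatrix f g) *
      zz (Matrix.of fun (a : K' × ZMod (n + 1)) u => (B ^ a.2.val) (g a.1) u) =
      zz (Matrix.of fun (a : K × ZMod (n + 1)) u => (A ^ a.2.val) (f a.1) u) * R := by
    ext ⟨y, i⟩ w
    have h1 := congrFun (congrFun (sub_mul R (zz B ^ i.val) f hg id fun a _ b h1 _ =>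
      (hr' b).1 (by rw [hR _ _ h1]; exact (hr _).2 ⟨a, rfl⟩)) y) w
    rw [← H12.pow_inter e, ← zz_pow, ← zz_pow] at h1
    simp only [Matrix.mul_apply, Fintype.sum_prod_type, blockDiagonal_apply, ite_mul, zero_mul,
      Finset.sum_ite_eq, Finset.mem_univ, if_true]
    exact h1.symm
  rwa [e1] at this

end Pool.Agent.MP_993212_an.H18
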