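import Pool.Agent.MP_993212_an.H18.ThmB
import Pool.Agent.MP_993212_an.H18.Tower

set_option linter.unusedSectionVars false

namespace Pool.Agent.MP_993212_an.H18

open Matrix H16 H46

variable {V W K K' : Type} [Fintype V] [Fintype W] [Fintype K] [Fintype K'] [DecidableEq V]
  [DecidableEq W] [DecidableEq K] [DecidableEq K']

theorem lev_pow {A : Matrix V V ℕ} {x : V → ℕ} (hx : ∀ a b, A a b ≠ 0 → x a ≤ x b) {k : ℕ}
    {a b : V} (h : (A ^ k) a b ≠ 0) : x a ≤ x b := by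
  induction k generalizing b with
  | zero => rw [pw_zero_eq h]
  | succ k ih =>
    obtain ⟨c, h1, h2⟩ := pw_split h
    exact (ih h1).trans (hx c b (by simpa using h2))

theorem sub_pow_lev {A : Matrix V V ℕ} {x : V → ℕ} (hx : ∀ a b, A a b ≠ 0 → x a ≤ x b) {c : ℕ}
    {f : K → V} (hf : Function.Injective f) (e : ∀ u, x u = c ↔ ∃ i, f i = u) (k : ℕ) :
    (A ^ k).submatrix f f = (A.submatrix f f) ^ k :=
  sub_pow A hf (fun _ i j v h1 h2 => (e v).1 (by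
    have := lev_pow hx h1
    have := hx _ _ h2
    have := (e _).2 ⟨i, rfl⟩
    have := (e _).2 ⟨j, rfl⟩
    omega)) k

theorem sub_mul_lev {α U J : Type} [Semiring α] [Fintype U] [DecidableEq U] {M : Matrix U V α}
    {N : Matrix V W α} {x : U → ℕ} {y : V → ℕ} {z : W → ℕ} {c : ℕ}
    (hM : ∀ a b, M a b ≠ 0 → x a ≤ y b) (hN : ∀ a b, N a b ≠ 0 → y a ≤ z b) {f : J → U}
    {g : K → V} {h : K' → W} (hg : Function.Injective g) (e1 : ∀ u, x u = c ↔ ∃ i, f i = u)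
    (e2 : ∀ u, y u = c ↔ ∃ i, g i = u) (e3 : ∀ u, z u = c ↔ ∃ i, h i = u) :
    (M * N).submatrix f h = M.submatrix f g * N.submatrix g h :=
  sub_mul M N f hg h fun i j v h1 h2 => (e2 v).1 (by
    have := hM _ _ h1
    have := hN _ _ h2
    have := (e1 _).2 ⟨i, rfl⟩
    have := (e3 _).2 ⟨j, rfl⟩
    omega)

theorem restrict_lev {A : Matrix V V ℕ} {B : Matrix W W ℕ} {R : Matrix V W ℤ} {S : Matrix W V ℤ}
    {l : ℕ} (hz : ZSE A B R S l) {f : K → V} {g : K' → W} (hf : Function.Injective f)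
    (hg : Function.Injective g) {x : V → ℕ} {y : W → ℕ} {c : ℕ}
    (l1 : ∀ a b, A a b ≠ 0 → x a ≤ x b) (l2 : ∀ a b, B a b ≠ 0 → y a ≤ y b)
    (l3 : ∀ a b, R a b ≠ 0 → x a ≤ y b) (l4 : ∀ a b, S a b ≠ 0 → y a ≤ x b)
    (e1 : ∀ u, x u = c ↔ ∃ i, f i = u) (e2 : ∀ u, y u = c ↔ ∃ i, g i = u) :
    ZSE (A.submatrix f f) (B.submatrix g g) (R.submatrix f g) (S.submatrix g f) l := by
  obtain ⟨z1, z2, z3, z4⟩ := hz
  have l1' : ∀ a b, zz A a b ≠ 0 → x a ≤ x b := fun a b h => l1 a b (zz_ne.1 h)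
  have l2' : ∀ a b, zz B a b ≠ 0 → y a ≤ y b := fun a b h => l2 a b (zz_ne.1 h)
  refine ⟨?_, ?_, ?_, ?_⟩
  · rw [zz_sub, zz_sub, ← sub_mul_lev l1' l3 hf e1 e1 e2, ← sub_mul_lev l3 l2' hg e1 e2 e2, z1]
  · rw [zz_sub, zz_sub, ← sub_mul_lev l4 l1' hf e2 e1 e1, ← sub_mul_lev l2' l4 hg e2 e2 e1, z2]
  · rw [← sub_mul_lev l3 l4 hg e1 e2 e1, z3, ← zz_pow, ← zz_pow, ← sub_pow_lev l1 hf e1, zz_sub]
  · rw [← sub_mul_lev l4 l3 hf e2 e1 e2, z4, ← zz_pow, ← zz_pow, ← sub_pow_lev l2 hg e2, zz_sub]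

theorem exists_lab [Nonempty K] {P : Matrix K K ℕ} (hP : Irr P) :
    ∃ (n : ℕ) (lab : K → ZMod (n + 1)) (N : ℕ), n + 1 ≤ Fintype.card K ∧
      (∀ a b, P a b ≠ 0 → lab b = lab a + 1) ∧
      (∀ a b, lab a = lab b → (P ^ ((n + 1) * (N + 1))) a b ≠ 0) ∧ ∃ u, lab u = 0 := by
  classical
  obtain ⟨u0⟩ := ‹Nonempty K›
  obtain ⟨L, hL, -⟩ := exists_idem2 P P
  have hex : ∃ p, ∃ b, (P ^ (p + 1)) u0 b ≠ 0 ∧ (P ^ L) u0 b ≠ 0 :=
    ⟨L - 1, u0, by rw [Nat.sub_add_cancel hL.1]; exact hL.refl' hP u0, hL.refl' hP u0⟩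
  obtain ⟨b0, g1, g2⟩ := Nat.find_spec hex
  have hmin := fun k => Nat.find_min hex (m := k)
  set n := Nat.find hex
  have same : ∀ {k a b b'}, (P ^ k) a b ≠ 0 → (P ^ k) a b' ≠ 0 → (P ^ L) b b' ≠ 0 :=
    fun h1 h2 => (hL.shift hP h1 h2).1 (hL.refl' hP _)
  have dvd : ∀ k b, (P ^ k) u0 b ≠ 0 → (P ^ L) u0 b ≠ 0 → n + 1 ∣ k := by
    intro k
    induction k using Nat.strong_induction_on with
    | _ k ih =>
      intro b h1 h2
      by_cases hk : k < n + 1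
      · cases k with
        | zero => exact dvd_zero _
        | succ k => exact absurd ⟨b, h1, h2⟩ (hmin k (by omega))
      · obtain ⟨k, rfl⟩ : ∃ j, k = n + 1 + j := ⟨k - (n + 1), by omega⟩
        obtain ⟨a, h3, h4⟩ := pw_split h1
        obtain ⟨c, hc⟩ := hP.out_pow k u0
        have h5 := (hL.shift hP hc h4).1 (hL.trans g2 (same g1 h3))
        exact dvd_add dvd_rfl (ih k (by omega) c hc (hL.trans h2 (hL.symm hP h5)))
  choose len hlen using hP u0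
  have uniq : ∀ (i : ℕ) a, (P ^ i) u0 a ≠ 0 → ((len a + 1 : ℕ) : ZMod (n + 1)) = i := by
    intro i a h
    obtain ⟨r, hr⟩ := hP a u0
    have h1 := (ZMod.natCast_eq_zero_iff _ _).2 (dvd _ _ (pw_add h hr) (hL.refl' hP _))
    have h2 := (ZMod.natCast_eq_zero_iff _ _).2 (dvd _ _ (pw_add (hlen a) hr) (hL.refl' hP _))
    rw [Nat.cast_add] at h1 h2
    linear_combination h2 - h1
  have stp : ∀ t a c, (P ^ ((n + 1) * t)) a c ≠ 0 → (P ^ L) a c ≠ 0 := by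
    intro t
    induction t with
    | zero => intro a c h; rw [pw_zero_eq h]; exact hL.refl' hP c
    | succ t ih =>
      intro a c h
      rw [Nat.mul_succ] at h
      obtain ⟨d, h1, h2⟩ := pw_split h
      obtain ⟨e, he⟩ := hP.out_pow (len d + 1) b0
      refine hL.trans (ih a d h1) (hL.trans ((hL.shift hP (hlen d) he).1 g2) (same (pw_add g1 he) ?_))
      rw [add_comm]
      exact pw_add (hlen d) h2
  obtain ⟨N, hN⟩ := dvd L u0 (hL.refl' hP _) (hL.refl' hP _)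
  obtain ⟨N, rfl⟩ : ∃ M, N = M + 1 := ⟨N - 1, by
    have := hL.1
    cases N with
    | zero => omega
    | succ N => rfl⟩
  refine ⟨n, fun a => ((len a + 1 : ℕ) : ZMod (n + 1)), N, ?_, fun a b h => ?_, fun a b h => ?_,
    u0, by simpa using uniq 0 u0 (pw_zero _ _)⟩
  · have := Fintype.card_le_of_surjective (fun a => ((len a + 1 : ℕ) : ZMod (n + 1))) fun i => by
      obtain ⟨c, hc⟩ := hP.out_pow i.val u0
      exact ⟨c, by simpa using uniq _ c hc⟩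
    rwa [ZMod.card] at this
  · simpa using uniq _ b (pw_add (hlen a) (pw_one h))
  · rw [← hN]
    have h1 := pw_add (pw_cyc (hL.refl' hP u0) (len a + 1)) (hlen b)
    have h2 : len a + 1 ≡ L * (len a + 1) + (len b + 1) [MOD n + 1] := by
      refine ((ZMod.natCast_eq_natCast_iff _ _ _).1 h).trans ?_
      rw [hN, mul_assoc, add_comm (_ * _)]
      exact (modEq_mul _ _ _).symm
    have h3 : len a + 1 ≤ L * (len a + 1) + (len b + 1) := by nlinarith [hL.1]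
    obtain ⟨t, ht⟩ := (Nat.modEq_iff_dvd' h3).1 h2
    obtain ⟨c, hc⟩ := hP.out_pow ((n + 1) * t) a
    refine hL.trans (stp t a c hc) (same (pw_add (hlen a) hc) ?_)
    rwa [show len a + 1 + (n + 1) * t = L * (len a + 1) + (len b + 1) by omega]

theorem lev3 {x y c : ℕ} {p q : Prop} [Decidable p] [Decidable q] (h : x ≤ y) (h2 : q → y = c)
    (h3 : x = c → q → p) :
    (if x < c then 0 else if p then 1 else 2) ≤ (if y < c then 0 else if q then 1 else 2) := by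
  split_ifs <;> first | omega | exact absurd (h3 (by have := h2 ‹q›; omega) ‹q›) ‹¬ p›

theorem b2 : B2 := by
  intro n m A B R S l hz hl hd hp hblk
  refine thmB _ _ _ A B R S l le_rfl hz hl hp ?_
  rintro K K' _ _ _ _ f g hf hg hne i1 i2 ⟨x, y, c, ⟨l1, l2, l3, l4⟩, e1, e2⟩
  classical
  simp only [pow_one] at l1 l2
  obtain ⟨z1, -, z3, z4⟩ := restrict_lev hz hf hg l1 l2 l3 l4 e1 e2
  have s1 := sub_pow_lev l1 hf e1
  have s2 := sub_pow_lev l2 hg e2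
  obtain ⟨p, lab, N, hc, hA, hex, u0, hu0⟩ := exists_lab i1
  have hpn : p + 1 ≤ n := hc.trans (by simpa using Fintype.card_le_of_injective f hf)
  obtain ⟨l', rfl⟩ := (Nat.dvd_factorial (Nat.succ_pos p) hpn).trans hd
  have col : ∀ w, ∃ a, R (f a) (g w) ≠ 0 := fun w => by
    obtain ⟨w', h⟩ := i2.inn_pow ((p + 1) * l') w
    rw [← zpw_ne, ← z4] at h
    obtain ⟨a, -, h1⟩ := exists_of_mul_ne_zero h
    exact ⟨a, h1⟩
  have row : ∀ w, ∃ a, S (g w) (f a) ≠ 0 := fun w => by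
    obtain ⟨w', h⟩ := i2.out_pow ((p + 1) * l') w
    rw [← zpw_ne, ← z4] at h
    obtain ⟨a, h1, -⟩ := exists_of_mul_ne_zero h
    exact ⟨a, h1⟩
  choose ch hch using col
  have key : ∀ (i : ℕ) a b w w', R (f a) (g w) ≠ 0 → (B ^ i) (g w) (g w') ≠ 0 →
      S (g w') (f b) ≠ 0 → lab b = lab a + i := by
    intro i a b w w' h1 h2 h3
    have h4 : ((A.submatrix f f) ^ ((p + 1) * l' + i)) a b ≠ 0 := by
      rw [← s1]; exact Pat.left hp h1 h2 h3
    simpa using lab_pow hA h4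
  have hS : ∀ w b, S (g w) (f b) ≠ 0 → lab b = lab (ch w) := fun w b h => by
    simpa using key 0 _ b w w (hch w) (pw_zero _ _) h
  have hR : ∀ a w, R (f a) (g w) ≠ 0 → lab (ch w) = lab a := fun a w h => by
    obtain ⟨b, hb⟩ := row w
    rw [← hS w b hb]
    simpa using key 0 a b w w h (pw_zero _ _) hb
  have hB : ∀ w w', B.submatrix g g w w' ≠ 0 → lab (ch w') = lab (ch w) + 1 := fun w w' h => by
    obtain ⟨b, hb⟩ := row w'
    rw [← hS w' b hb]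
    simpa using key 1 _ b w w' (hch w) (pw_one h) hb
  let f' : Fin (Fintype.card {a // lab a = 0}) → K := fun i => ((Fintype.equivFin _).symm i).1
  let g' : Fin (Fintype.card {w // lab (ch w) = 0}) → K' := fun i => ((Fintype.equivFin _).symm i).1
  have hf' : Function.Injective f' := Subtype.val_injective.comp (Equiv.injective _)
  have hg' : Function.Injective g' := Subtype.val_injective.comp (Equiv.injective _)
  have r1 : ∀ a, lab a = 0 ↔ ∃ i, f' i = a := fun a =>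
    ⟨fun h => ⟨Fintype.equivFin _ ⟨a, h⟩, by simp [f']⟩,
      fun ⟨i, h⟩ => h ▸ ((Fintype.equivFin _).symm i).2⟩
  have r2 : ∀ a, lab (ch a) = 0 ↔ ∃ i, g' i = a := fun a =>
    ⟨fun h => ⟨Fintype.equivFin _ ⟨a, h⟩, by simp [g']⟩,
      fun ⟨i, h⟩ => h ▸ ((Fintype.equivFin _).symm i).2⟩
  refine tower hA hB hR hf' hg' r1 r2 z1 ?_
  rw [← s1, ← s2]
  have m1 : ∀ a b, (A ^ (p + 1)) a b ≠ 0 →
      (if x a < c then 0 else if ∃ i, (f ∘ f') i = a then 1 else 2) ≤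
        (if x b < c then 0 else if ∃ i, (f ∘ f') i = b then 1 else 2) := by
    refine fun a b h => lev3 (lev_pow l1 h) (fun ⟨i, hi⟩ => (e1 _).2 ⟨_, hi⟩) ?_
    rintro ha ⟨i, rfl⟩
    obtain ⟨a, rfl⟩ := (e1 _).1 ha
    have h1 : ((A.submatrix f f) ^ (p + 1)) a (f' i) ≠ 0 := by rw [← s1]; exact h
    have h2 := lab_pow hA h1
    rw [(r1 _).2 ⟨i, rfl⟩, ZMod.natCast_self, add_zero] at h2
    obtain ⟨j, rfl⟩ := (r1 a).1 h2.symm
    exact ⟨j, rfl⟩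
  have m2 : ∀ a b, (B ^ (p + 1)) a b ≠ 0 →
      (if y a < c then 0 else if ∃ i, (g ∘ g') i = a then 1 else 2) ≤
        (if y b < c then 0 else if ∃ i, (g ∘ g') i = b then 1 else 2) := by
    refine fun a b h => lev3 (lev_pow l2 h) (fun ⟨i, hi⟩ => (e2 _).2 ⟨_, hi⟩) ?_
    rintro ha ⟨i, rfl⟩
    obtain ⟨a, rfl⟩ := (e2 _).1 ha
    have h1 : ((B.submatrix g g) ^ (p + 1)) a (g' i) ≠ 0 := by rw [← s2]; exact h
    have h2 := lab_pow (lab := fun w => lab (ch w)) hB h1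
    rw [(r2 _).2 ⟨i, rfl⟩, ZMod.natCast_self, add_zero] at h2
    obtain ⟨j, rfl⟩ := (r2 a).1 h2.symm
    exact ⟨j, rfl⟩
  have t1 : ∀ a, (if x a < c then 0 else if ∃ i, (f ∘ f') i = a then 1 else 2) = 1 ↔
      ∃ i, (f ∘ f') i = a := fun a => by
    split_ifs with h1 h2
    · exact ⟨fun h => absurd h (by decide), fun ⟨i, hi⟩ => by
        have := (e1 _).2 ⟨_, hi⟩
        omega⟩
    · exact ⟨fun _ => h2, fun _ => rfl⟩
    · exact ⟨fun h => absurd h (by decide), fun h => absurd h h2⟩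
  have t2 : ∀ a, (if y a < c then 0 else if ∃ i, (g ∘ g') i = a then 1 else 2) = 1 ↔
      ∃ i, (g ∘ g') i = a := fun a => by
    split_ifs with h1 h2
    · exact ⟨fun h => absurd h (by decide), fun ⟨i, hi⟩ => by
        have := (e2 _).2 ⟨_, hi⟩
        omega⟩
    · exact ⟨fun _ => h2, fun _ => rfl⟩
    · exact ⟨fun h => absurd h (by decide), fun h => absurd h h2⟩
  obtain ⟨w0, hw0⟩ : ∃ w, lab (ch w) = 0 := by
    obtain ⟨b, h⟩ := i1.out_pow ((p + 1) * l') u0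
    rw [← zpw_ne, ← z3] at h
    obtain ⟨w, h1, -⟩ := exists_of_mul_ne_zero h
    exact ⟨w, (hR u0 w h1).trans hu0⟩
  refine hblk (p + 1) _ _ (f ∘ f') (g ∘ g') (by omega) hpn
    (Fintype.card_pos_iff.2 ⟨⟨u0, hu0⟩⟩) (Fintype.card_pos_iff.2 ⟨⟨w0, hw0⟩⟩)
    ⟨hf.comp hf', hg.comp hg', ⟨N + 1, by omega, fun i j => ?_⟩,
      ⟨l' + (N + 1), by omega, fun i j => ?_⟩, _, _, 1, ⟨m1, m2, fun a b h => ?_, fun a b h => ?_⟩,
      t1, t2⟩
  · rw [← sub_pow_lev m1 (hf.comp hf') t1, ← pow_mul]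
    exact Nat.pos_of_ne_zero (sub_pow_ne (f := f) (hex _ _ (((r1 _).2 ⟨i, rfl⟩).trans
      ((r1 _).2 ⟨j, rfl⟩).symm)))
  · rw [← sub_pow_lev m2 (hg.comp hg') t2, ← pow_mul, mul_add]
    obtain ⟨b, hb⟩ := row (g' i)
    refine Nat.pos_of_ne_zero (Pat.right hp hb (sub_pow_ne (hex b _ ?_)) (hch (g' j)))
    rw [hS _ b hb, (r2 _).2 ⟨i, rfl⟩, (r2 _).2 ⟨j, rfl⟩]
  · refine lev3 (l3 a b h) (fun ⟨i, hi⟩ => (e2 _).2 ⟨_, hi⟩) ?_
    rintro ha ⟨i, rfl⟩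
    obtain ⟨a, rfl⟩ := (e1 _).1 ha
    obtain ⟨j, rfl⟩ := (r1 a).1 ((hR a _ h).symm.trans ((r2 _).2 ⟨i, rfl⟩))
    exact ⟨j, rfl⟩
  · refine lev3 (l4 a b h) (fun ⟨i, hi⟩ => (e1 _).2 ⟨_, hi⟩) ?_
    rintro ha ⟨i, rfl⟩
    obtain ⟨a, rfl⟩ := (e2 _).1 ha
    obtain ⟨j, rfl⟩ := (r2 a).1 ((hS a _ h).symm.trans ((r1 _).2 ⟨i, rfl⟩))
    exact ⟨j, rfl⟩

end Pool.Agent.MP_993212_an.H18
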