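import Pool.Agent.MP_993212_an.H18.WPer

/-! Two consequences: positive matrices of size at least two, and the matrices of size one. -/

namespace Pool.Agent.MP_993212_an.H18

open Matrix

/-- one elementary equivalence -/
abbrev El (X Y : Σ n : ℕ, Matrix (Fin n) (Fin n) ℕ) : Prop :=
  ∃ R : Matrix (Fin X.1) (Fin Y.1) ℕ, ∃ S : Matrix (Fin Y.1) (Fin X.1) ℕ, X.2 = R * S ∧ Y.2 = S * R

theorem sse_all {n m : ℕ} {A : Matrix (Fin n) (Fin n) ℕ} {B : Matrix (Fin m) (Fin m) ℕ}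
    (hA : AllPer A) {l : ℕ} {R : Matrix (Fin n) (Fin m) ℕ} {S : Matrix (Fin m) (Fin n) ℕ}
    (hl : 1 ≤ l) (h1 : A ^ l = R * S) (h2 : B ^ l = S * R) (h3 : A * R = R * B)
    (h4 : S * A = B * S) : Relation.TransGen El ⟨n, A⟩ ⟨m, B⟩ := by
  obtain ⟨T, c, -⟩ := real_all hA hl h1 h2 h3 h4
  have : ∀ X Y : Σ k : ℕ, Matrix (Fin k) (Fin k) ℕ × Matrix (Fin n) (Fin k) ℕ, Relation.TransGen
      (fun X Y : Σ k : ℕ, Matrix (Fin k) (Fin k) ℕ × Matrix (Fin n) (Fin k) ℕ =>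
        ∃ (R' : Matrix (Fin X.1) (Fin Y.1) ℕ) (S' : Matrix (Fin Y.1) (Fin X.1) ℕ),
        X.2.1 = R' * S' ∧ Y.2.1 = S' * R' ∧ Y.2.2 = X.2.2 * R') X Y →
      Relation.TransGen El ⟨X.1, X.2.1⟩ ⟨Y.1, Y.2.1⟩ := fun X Y h => by
    induction h with
    | single h => obtain ⟨R', S', a, b, -⟩ := h; exact .single ⟨R', S', a, b⟩
    | tail _ h ih => obtain ⟨R', S', a, b, -⟩ := h; exact ih.tail ⟨R', S', a, b⟩
  simpa using this _ _ (ch_fin c m (Equiv.refl _))

theorem gcd_one {n : ℕ} {A : Matrix (Fin n) (Fin n) ℕ} {u : Fin n} (h : 0 < A u u) :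
    Nat.setGcd {j : ℕ | 0 < (A ^ j) u u} = 1 :=
  Nat.dvd_one.1 (Nat.setGcd_dvd_of_mem (by simpa using h))

theorem ind_per {α : Type} {a b : α} (hab : a ≠ b) {k : ℕ} (j : ℤ) :
    (∀ i : ℤ, (if (k : ℤ) ∣ i + j then a else b) = if (k : ℤ) ∣ i then a else b) ↔ (k : ℤ) ∣ j := by
  refine ⟨fun h => ?_, fun h i => by simp only [dvd_add_left h]⟩
  by_contra c
  simpa [c, hab.symm] using h 0

theorem allPer_pos {n : ℕ} {A : Matrix (Fin (n + 2)) (Fin (n + 2)) ℕ} (h : ∀ u v, 0 < A u v) :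
    AllPer A := fun u => .inr fun k _ =>
  ⟨fun i => if (k : ℤ) ∣ i then 0 else 1, fun _ => 0, fun _ => h _ _,
    ⟨1, 1, by simpa using h _ _, by simpa using h _ _⟩, fun j => by
      simpa only [and_true, gcd_one (h u u), mul_one] using ind_per zero_ne_one j⟩

theorem allPer_one (A : Matrix (Fin 1) (Fin 1) ℕ) : AllPer A := fun u => by
  rcases le_or_gt (A u u) 1 with h | h
  · refine .inl fun j => ?_
    induction j with
    | zero => simp
    | succ j ih =>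
      rw [pow_succ, mul_apply, Fintype.sum_subsingleton _ u]
      exact mul_le_one₀ ih (Nat.zero_le _) h
  · refine .inr fun k _ => ⟨fun _ => u, fun i => if (k : ℤ) ∣ i then 0 else 1, fun i => ?_,
      ⟨0, 0, by simp, by simp⟩, fun j => ?_⟩
    · dsimp only
      split_ifs <;> omega
    · simpa only [true_and, gcd_one (show 0 < A u u by omega), mul_one] using ind_per zero_ne_one j

/-- the pair named in the problem file -/
theorem baker : Relation.TransGen El ⟨2, !![1, 4; 3, 1]⟩ ⟨2, !![1, 12; 1, 1]⟩ :=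
  sse_all (allPer_pos (by decide)) (l := 5) (R := !![1, 4; 1, 3]) (S := !![705, 136; 34, 235])
    (by norm_num) (by decide) (by decide) (by decide) (by decide)

/-- a matrix shift equivalent to a matrix of size one is strong shift equivalent to it -/
theorem little {m : ℕ} (A : Matrix (Fin 1) (Fin 1) ℕ) {B : Matrix (Fin m) (Fin m) ℕ} {l : ℕ}
    {R : Matrix (Fin 1) (Fin m) ℕ} {S : Matrix (Fin m) (Fin 1) ℕ} (hl : 1 ≤ l)
    (h1 : A ^ l = R * S) (h2 : B ^ l = S * R) (h3 : A * R = R * B) (h4 : S * A = B * S) :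
    Relation.TransGen El ⟨1, A⟩ ⟨m, B⟩ := sse_all (allPer_one A) hl h1 h2 h3 h4

end Pool.Agent.MP_993212_an.H18
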