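import Pool.Agent.MP_993212_an.H16.Defs
import Pool.Agent.MP_993212_an.H18.PF

set_option linter.unusedSectionVars false

namespace Pool.Agent.MP_993212_an.H18

open Matrix H16

variable {U U' V W W' : Type} [Fintype U] [Fintype U'] [Fintype V] [Fintype W] [Fintype W']
  [DecidableEq U] [DecidableEq U'] [DecidableEq V] [DecidableEq W] [DecidableEq W']

/-! ### supports of powers -/

theorem pw_add {A : Matrix V V ℕ} {i j : ℕ} {a b c : V} (h1 : (A ^ i) a b ≠ 0)
    (h2 : (A ^ j) b c ≠ 0) : (A ^ (i + j)) a c ≠ 0 := by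
  rw [pow_add]; exact mul_ne_zero_of h1 h2

theorem pw_split {A : Matrix V V ℕ} {i j : ℕ} {a c : V} (h : (A ^ (i + j)) a c ≠ 0) :
    ∃ b, (A ^ i) a b ≠ 0 ∧ (A ^ j) b c ≠ 0 := by
  rw [pow_add] at h; exact exists_of_mul_ne_zero h

theorem pw_zero (A : Matrix V V ℕ) (a : V) : (A ^ 0) a a ≠ 0 := by simp

theorem pw_zero_eq {A : Matrix V V ℕ} {a b : V} (h : (A ^ 0) a b ≠ 0) : a = b := by
  by_contra hne
  simp [Matrix.one_apply_ne hne] at h

theorem pw_one {A : Matrix V V ℕ} {a b : V} (h : A a b ≠ 0) : (A ^ 1) a b ≠ 0 := by simpa using h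

theorem pw_cyc {A : Matrix V V ℕ} {c : ℕ} {a : V} (h : (A ^ c) a a ≠ 0) (k : ℕ) :
    (A ^ (c * k)) a a ≠ 0 := by
  induction k with
  | zero => simp
  | succ k ih => rw [Nat.mul_succ]; exact pw_add ih h

/-- irreducible, with a cycle through every vertex -/
def Irr (A : Matrix V V ℕ) : Prop := ∀ a b, ∃ k, (A ^ (k + 1)) a b ≠ 0

theorem Irr.out {A : Matrix V V ℕ} (h : Irr A) (a : V) : ∃ b, A a b ≠ 0 := by
  obtain ⟨k, hk⟩ := h a a
  rw [add_comm] at hk
  obtain ⟨b, hb, -⟩ := pw_split hk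
  exact ⟨b, by simpa using hb⟩

theorem Irr.inn {A : Matrix V V ℕ} (h : Irr A) (b : V) : ∃ a, A a b ≠ 0 := by
  obtain ⟨k, hk⟩ := h b b
  obtain ⟨a, -, ha⟩ := pw_split hk
  exact ⟨a, by simpa using ha⟩

theorem Irr.out_pow {A : Matrix V V ℕ} (h : Irr A) (k : ℕ) (a : V) : ∃ b, (A ^ k) a b ≠ 0 := by
  induction k with
  | zero => exact ⟨a, pw_zero A a⟩
  | succ k ih =>
    obtain ⟨b, hb⟩ := ih
    obtain ⟨c, hc⟩ := h.out b
    exact ⟨c, pw_add hb (pw_one hc)⟩

theorem Irr.inn_pow {A : Matrix V V ℕ} (h : Irr A) (k : ℕ) (b : V) : ∃ a, (A ^ k) a b ≠ 0 := by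
  induction k with
  | zero => exact ⟨b, pw_zero A b⟩
  | succ k ih =>
    obtain ⟨a, ha⟩ := ih
    obtain ⟨c, hc⟩ := h.inn a
    exact ⟨c, by rw [add_comm]; exact pw_add (pw_one hc) ha⟩

theorem Irr.transpose {A : Matrix V V ℕ} (h : Irr A) : Irr Aᵀ := by
  intro a b
  obtain ⟨k, hk⟩ := h b a
  exact ⟨k, by rw [← Matrix.transpose_pow]; exact hk⟩

/-- a return path whose length completes `i` to a positive multiple of `L` -/
theorem pw_return {A : Matrix V V ℕ} {i j : ℕ} {a b : V} (h1 : (A ^ i) a b ≠ 0)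
    (h2 : (A ^ (j + 1)) b a ≠ 0) {L : ℕ} (hL : 1 ≤ L) :
    ∃ r k, (A ^ (r + 1)) b a ≠ 0 ∧ i + (r + 1) = L * (k + 1) := by
  obtain ⟨L, rfl⟩ : ∃ M, L = M + 1 := ⟨L - 1, by omega⟩
  refine ⟨(j + 1 + i) * L + j, i + j, ?_, by ring⟩
  rw [add_assoc]
  exact pw_add (pw_cyc (pw_add h2 h1) L) h2

/-- the support of `A ^ L` is idempotent -/
def Idem (A : Matrix V V ℕ) (L : ℕ) : Prop :=
  1 ≤ L ∧ ∀ k a b, (A ^ (L * (k + 1))) a b ≠ 0 ↔ (A ^ L) a b ≠ 0

theorem exists_idem (A : Matrix V V ℕ) : ∃ L, ∀ m, Idem A (L * (m + 1)) := by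
  obtain ⟨i, j, hij, h⟩ := Finite.exists_ne_map_eq_of_infinite
    (fun n : ℕ => {p : V × V | (A ^ n) p.1 p.2 ≠ 0})
  wlog hlt : i < j generalizing i j
  · exact this j i hij.symm h.symm (by omega)
  obtain ⟨d, rfl⟩ : ∃ d, j = i + (d + 1) := ⟨j - i - 1, by omega⟩
  have h0 : ∀ a b, (A ^ i) a b ≠ 0 ↔ (A ^ (i + (d + 1))) a b ≠ 0 := fun a b =>
    Set.ext_iff.1 h (a, b)
  have h1 : ∀ k a b, (A ^ (i + k)) a b ≠ 0 ↔ (A ^ (i + k + (d + 1))) a b ≠ 0 := by
    intro k a b
    rw [show i + k + (d + 1) = i + (d + 1) + k by ring]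
    constructor
    · intro h
      obtain ⟨c, h1, h2⟩ := pw_split h
      exact pw_add ((h0 _ _).1 h1) h2
    · intro h
      obtain ⟨c, h1, h2⟩ := pw_split h
      exact pw_add ((h0 _ _).2 h1) h2
  have h2 : ∀ t k a b, (A ^ (i + k + (d + 1) * t)) a b ≠ 0 ↔ (A ^ (i + k)) a b ≠ 0 := by
    intro t
    induction t with
    | zero => simp
    | succ t ih =>
      intro k a b
      rw [show i + k + (d + 1) * (t + 1) = i + (k + (d + 1) * t) + (d + 1) by ring, ← h1,
        ← add_assoc, ih]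
  refine ⟨(d + 1) * (i + 1), fun m => ⟨Nat.succ_le_of_lt (by positivity), fun k a b => ?_⟩⟩
  obtain ⟨e, he⟩ : ∃ e, (d + 1) * (i + 1) * (m + 1) = i + e :=
    ⟨d * (i + 1) * (m + 1) + (i + 1) * m + 1, by ring⟩
  have e2 : (d + 1) * (i + 1) * (m + 1) * (k + 1) =
      (d + 1) * (i + 1) * (m + 1) + (d + 1) * ((i + 1) * (m + 1) * k) := by ring
  rw [e2, he, h2]

theorem exists_idem2 (A : Matrix V V ℕ) (B : Matrix W W ℕ) : ∃ L, Idem A L ∧ Idem B L := by
  obtain ⟨L, h⟩ := exists_idem A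
  obtain ⟨L', h'⟩ := exists_idem B
  have h1 : 1 ≤ L := by have := (h 0).1; omega
  have h2 : 1 ≤ L' := by have := (h' 0).1; omega
  refine ⟨L * L', ?_, ?_⟩
  · simpa [Nat.sub_add_cancel h2] using h (L' - 1)
  · simpa [Nat.sub_add_cancel h1, mul_comm] using h' (L - 1)

theorem Idem.of_mul {A : Matrix V V ℕ} {L : ℕ} (h : Idem A L) {k n : ℕ} {a b : V}
    (h1 : (A ^ n) a b ≠ 0) (e : n = L * (k + 1)) : (A ^ L) a b ≠ 0 := (h.2 k a b).1 (e ▸ h1)

theorem Idem.trans {A : Matrix V V ℕ} {L : ℕ} (h : Idem A L) {a b c : V}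
    (h1 : (A ^ L) a b ≠ 0) (h2 : (A ^ L) b c ≠ 0) : (A ^ L) a c ≠ 0 :=
  h.of_mul (k := 1) (pw_add h1 h2) (by ring)

theorem Idem.refl {A : Matrix V V ℕ} {L : ℕ} (h : Idem A L) {c : ℕ} {a : V}
    (h1 : (A ^ (c + 1)) a a ≠ 0) : (A ^ L) a a ≠ 0 :=
  h.of_mul (k := c) (pw_cyc h1 L) (by ring)

theorem Idem.symm {A : Matrix V V ℕ} {L : ℕ} (h : Idem A L) (hA : Irr A) {a b : V}
    (h1 : (A ^ L) a b ≠ 0) : (A ^ L) b a ≠ 0 := by
  obtain ⟨j, hj⟩ := hA b a
  obtain ⟨r, k, h2, e⟩ := pw_return h1 hj h.1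
  cases k with
  | zero => omega
  | succ k => exact h.of_mul (k := k) h2 (by rw [Nat.mul_succ L (k + 1)] at e; omega)

theorem Idem.refl' {A : Matrix V V ℕ} {L : ℕ} (h : Idem A L) (hA : Irr A) (a : V) :
    (A ^ L) a a ≠ 0 := let ⟨_, hk⟩ := hA a a; h.refl hk

/-- equally long paths start in one class exactly when they end in one class -/
theorem Idem.shift {A : Matrix V V ℕ} {L : ℕ} (h : Idem A L) (hA : Irr A) {k : ℕ} {a b a' b' : V}
    (h1 : (A ^ k) a a' ≠ 0) (h2 : (A ^ k) b b' ≠ 0) : (A ^ L) a b ≠ 0 ↔ (A ^ L) a' b' ≠ 0 := by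
  constructor
  · intro h3
    obtain ⟨j, hj⟩ := hA a' a
    obtain ⟨r, m, h4, e⟩ := pw_return h1 hj h.1
    exact h.of_mul (k := m + 1) (pw_add (pw_add h4 h3) h2) (by rw [Nat.mul_succ L (m + 1)]; omega)
  · intro h3
    obtain ⟨j, hj⟩ := hA b' b
    obtain ⟨r, m, h4, e⟩ := pw_return h2 hj h.1
    exact h.of_mul (k := m + 1) (pw_add (pw_add h1 h3) h4) (by rw [Nat.mul_succ L (m + 1)]; omega)

theorem Idem.transpose {A : Matrix V V ℕ} {L : ℕ} (h : Idem A L) : Idem Aᵀ L :=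
  ⟨h.1, fun k a b => by
    rw [← Matrix.transpose_pow, ← Matrix.transpose_pow]; exact h.2 k b a⟩

/-! ### submatrices -/

theorem sub_mul {α : Type} [Semiring α] {K K' K'' : Type} [Fintype K'] (M : Matrix U V α)
    (N : Matrix V W α) (f : K → U) {g : K' → V} (hg : Function.Injective g) (h : K'' → W)
    (hc : ∀ i k v, M (f i) v ≠ 0 → N v (h k) ≠ 0 → ∃ j, g j = v) :
    (M * N).submatrix f h = M.submatrix f g * N.submatrix g h := by
  ext i k
  simp only [Matrix.submatrix_apply, Matrix.mul_apply]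
  symm
  refine Finset.sum_bij_ne_zero (fun j _ _ => g j) (fun _ _ _ => Finset.mem_univ _)
    (fun _ _ _ _ _ _ e => hg e) (fun v _ hv => ?_) (fun _ _ _ => rfl)
  obtain ⟨j, rfl⟩ := hc i k v (left_ne_zero_of_mul hv) (right_ne_zero_of_mul hv)
  exact ⟨j, Finset.mem_univ j, hv, rfl⟩

theorem sub_pow {K : Type} [Fintype K] [DecidableEq K] (A : Matrix V V ℕ) {f : K → V}
    (hf : Function.Injective f)
    (hc : ∀ n i k v, (A ^ n) (f i) v ≠ 0 → A v (f k) ≠ 0 → ∃ j, f j = v) (n : ℕ) :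
    (A ^ n).submatrix f f = (A.submatrix f f) ^ n := by
  induction n with
  | zero => simp [Matrix.submatrix_one _ hf]
  | succ n ih => rw [pow_succ, pow_succ, sub_mul _ _ f hf f (hc n), ih]

theorem sub_pow_ne {K : Type} [Fintype K] [DecidableEq K] {A : Matrix V V ℕ} {f : K → V}
    {n : ℕ} {i j : K} (h : ((A.submatrix f f) ^ n) i j ≠ 0) :
    (A ^ n) (f i) (f j) ≠ 0 := by
  induction n generalizing j with
  | zero => rw [pw_zero_eq h]; exact pw_zero _ _
  | succ n ih =>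
    obtain ⟨b, h1, h2⟩ := pw_split h
    exact pw_add (ih h1) (pw_one (by simpa using h2))

theorem zz_sub {K K' m n : Type} (A : Matrix m n ℕ) (f : K → m) (g : K' → n) :
    zz (A.submatrix f g) = (zz A).submatrix f g := rfl

theorem zz_ne {m n : Type} {A : Matrix m n ℕ} {i : m} {j : n} : zz A i j ≠ 0 ↔ A i j ≠ 0 := by
  simp [zz_apply]

theorem zz_add {m n : Type} (A B : Matrix m n ℕ) : zz (A + B) = zz A + zz B := by
  ext i j; simp [zz_apply]

theorem zz_zero {m n : Type} : zz (0 : Matrix m n ℕ) = 0 := by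
  ext i j; simp [zz_apply]

theorem zz_blocks {a b c d : Type} (A : Matrix a c ℕ) (B : Matrix a d ℕ) (C : Matrix b c ℕ)
    (D : Matrix b d ℕ) : zz (fromBlocks A B C D) = fromBlocks (zz A) (zz B) (zz C) (zz D) := by
  ext (i | i) (j | j) <;> rfl

theorem ch_equiv (A : Matrix V V ℕ) (e : W ≃ V) :
    Ch A (A.submatrix e e) (A.submatrix id e) := by
  have := Ch.single (A.submatrix id e) ((1 : Matrix V V ℕ).submatrix e id)
  rwa [← Equiv.coe_refl, submatrix_mul_equiv, submatrix_mul_equiv, Matrix.mul_one,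
    Matrix.one_mul, Equiv.coe_refl, submatrix_id_id] at this

theorem ch_equiv' (A : Matrix V V ℕ) (e : W ≃ V) :
    Ch (A.submatrix e e) A ((1 : Matrix V V ℕ).submatrix e id) := by
  have := Ch.single ((1 : Matrix V V ℕ).submatrix e id) (A.submatrix id e)
  rwa [← Equiv.coe_refl, submatrix_mul_equiv, submatrix_mul_equiv, Matrix.mul_one,
    Matrix.one_mul, Equiv.coe_refl, submatrix_id_id] at this

theorem real_reindex {A : Matrix V V ℕ} {B : Matrix W W ℕ} {R : Matrix V W ℤ} (h : Real A B R)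
    (e : U ≃ V) (e' : U' ≃ W) :
    Real (A.submatrix e e) (B.submatrix e' e') (R.submatrix e e') := by
  obtain ⟨T, h, a, b, hab⟩ := h
  refine ⟨_, ((ch_equiv' A e).trans h).trans (ch_equiv B e'), a + 1, b, ?_⟩
  have e1 : (1 : Matrix V V ℕ).submatrix e id * T * B.submatrix id e' =
      (A * T).submatrix e e' := by
    rw [h.inter]
    ext i j
    simp [Matrix.mul_apply, Matrix.one_apply]
  have p : ∀ k, zz (A.submatrix e e) ^ k = (zz A ^ k).submatrix e e := by
    intro k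
    rw [← zz_pow, ← sub_pow A e.injective (fun _ _ _ v _ _ => e.surjective v), zz_sub, zz_pow]
  rw [e1, p, p, zz_sub, submatrix_mul_equiv, submatrix_mul_equiv, zz_mul, pow_succ',
    Matrix.mul_assoc, hab, ← Matrix.mul_assoc, ← Matrix.mul_assoc, ← pow_succ, ← pow_succ']

theorem real_of_reindex {A : Matrix V V ℕ} {B : Matrix W W ℕ} {R : Matrix V W ℤ}
    (e : U ≃ V) (e' : U' ≃ W)
    (h : Real (A.submatrix e e) (B.submatrix e' e') (R.submatrix e e')) : Real A B R := by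
  simpa [Matrix.submatrix_submatrix] using real_reindex h e.symm e'.symm

/-- the realised block does not depend on the enumeration of its index sets -/
theorem real_range {K K' J J' : Type} [Fintype K] [Fintype K'] [Fintype J] [Fintype J']
    [DecidableEq K] [DecidableEq K'] [DecidableEq J] [DecidableEq J']
    {A : Matrix V V ℕ} {B : Matrix W W ℕ} {R : Matrix V W ℤ}
    {f : K → V} {g : K' → W} {f' : J → V} {g' : J' → W} (hf : Function.Injective f)
    (hg : Function.Injective g) (hf' : Function.Injective f') (hg' : Function.Injective g')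
    (e : Set.range f' = Set.range f) (e' : Set.range g' = Set.range g)
    (h : Real (A.submatrix f f) (B.submatrix g g) (R.submatrix f g)) :
    Real (A.submatrix f' f') (B.submatrix g' g') (R.submatrix f' g') := by
  let a : J ≃ K := (Equiv.ofInjective f' hf').trans
    ((Equiv.setCongr e).trans (Equiv.ofInjective f hf).symm)
  let b : J' ≃ K' := (Equiv.ofInjective g' hg').trans
    ((Equiv.setCongr e').trans (Equiv.ofInjective g hg).symm)
  have ha : f ∘ a = f' := by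
    funext j; simp [a, Equiv.apply_ofInjective_symm]
  have hb : g ∘ b = g' := by
    funext j; simp [b, Equiv.apply_ofInjective_symm]
  have := real_reindex h a b
  simpa only [Matrix.submatrix_submatrix, ha, hb] using this

theorem real_cancel {A : Matrix U U ℕ} {B : Matrix V V ℕ} {C : Matrix W W ℕ} {T : Matrix U V ℕ}
    {R : Matrix V W ℤ} (h1 : Ch A B T) (h2 : Real A C (zz T * R)) : Real B C R := by
  obtain ⟨T', n, h3, -, h4⟩ := h1.rev
  refine (h3.real.trans h2).of_eq (a := n) (b := 0) ?_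
  rw [pow_zero, Matrix.one_mul, ← Matrix.mul_assoc, ← zz_mul, h4, zz_pow]

theorem real_cancel' {A : Matrix U U ℕ} {B : Matrix V V ℕ} {C : Matrix W W ℕ} {T : Matrix V W ℕ}
    {R : Matrix U V ℤ} (h1 : Ch B C T) (h2 : Real A C (R * zz T)) (hR : zz A * R = R * zz B) :
    Real A B R := by
  obtain ⟨T', n, h3, h4, -⟩ := h1.rev
  refine (h2.trans h3.real).of_eq (a := n) (b := 0) ?_
  rw [pow_zero, Matrix.one_mul, Matrix.mul_assoc, ← zz_mul, h4, zz_pow, H12.pow_inter hR]

/-! ### lifting chains to block triangular matrices -/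

theorem lift_bot {D : Matrix V V ℕ} {D' : Matrix W W ℕ} {T : Matrix V W ℕ} (h : Ch D D' T)
    (P : Matrix U U ℕ) (X : Matrix U V ℕ) :
    Ch (fromBlocks P X 0 D) (fromBlocks P (X * T) 0 D') (fromBlocks 1 0 0 T) := by
  induction h with
  | refl => simpa using Ch.refl
  | @step W W' _ _ _ _ R S T _ ih =>
    have h1 : fromBlocks P (X * T) 0 (R * S) =
        fromBlocks (1 : Matrix U U ℕ) 0 0 R * fromBlocks P (X * T) 0 S := by
      simp [fromBlocks_multiply]
    rw [h1] at ih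
    have := Ch.step _ _ ih
    simpa [fromBlocks_multiply, Matrix.mul_assoc] using this

theorem lift_top {P : Matrix U U ℕ} {P' : Matrix V V ℕ} {T : Matrix U V ℕ} (h : Ch P P' T)
    (D : Matrix W W ℕ) (X : Matrix V W ℕ) :
    Ch (fromBlocks P (T * X) 0 D) (fromBlocks P' X 0 D) (fromBlocks T 0 0 1) := by
  induction h with
  | refl => simpa using Ch.refl
  | @step V V' _ _ _ _ R S T _ ih =>
    have ih := ih (R * X)
    have h1 : fromBlocks (R * S) (R * X) 0 D =
        fromBlocks R 0 0 (1 : Matrix W W ℕ) * fromBlocks S X 0 D := by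
      simp [fromBlocks_multiply]
    rw [h1] at ih
    have := Ch.step _ _ ih
    simpa [fromBlocks_multiply, Matrix.mul_assoc] using this

/-- every unit of the off-diagonal block is pushed backward or forward -/
theorem ch_move (P : Matrix U U ℕ) (D : Matrix W W ℕ) (F G : Matrix U W ℕ) :
    Ch (fromBlocks P (F + G) 0 D) (fromBlocks P (P * F + G * D) 0 D) (fromBlocks 1 F 0 D) := by
  have := Ch.single (fromBlocks (1 : Matrix U U ℕ) F 0 D) (fromBlocks P G 0 (1 : Matrix W W ℕ))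
  simpa [fromBlocks_multiply, add_comm] using this

/-- the unipotent matrix with corner `Z` is realised -/
def Phi (P : Matrix U U ℕ) (D : Matrix W W ℕ) (X Y : Matrix U W ℕ) (Z : Matrix U W ℤ) : Prop :=
  Real (fromBlocks P X 0 D) (fromBlocks P Y 0 D) (fromBlocks 1 Z 0 1)

/-- the intertwining equation -/
def Eqn (P : Matrix U U ℕ) (D : Matrix W W ℕ) (X Y : Matrix U W ℕ) (Z : Matrix U W ℤ) : Prop :=
  zz P * Z + zz X = zz Y + Z * zz D

theorem Eqn.step {P : Matrix U U ℕ} {D : Matrix W W ℕ} {F G F' G' : Matrix U W ℕ}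
    {Z : Matrix U W ℤ} (h : Eqn P D (F + G) (F' + G') Z) (H : Matrix U W ℕ) :
    Eqn P D (P * F + G * D + H) (P * F' + G' * D + H) (Z * zz D - zz F + zz F') := by
  unfold Eqn at h ⊢
  have h2 := congrArg (· * zz D) h
  simp only [zz_add, zz_mul, Matrix.mul_add, Matrix.mul_sub, Matrix.add_mul, Matrix.sub_mul,
    Matrix.mul_assoc] at h2 ⊢
  linear_combination (norm := abel) h2

theorem Phi.zero {P : Matrix U U ℕ} {D : Matrix W W ℕ} {X Y : Matrix U W ℕ}
    (h : Eqn P D X Y 0) : Phi P D X Y 0 := by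
  have : X = Y := zz_inj (by simpa [Eqn] using h)
  subst this
  unfold Phi
  rw [fromBlocks_one]
  exact Real.refl _

theorem Phi.step {P : Matrix U U ℕ} {D : Matrix W W ℕ} {F G F' G' : Matrix U W ℕ}
    {Z : Matrix U W ℤ} (h : Eqn P D (F + G) (F' + G') Z)
    (h2 : Phi P D (P * F + G * D) (P * F' + G' * D) (Z * zz D - zz F + zz F')) :
    Phi P D (F + G) (F' + G') Z := by
  refine real_cancel' (ch_move P D F' G') ?_ ?_
  · have := (ch_move P D F G).real.trans h2
    simpa [zz_blocks, zz_one, zz_zero, fromBlocks_multiply, add_comm, add_left_comm, add_assoc,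
      sub_eq_add_neg] using this
  · unfold Eqn at h
    simp only [zz_blocks, zz_zero, fromBlocks_multiply]
    simp [h]

end Pool.Agent.MP_993212_an.H18
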