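import Pool.Agent.MP_993212_an.H16.Spec4
import Pool.Agent.MP_993212_an.H16.POT

/-! The value of a unit delay of one loop. -/

namespace Pool.Agent.MP_993212_an.H18

open Matrix Polynomial Function H16

theorem dvalStmt (hB : Base) : DValStmt := by
  intro s _ _ dg i p hp h0 di
  obtain ⟨G₀, _, _, o₁, β, oV, ξ₀, i1, i2, hβ, H⟩ :=
    model hB (fun _ : Unit => i) (fun _ _ _ => rfl) h0
  let Q : Matrix Unit Unit ℤ[X] := diagonal fun _ => 1 - X ^ p
  have oQ : One Q := fun u v => by simp [Q, coeff_X_pow, show 0 ≠ p by omega]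
  have dQ : Dg (p + 1) Q := fun u v => (natDegree_sub_le _ _).trans (by simp)
  obtain ⟨G₁, _, _, ζ, hζ⟩ := hB.tr.pres_ex Unit Q
  obtain ⟨hζ', bj⟩ := hB.tr.pres_shift Unit G₁ Q ζ oQ hζ
  obtain ⟨q, hq, M⟩ := H G₁
  let κ : s → G₀ × G₁ := fun x => if x = i then (0, ζ ()) else (ξ₀ x, 0)
  have q1 : ∀ u v : Unit, diagonal dg i i = Q u v := fun u v => by simp [Q, di]
  obtain ⟨-, x1, e1⟩ := M (diagonal dg) κ Q ζ oQ hζ q1 (fun _ _ _ => rfl) (by simp [κ])
    fun x c => by simp [κ, (c ()).symm]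
  obtain ⟨-, -, e2⟩ := M (diagonal dg) (fun j => (X : ℤ[X]) ^ (Pi.single i 1 : s → ℕ) j • κ j) Q _
    oQ hζ' q1 (fun _ _ _ => rfl) (by simp [κ]) fun x c => by simp [κ, (c ()).symm]
  refine ⟨G₀ × G₁, inferInstance, inferInstance, o₁, κ, i1, x1, fun k => ?_⟩
  rw [pp_eq hB hq i2 hβ oQ dQ hζ, ppL] at e1
  rw [pp_eq hB hq i2 hβ oQ dQ hζ', ppL] at e2
  have x2 := hB.pres_lv oQ dQ hζ
  have x3 := hB.pres_lv oQ dQ hζ'
  have eA : lin (p + 1) (1 - Q) = linc (p + 1) fun d => if d = p then 1 else 0 := by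
    rw [lin_eq]
    congr 1
    funext d
    ext u v
    by_cases c' : d = p <;> simp [cof, Q, c', coeff_X_pow, one_apply]
  rw [eA] at e1 e2 x2 x3
  have r := congrFun (hq _ _ (rkL oV (p + 1)) (rkL oV (p + 1))
    (linc (p + 1) fun d => if d = p then 1 else 0) 1 (lv (p + 1) fun v => (X : ℤ[X]) • ζ v)
    (rkL_inj i2 _) (rkL_inj i2 _) (le_rkL' hβ) (le_rkL' hβ) (by rwa [one_mul])) k
  have c : pull (linc (p + 1) fun d => if d = p then 1 else 0)
      (lv (p + 1) fun v => (X : ℤ[X]) • ζ v) = lv (p + 1) ζ := funext fun u => bj.1 (by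
    simp only [x3.smul_pull, lv]
    exact smul_comm _ _ _)
  rw [one_mul, mul_one, c, ← e1, ← e2, fv, rotStmt p (p + 1) k oV hp (by omega), Pi.sub_apply] at r
  exact r.symm

end Pool.Agent.MP_993212_an.H18
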