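import Pool.Agent.MP_993212_an.H18.Base

set_option linter.unusedSectionVars false

namespace Pool.Agent.MP_993212_an.H18

open Matrix H16

variable {U W : Type} [Fintype U] [Fintype W] [DecidableEq U] [DecidableEq W]

/-- winning positions of the pushing game; an adversary may add the same units to both sides -/
inductive Win (P : Matrix U U ℕ) (D : Matrix W W ℕ) :
    Matrix U W ℕ → Matrix U W ℕ → Matrix U W ℤ → Prop
  | zero (X Y : Matrix U W ℕ) : Win P D X Y 0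
  | step (F G F' G' : Matrix U W ℕ) (Z : Matrix U W ℤ) :
      (∀ H, Win P D (P * F + G * D + H) (P * F' + G' * D + H) (Z * zz D - zz F + zz F')) →
      Win P D (F + G) (F' + G') Z

theorem zz_transpose {m n : Type} (A : Matrix m n ℕ) : zz Aᵀ = (zz A)ᵀ := rfl

theorem Eqn.transpose {P : Matrix U U ℕ} {D : Matrix W W ℕ} {X Y : Matrix U W ℕ}
    {Z : Matrix U W ℤ} (h : Eqn P D X Y Z) : Eqn Dᵀ Pᵀ Yᵀ Xᵀ Zᵀ := by
  unfold Eqn at h ⊢
  have := congrArg Matrix.transpose h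
  simp only [Matrix.transpose_add, Matrix.transpose_mul] at this
  simp only [zz_transpose]
  linear_combination (norm := abel) -this

theorem Win.transpose {P : Matrix U U ℕ} {D : Matrix W W ℕ} {X Y : Matrix U W ℕ}
    {Z : Matrix U W ℤ} (h : Win P D X Y Z) (he : Eqn P D X Y Z) : Win Dᵀ Pᵀ Yᵀ Xᵀ Zᵀ := by
  induction h with
  | zero X Y => exact Win.zero _ _
  | step F G F' G' Z _ ih =>
    rw [Matrix.transpose_add, Matrix.transpose_add, add_comm F'ᵀ, add_comm Fᵀ]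
    refine Win.step _ _ _ _ _ fun H => ?_
    have := ih Hᵀ (he.step Hᵀ)
    have e : Z * zz D - zz F + zz F' = zz P * Z - zz G' + zz G := by
      unfold Eqn at he
      simp only [zz_add] at he
      linear_combination (norm := abel) -he
    rw [e] at this
    simpa only [Matrix.transpose_add, Matrix.transpose_mul, Matrix.transpose_sub,
      Matrix.transpose_transpose, zz_transpose, add_comm (F'ᵀ * Pᵀ), add_comm (Fᵀ * Pᵀ)] using this

theorem Win.play {P : Matrix U U ℕ} {D : Matrix W W ℕ}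
    (I : ℕ → Matrix U W ℕ → Matrix U W ℕ → Matrix U W ℤ → Prop) (n : ℕ)
    (hs : ∀ k, k < n → ∀ X Y Z, I k X Y Z → ∃ F G F' G', X = F + G ∧ Y = F' + G' ∧ ∀ H,
      I (k + 1) (P * F + G * D + H) (P * F' + G' * D + H) (Z * zz D - zz F + zz F') ∨
      Win P D (P * F + G * D + H) (P * F' + G' * D + H) (Z * zz D - zz F + zz F'))
    (he : ∀ X Y Z, I n X Y Z → Win P D X Y Z) : ∀ X Y Z, I 0 X Y Z → Win P D X Y Z := by
  have : ∀ r k, k + r = n → ∀ X Y Z, I k X Y Z → Win P D X Y Z := by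
    intro r
    induction r with
    | zero => intro k hk; obtain rfl : k = n := by omega
              exact he
    | succ r ih =>
      intro k hk X Y Z h
      obtain ⟨F, G, F', G', rfl, rfl, h2⟩ := hs k (by omega) X Y Z h
      exact Win.step _ _ _ _ _ fun H => (h2 H).elim (ih (k + 1) (by omega) _ _ _) id
  exact this n 0 (by omega)

/-- a path from `u` to `w` through a unit of `X`, of length `k` modulo `L` -/
def Good (P : Matrix U U ℕ) (D : Matrix W W ℕ) (L k : ℕ) (X : Matrix U W ℕ) (u : U) (w : W) :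
    Prop :=
  ∃ i j u' w', (P ^ i) u u' ≠ 0 ∧ X u' w' ≠ 0 ∧ (D ^ j) w' w ≠ 0 ∧ i + j + 1 ≡ k [MOD L]

variable {P : Matrix U U ℕ} {D : Matrix W W ℕ} {L k : ℕ} {X Y : Matrix U W ℕ} {u : U} {w : W}

theorem Good.congr (h : Good P D L k X u w) {k' : ℕ} (e : k ≡ k' [MOD L]) :
    Good P D L k' X u w := by
  obtain ⟨i, j, u', w', h1, h2, h3, h4⟩ := h
  exact ⟨i, j, u', w', h1, h2, h3, h4.trans e⟩

theorem Good.fwd (h : Good P D L k X u w) {j : ℕ} {w' : W} (h' : (D ^ j) w w' ≠ 0) :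
    Good P D L (k + j) X u w' := by
  obtain ⟨i, j', u', w'', h1, h2, h3, h4⟩ := h
  refine ⟨i, j' + j, u', w'', h1, h2, pw_add h3 h', ?_⟩
  rw [show i + (j' + j) + 1 = i + j' + 1 + j by ring]
  exact h4.add_right j

theorem Good.bwd {u' : U} (h : Good P D L k X u' w) {i : ℕ} (h' : (P ^ i) u u' ≠ 0) :
    Good P D L (k + i) X u w := by
  obtain ⟨i', j, u'', w', h1, h2, h3, h4⟩ := h
  refine ⟨i + i', j, u'', w', pw_add h' h1, h2, h3, ?_⟩
  rw [show i + i' + j + 1 = i' + j + 1 + i by ring]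
  exact h4.add_right i

theorem Good.self (h : X u w ≠ 0) : Good P D L 1 X u w :=
  ⟨0, 0, u, w, pw_zero _ _, h, pw_zero _ _, Nat.ModEq.refl _⟩

theorem modEq_mul (k L m : ℕ) : k + L * m ≡ k [MOD L] := by
  unfold Nat.ModEq; simp

theorem Good.unfwd {j r : ℕ} {w' : W} (h : Good P D L (k + j) X u w') (hL : 1 ≤ L)
    (h1 : (D ^ j) w w' ≠ 0) (h2 : (D ^ (r + 1)) w' w ≠ 0) : Good P D L k X u w := by
  obtain ⟨r', m, h3, e⟩ := pw_return h1 h2 hL
  refine (h.fwd h3).congr ?_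
  rw [add_assoc, e]
  exact modEq_mul _ _ _

theorem Good.transpose (h : Good P D L k X u w) : Good Dᵀ Pᵀ L k Xᵀ w u := by
  obtain ⟨i, j, u', w', h1, h2, h3, h4⟩ := h
  refine ⟨j, i, w', u', ?_, h2, ?_, by rwa [add_comm j]⟩
  · rw [← Matrix.transpose_pow]; exact h3
  · rw [← Matrix.transpose_pow]; exact h1

theorem add_ne_left {A B : Matrix U W ℕ} (h : A u w ≠ 0) : (A + B) u w ≠ 0 := by
  rw [Matrix.add_apply]; omega

theorem add_ne_right {A B : Matrix U W ℕ} (h : B u w ≠ 0) : (A + B) u w ≠ 0 := by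
  rw [Matrix.add_apply]; omega

theorem Good.step {F G : Matrix U W ℕ} (hP : Irr P) (hL : 1 ≤ L) {c : ℕ}
    (hw : (D ^ (c + 1)) w w ≠ 0) (h : Good P D L (k + 1) (F + G) u w) (H : Matrix U W ℕ) :
    Good P D L k (P * F + G * D + H) u w := by
  obtain ⟨i, j, u', w', h1, h2, h3, h4⟩ := h
  obtain ⟨L, rfl⟩ : ∃ M, L = M + 1 := ⟨L - 1, by omega⟩
  rw [Matrix.add_apply] at h2
  by_cases hF : F u' w' = 0
  · have hG : G u' w' ≠ 0 := by omega
    have h5 := pw_add h3 (pw_cyc hw (L + 1))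
    rw [show j + (c + 1) * (L + 1) = 1 + (j + (c * (L + 1) + L)) by ring] at h5
    obtain ⟨w1, h6, h7⟩ := pw_split h5
    refine ⟨i, _, u', w1, h1, add_ne_left (add_ne_right (mul_ne_zero_of hG (by simpa using h6))),
      h7, ?_⟩
    refine Nat.ModEq.add_right_cancel' 1 (Nat.ModEq.trans ?_ h4)
    rw [show i + (j + (c * (L + 1) + L)) + 1 + 1 = i + j + 1 + (L + 1) * (c + 1) by ring]
    exact modEq_mul _ _ _
  · obtain ⟨d, hd⟩ := hP u u
    have h5 := pw_add (pw_cyc hd (L + 1)) h1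
    rw [show (d + 1) * (L + 1) + i = (d * (L + 1) + L + i) + 1 by ring] at h5
    obtain ⟨u1, h6, h7⟩ := pw_split h5
    refine ⟨_, j, u1, w', h6, add_ne_left (add_ne_left (mul_ne_zero_of (by simpa using h7) hF)),
      h3, ?_⟩
    refine Nat.ModEq.add_right_cancel' 1 (Nat.ModEq.trans ?_ h4)
    rw [show d * (L + 1) + L + i + j + 1 + 1 = i + j + 1 + (L + 1) * (d + 1) by ring]
    exact modEq_mul _ _ _

/-- the invariant of the game -/
def GInv (P : Matrix U U ℕ) (D : Matrix W W ℕ) (L : ℕ) (X Y : Matrix U W ℕ) (Z : Matrix U W ℤ) :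
    Prop :=
  Eqn P D X Y Z ∧ ∀ u w j w1 c, Z u w ≠ 0 → (D ^ (c + 1)) w1 w1 ≠ 0 → (D ^ j) w w1 ≠ 0 →
    Good P D L j X u w1 ∧ Good P D L j Y u w1

theorem GInv.step {F G F' G' : Matrix U W ℕ} {Z : Matrix U W ℤ} (hP : Irr P) (hL : 1 ≤ L)
    (h : GInv P D L (F + G) (F' + G') Z) (H : Matrix U W ℕ) :
    GInv P D L (P * F + G * D + H) (P * F' + G' * D + H) (Z * zz D - zz F + zz F') := by
  refine ⟨h.1.step H, fun u w j w1 c hZ hc hj => ?_⟩
  suffices hs : Good P D L (j + 1) (F + G) u w1 ∧ Good P D L (j + 1) (F' + G') u w1 from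
    ⟨hs.1.step hP hL hc H, hs.2.step hP hL hc H⟩
  have a1 : (Z * zz D) u w ≠ 0 →
      Good P D L (j + 1) (F + G) u w1 ∧ Good P D L (j + 1) (F' + G') u w1 := by
    intro h1
    obtain ⟨w0, h2, h3⟩ := exists_of_mul_ne_zero h1
    rw [add_comm j]
    exact h.2 u w0 _ w1 c h2 hc (pw_add (pw_one (zz_ne.1 h3)) hj)
  have a2 : (zz P * Z) u w ≠ 0 →
      Good P D L (j + 1) (F + G) u w1 ∧ Good P D L (j + 1) (F' + G') u w1 := by
    intro h1
    obtain ⟨u0, h2, h3⟩ := exists_of_mul_ne_zero h1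
    obtain ⟨g1, g2⟩ := h.2 u0 w _ w1 c h3 hc hj
    exact ⟨g1.bwd (pw_one (zz_ne.1 h2)), g2.bwd (pw_one (zz_ne.1 h2))⟩
  by_cases b1 : (Z * zz D) u w = 0
  swap
  · exact a1 b1
  by_cases b2 : (zz P * Z) u w = 0
  swap
  · exact a2 b2
  have e := congrFun (congrFun h.1 u) w
  rw [Matrix.add_apply, Matrix.add_apply (zz (F' + G')), b1, b2, zz_apply, zz_apply] at e
  rw [Matrix.add_apply, Matrix.sub_apply, b1, zz_apply, zz_apply] at hZ
  have e1 : (F + G) u w ≠ 0 ∧ (F' + G') u w ≠ 0 := by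
    simp only [Matrix.add_apply] at e ⊢
    omega
  rw [add_comm j]
  exact ⟨(Good.self e1.1).fwd hj, (Good.self e1.2).fwd hj⟩

theorem GInv.of_good {Z : Matrix U W ℤ} (he : Eqn P D X Y Z)
    (h : ∀ u w, Z u w ≠ 0 → Good P D L 0 X u w ∧ Good P D L 0 Y u w) : GInv P D L X Y Z :=
  ⟨he, fun u w j w1 _ hZ _ hj => by
    have := h u w hZ
    exact ⟨by simpa using this.1.fwd hj, by simpa using this.2.fwd hj⟩⟩

theorem GInv.good {Z : Matrix U W ℤ} (h : GInv P D L X Y Z) (hD : Irr D) (hZ : Z u w ≠ 0) :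
    Good P D L 0 X u w ∧ Good P D L 0 Y u w :=
  let ⟨c, hc⟩ := hD w w; h.2 u w 0 w c hZ hc (pw_zero _ _)

theorem Idem.adjust (h : Idem D L) (hD : Irr D) {a b : ℕ} {x y : W} (h1 : (D ^ a) x y ≠ 0)
    (e : a ≡ b [MOD L]) (hb : L ≤ b) : (D ^ b) x y ≠ 0 := by
  obtain ⟨r, rfl⟩ : ∃ r, b = r + L := ⟨b - L, by omega⟩
  have h2 := pw_add (pw_cyc (h.refl' hD x) (r + 1)) h1
  have h3 : r ≡ L * (r + 1) + a [MOD L] := by
    rw [add_comm (L * _)]
    refine Nat.ModEq.symm ((modEq_mul _ _ _).trans (e.trans ?_))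
    simp
  have hL := h.1
  obtain ⟨m, hm⟩ := (Nat.modEq_iff_dvd' (by nlinarith)).1 h3
  have h4 : L * (r + 1) + a = r + L * m := by
    have : r ≤ L * (r + 1) + a := by nlinarith
    omega
  cases m with
  | zero => exfalso; nlinarith
  | succ m =>
    rw [h4] at h2
    obtain ⟨z, h5, h6⟩ := pw_split h2
    exact pw_add h5 (h.of_mul h6 rfl)

end Pool.Agent.MP_993212_an.H18
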