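import Pool.Agent.MP_993212_an.H18.Pair

set_option linter.unusedSectionVars false

namespace Pool.Agent.MP_993212_an.H18

open Matrix H16

variable {U W : Type} [Fintype U] [Fintype W] [DecidableEq U] [DecidableEq W]
  {P : Matrix U U ℕ} {D : Matrix W W ℕ} {L : ℕ}

theorem push_one {X Y : Matrix U W ℕ} {Z : Matrix U W ℤ} (hP : Irr P) (hL : 1 ≤ L)
    (h : GInv P D L X Y Z) : GInv P D L (X * D) (Y * D) (Z * zz D) ∧
      (Phi P D (X * D) (Y * D) (Z * zz D) → Phi P D X Y Z) := by
  constructor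
  · simpa [zz_zero] using GInv.step (F := 0) (G := X) (F' := 0) (G' := Y) hP hL (by simpa using h) 0
  · intro h2
    simpa using Phi.step (P := P) (D := D) (F := 0) (G := X) (F' := 0) (G' := Y) (Z := Z)
      (by simpa using h.1) (by simpa [zz_zero] using h2)

theorem push_pow {X Y : Matrix U W ℕ} {Z : Matrix U W ℤ} (hP : Irr P) (hL : 1 ≤ L)
    (h : GInv P D L X Y Z) (m : ℕ) : GInv P D L (X * D ^ m) (Y * D ^ m) (Z * zz D ^ m) ∧
      (Phi P D (X * D ^ m) (Y * D ^ m) (Z * zz D ^ m) → Phi P D X Y Z) := by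
  induction m with
  | zero => simpa using h
  | succ m ih =>
    simp only [pow_succ, ← Matrix.mul_assoc]
    exact ⟨(push_one hP hL ih.1).1, fun h2 => ih.2 ((push_one hP hL ih.1).2 h2)⟩

/-- extension by zero -/
def ext0 (J : W → Prop) [DecidablePred J] (M : Matrix U {w // J w} ℕ) : Matrix U W ℕ :=
  fun u w => if h : J w then M u ⟨w, h⟩ else 0

/-- the columns outside `J` -/
def out0 (J : W → Prop) [DecidablePred J] (M : Matrix U W ℕ) : Matrix U W ℕ :=
  fun u w => if J w then 0 else M u w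

theorem sub_col {α : Type} [Semiring α] (J : W → Prop) [DecidablePred J] (M : Matrix U W α)
    (N : Matrix W W α) (h : ∀ i (k : {w // J w}) v, M i v ≠ 0 → N v k ≠ 0 → J v) :
    (M * N).submatrix id (Subtype.val : {w // J w} → W) =
      M.submatrix id (Subtype.val : {w // J w} → W) * N.submatrix Subtype.val Subtype.val :=
  sub_mul M N id Subtype.val_injective _ fun i k v h1 h2 => ⟨⟨v, h i k v h1 h2⟩, rfl⟩

theorem sub_left {α K : Type} [Semiring α] (M : Matrix U U α) (N : Matrix U W α) (g : K → W) :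
    (M * N).submatrix id g = M * N.submatrix id g := rfl

theorem sub_add {α a b c d : Type} [Add α] (M N : Matrix a b α) (f : c → a) (g : d → b) :
    (M + N).submatrix f g = M.submatrix f g + N.submatrix f g := rfl

theorem sub_sub {α a b c d : Type} [Sub α] (M N : Matrix a b α) (f : c → a) (g : d → b) :
    (M - N).submatrix f g = M.submatrix f g - N.submatrix f g := rfl

theorem transfer (hP : Irr P) (hL : 1 ≤ L) (C J : W → Prop) [DecidablePred J]
    (hC : ∀ a b, D a b ≠ 0 → C b → C a) (hJ : ∀ a b, D a b ≠ 0 → J b → C a ∨ J a)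
    (hCJ : ∀ w, J w → ¬ C w)
    (ih : ∀ X Y Z, GInv P D L X Y Z → (∀ u w, C w ∨ J w → Z u w = 0) → Phi P D X Y Z)
    {X' Y' : Matrix U {w // J w} ℕ} {Z' : Matrix U {w // J w} ℤ}
    (h : Win P (D.submatrix Subtype.val Subtype.val) X' Y' Z') :
    ∀ X Y Z, GInv P D L X Y Z → (∀ u w, C w → Z u w = 0) → X.submatrix id Subtype.val = X' →
      Y.submatrix id Subtype.val = Y' → Z.submatrix id Subtype.val = Z' → Phi P D X Y Z := by
  induction h with
  | zero X' Y' =>
    intro X Y Z h h0 _ _ e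
    exact ih X Y Z h fun u w hw => hw.elim (h0 u w) fun hw => congrFun (congrFun e u) ⟨w, hw⟩
  | step F G F' G' Z' _ ih2 =>
    intro X Y Z h h0 e1 e2 e3
    have dec : ∀ (X : Matrix U W ℕ) (F G : Matrix U {w // J w} ℕ),
        X.submatrix id Subtype.val = F + G → X = ext0 J F + (ext0 J G + out0 J X) := by
      intro X F G e
      ext u w
      simp only [Matrix.add_apply, ext0, out0]
      split_ifs with hw
      · simpa using congrFun (congrFun e u) ⟨w, hw⟩
      · simp
    have res : ∀ M : Matrix U {w // J w} ℕ, (ext0 J M).submatrix id Subtype.val = M := by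
      intro M
      ext u w
      simp [ext0, w.2]
    have new : ∀ (X : Matrix U W ℕ) (F G : Matrix U {w // J w} ℕ),
        (P * ext0 J F + (ext0 J G + out0 J X) * D).submatrix id Subtype.val =
          P * F + G * D.submatrix Subtype.val Subtype.val +
            (out0 J X * D).submatrix id (Subtype.val : {w // J w} → W) := by
      intro X F G
      rw [Matrix.add_mul, sub_add, sub_add, add_assoc, sub_left,
        sub_col J (ext0 J G) D (fun i k v h1 _ => by
          by_contra h2; exact h1 (by simp [ext0, h2])), res, res]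
    have ZC : ∀ u w, C w → (Z * zz D) u w = 0 := by
      intro u w hw
      by_contra h1
      obtain ⟨b, h2, h3⟩ := exists_of_mul_ne_zero h1
      exact h2 (h0 u b (hC b w (zz_ne.1 h3) hw))
    have XY : (out0 J X * D).submatrix id (Subtype.val : {w // J w} → W) =
        (out0 J Y * D).submatrix id Subtype.val := by
      ext u w
      refine Finset.sum_congr rfl fun b _ => ?_
      by_cases hb : D b w = 0
      · simp [hb]
      simp only [out0, id]
      split_ifs with h1
      · rfl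
      have hc : C b := (hJ b w hb w.2).resolve_right h1
      have e := congrFun (congrFun h.1 u) b
      have h2 : (zz P * Z) u b = 0 := Finset.sum_eq_zero fun a _ => by simp [h0 a b hc]
      rw [Matrix.add_apply, Matrix.add_apply (zz Y), h2, ZC u b hc, zz_apply, zz_apply] at e
      rw [show X u b = Y u b by omega]
    have d1 := dec X F G e1
    have d2 := dec Y F' G' e2
    have h' := h
    rw [d1, d2] at h' ⊢
    refine Phi.step h'.1 (ih2 _ _ _ _ (by simpa only [add_zero] using GInv.step hP hL h' 0)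
      (fun u w hw => ?_) (new X F G) (by rw [XY]; exact new Y F' G') ?_)
    · have : ¬ J w := fun h1 => hCJ w h1 hw
      simp [ZC u w hw, zz_apply, ext0, this]
    · rw [sub_add, sub_sub, ← zz_sub, ← zz_sub, res, res,
        sub_col J Z (zz D) (fun i k v h1 h2 =>
          (hJ v k (zz_ne.1 h2) k.2).resolve_left fun h3 => h1 (h0 _ _ h3)), e3]
      rfl

theorem closed_pow {C : W → Prop} (hC : ∀ a b, D a b ≠ 0 → C b → C a) {k : ℕ} {a b : W}
    (h : (D ^ k) a b ≠ 0) (hb : C b) : C a := by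
  induction k generalizing b with
  | zero => rw [pw_zero_eq h]; exact hb
  | succ k ih =>
    obtain ⟨c, h1, h2⟩ := pw_split h
    exact ih h1 (hC c b (by simpa using h2) hb)

/-- a minimal set of ancestors outside a closed set -/
theorem exists_top (D : Matrix W W ℕ) (C : W → Prop) (hne : ∃ w, ¬ C w) :
    ∃ w0, ¬ C w0 ∧ ∀ w, ¬ C w → (∃ k, (D ^ k) w w0 ≠ 0) → ∃ k, (D ^ k) w0 w ≠ 0 := by
  classical
  obtain ⟨w1, h1⟩ := hne
  obtain ⟨w0, h0, hm⟩ := Finset.exists_min_image (Finset.univ.filter fun w => ¬ C w)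
    (fun w => (Finset.univ.filter fun a => ∃ k, (D ^ k) a w ≠ 0).card) ⟨w1, by simpa using h1⟩
  refine ⟨w0, by simpa using h0, fun w hw ⟨k, hk⟩ => ?_⟩
  have := Finset.eq_of_subset_of_card_le (s := Finset.univ.filter fun a => ∃ k, (D ^ k) a w ≠ 0)
    (t := Finset.univ.filter fun a => ∃ k, (D ^ k) a w0 ≠ 0) (fun a ha => by
      obtain ⟨j, hj⟩ := (Finset.mem_filter.1 ha).2
      exact Finset.mem_filter.2 ⟨Finset.mem_univ _, _, pw_add hj hk⟩) (hm w (by simpa using hw))
  have h2 : w0 ∈ Finset.univ.filter fun a => ∃ k, (D ^ k) a w0 ≠ 0 :=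
    Finset.mem_filter.2 ⟨Finset.mem_univ _, 0, pw_zero _ _⟩
  rw [← this] at h2
  exact (Finset.mem_filter.1 h2).2

theorem phi_of_inv (hP : Irr P) (hLP : Idem P L) (hLD : Idem D L) {X Y : Matrix U W ℕ}
    {Z : Matrix U W ℤ} (h : GInv P D L X Y Z) : Phi P D X Y Z := by
  classical
  have hL := hLP.1
  suffices key : ∀ n (C : W → Prop), (Finset.univ.filter fun w => ¬ C w).card ≤ n →
      (∀ a b, D a b ≠ 0 → C b → C a) → ∀ X Y Z, GInv P D L X Y Z → (∀ u w, C w → Z u w = 0) →
      Phi P D X Y Z from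
    key _ (fun _ => False) le_rfl (fun _ _ _ h => h) X Y Z h fun _ _ h => h.elim
  have fin : ∀ C : W → Prop, (∀ w, C w) → ∀ X Y Z, GInv P D L X Y Z → (∀ u w, C w → Z u w = 0) →
      Phi P D X Y Z := by
    intro C hC X Y Z h h0
    obtain rfl : Z = 0 := by ext u w; exact h0 u w (hC w)
    exact Phi.zero h.1
  intro n
  induction n with
  | zero =>
    intro C hn _
    refine fin C fun w => ?_
    by_contra hw
    exact absurd (Finset.card_pos.2 ⟨w, by simpa using hw⟩) (not_lt.2 hn)
  | succ n ih =>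
    intro C hn hC X Y Z h h0
    by_cases hall : ∀ w, C w
    · exact fin C hall X Y Z h h0
    have less : ∀ (J : W → Prop) w0, ¬ C w0 → J w0 →
        (Finset.univ.filter fun w => ¬ (C w ∨ J w)).card ≤ n := by
      intro J w0 h1 h2
      refine Nat.le_of_lt_succ (lt_of_lt_of_le (Finset.card_lt_card ⟨fun w hw => ?_, fun hs => ?_⟩)
        hn)
      · simp only [Finset.mem_filter, Finset.mem_univ, true_and] at hw ⊢
        exact fun h => hw (Or.inl h)
      · have := hs (Finset.mem_filter.2 ⟨Finset.mem_univ w0, h1⟩)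
        exact (Finset.mem_filter.1 this).2 (Or.inr h2)
    by_cases src : ∃ w0, ¬ C w0 ∧ ∀ a, D a w0 ≠ 0 → C a
    · obtain ⟨w0, h1, h2⟩ := src
      have hc : ∀ a b, D a b ≠ 0 → C b ∨ b = w0 → C a := fun a b hab hb =>
        hb.elim (hC a b hab) fun e => h2 a (e ▸ hab)
      refine (push_one hP hL h).2 (ih (fun w => C w ∨ w = w0) (by
        simpa using less (· = w0) w0 h1 rfl) (fun a b hab hb => Or.inl (hc a b hab hb)) _ _ _
        (push_one hP hL h).1 fun u w hw => ?_)
      by_contra h3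
      obtain ⟨b, h4, h5⟩ := exists_of_mul_ne_zero h3
      exact h4 (h0 u b (hc b w (zz_ne.1 h5) hw))
    obtain ⟨w0, h1, h2⟩ := exists_top D C (not_forall.1 hall)
    let J : W → Prop := fun w => ¬ C w ∧ ∃ k, (D ^ k) w w0 ≠ 0
    have hJ : ∀ a b, D a b ≠ 0 → J b → C a ∨ J a := by
      rintro a b hab ⟨-, k, hk⟩
      by_cases ha : C a
      · exact Or.inl ha
      · exact Or.inr ⟨ha, _, pw_add (pw_one hab) hk⟩
    have sp : ∀ k, (D ^ k).submatrix (Subtype.val : {w // J w} → W) Subtype.val =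
        (D.submatrix Subtype.val Subtype.val) ^ k := fun k =>
      sub_pow D Subtype.val_injective (fun n a b v h3 h4 =>
        ⟨⟨v, (hJ v b h4 b.2).resolve_left fun h5 => a.2.1 (closed_pow hC h3 h5)⟩, rfl⟩) k
    have sp' : ∀ k (a b : {w // J w}),
        ((D.submatrix Subtype.val Subtype.val) ^ k) a b = (D ^ k) a b := fun k a b => by
      rw [← sp]; rfl
    have irr : Irr (D.submatrix (Subtype.val : {w // J w} → W) Subtype.val) := by
      rintro a b
      obtain ⟨b', h3, h4⟩ : ∃ b', D b' b ≠ 0 ∧ ¬ C b' := by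
        by_contra h5
        exact src ⟨b, b.2.1, fun c hc => by_contra fun h6 => h5 ⟨c, hc, h6⟩⟩
      obtain ⟨k, hk⟩ := a.2.2
      obtain ⟨k', hk'⟩ := h2 b' h4 ((hJ b' b h3 b.2).resolve_left h4).2
      exact ⟨k + k', by rw [sp']; exact pw_add (pw_add hk hk') (pw_one h3)⟩
    have idem : Idem (D.submatrix (Subtype.val : {w // J w} → W) Subtype.val) L :=
      ⟨hL, fun k a b => by rw [sp', sp']; exact hLD.2 k a b⟩
    have arrive : ∀ M : Matrix U W ℕ, ∃ N, ∀ m, N ≤ m → ∀ u (a b : {w // J w}),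
        Good P D L 0 M u a → (D ^ m) a b ≠ 0 →
        Good P (D.submatrix Subtype.val Subtype.val) L 0
          ((M * D ^ m).submatrix id Subtype.val) u b := by
      intro M
      have wit : ∀ o : U × W, ∃ (i j : ℕ) (u' : U) (w' : W), Good P D L 0 M o.1 o.2 →
          (P ^ i) o.1 u' ≠ 0 ∧ M u' w' ≠ 0 ∧ (D ^ j) w' o.2 ≠ 0 ∧ i + j + 1 ≡ 0 [MOD L] := by
        intro o
        by_cases h : Good P D L 0 M o.1 o.2
        · obtain ⟨i, j, u', w', h⟩ := h
          exact ⟨i, j, u', w', fun _ => h⟩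
        · exact ⟨0, 0, o.1, o.2, fun h' => absurd h' h⟩
      choose i j u' w' hw using wit
      refine ⟨∑ o, j o, fun m hm u a b g hab => ?_⟩
      obtain ⟨h3, h4, h5, h6⟩ := hw (u, a) g
      have h7 : j (u, a) ≤ ∑ o, j o :=
        Finset.single_le_sum (f := j) (fun _ _ => Nat.zero_le _) (Finset.mem_univ _)
      obtain ⟨d, rfl⟩ : ∃ d, m = j (u, a) + d := ⟨m - j (u, a), by omega⟩
      obtain ⟨c, hc⟩ := irr.out_pow d a
      obtain ⟨r, hr⟩ := irr c a
      obtain ⟨r', k, h8, h9⟩ := pw_return hc hr hL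
      rw [← sp'] at hab
      refine ⟨_, _, _, c, h3, mul_ne_zero_of h4 (pw_add h5 (by rwa [sp'] at hc)), pw_add h8 hab,
        Nat.ModEq.trans ?_ h6⟩
      rw [show i (u, a) + (r' + 1 + (j (u, a) + d)) + 1 = i (u, a) + j (u, a) + 1 + L * (k + 1) by
        omega]
      exact modEq_mul _ _ _
    obtain ⟨N1, hN1⟩ := arrive X
    obtain ⟨N2, hN2⟩ := arrive Y
    obtain ⟨g1, g2⟩ := push_pow hP hL h (N1 + N2)
    have z0 : ∀ u w, C w → (Z * zz D ^ (N1 + N2)) u w = 0 := by
      intro u w hw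
      by_contra h3
      obtain ⟨b, h4, h5⟩ := exists_of_mul_ne_zero h3
      rw [← zz_pow, zz_ne] at h5
      exact h4 (h0 u b (closed_pow hC h5 hw))
    refine g2 (transfer hP hL C J hC hJ (fun w hw => hw.1)
      (ih (fun w => C w ∨ J w) (by simpa using less J w0 h1 ⟨h1, 0, pw_zero _ _⟩) fun a b hab hb =>
        hb.elim (fun hb => Or.inl (hC a b hab hb)) (hJ a b hab))
      (win_pair hP irr hLP idem (GInv.of_good ?_ fun u w hZ => ?_)) _ _ _ g1 z0 rfl rfl rfl)
    · have e := congrArg (fun M => M.submatrix id (Subtype.val : {w // J w} → W)) g1.1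
      simp only [sub_add] at e
      rw [sub_left, sub_col J _ (zz D) (fun i k v h3 h4 =>
          (hJ v k (zz_ne.1 h4) k.2).resolve_left fun h5 => h3 (z0 _ _ h5))] at e
      exact e
    · obtain ⟨b, h4, h5⟩ := exists_of_mul_ne_zero hZ
      rw [← zz_pow, zz_ne] at h5
      obtain ⟨k, hk⟩ := w.2.2
      have hb : J b := ⟨fun h6 => h4 (h0 _ _ h6), _, pw_add h5 hk⟩
      obtain ⟨c, hc⟩ := irr ⟨b, hb⟩ ⟨b, hb⟩
      rw [sp'] at hc
      obtain ⟨g3, g4⟩ := h.2 u b 0 b c h4 hc (pw_zero _ _)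
      exact ⟨hN1 _ (by omega) u ⟨b, hb⟩ w g3 h5, hN2 _ (by omega) u ⟨b, hb⟩ w g4 h5⟩

end Pool.Agent.MP_993212_an.H18
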