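import Pool.Agent.MP_993212_an.H16.Defs

/-! Primitive matrices with entry sum at most one. -/

namespace Pool.Agent.MP_993212_an.H18

open Matrix Finset H16

variable {V W : Type} [Fintype V] [DecidableEq V] [Fintype W] [DecidableEq W]

theorem eq_one_of_small {A : Matrix V V ℕ} (hA : H16.Prim A) (h : ¬2 ≤ ∑ u, ∑ v, A u v) :
    A = 1 := by
  obtain ⟨n, hn, hA⟩ := hA
  obtain ⟨n, rfl⟩ : ∃ m, n = m + 1 := ⟨n - 1, by omega⟩
  have r : ∀ u, 1 ≤ ∑ v, A u v := fun u => by
    by_contra c
    have c : ∀ v, A u v = 0 := fun v => by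
      have := single_le_sum (f := fun v => A u v) (fun _ _ => Nat.zero_le _) (mem_univ v)
      omega
    have := hA u u
    simp [pow_succ', mul_apply, c] at this
  have c : Fintype.card V ≤ 1 := by
    have := sum_le_sum (s := univ) fun u _ => r u
    simp only [sum_const, card_univ, smul_eq_mul, mul_one] at this
    omega
  have := Fintype.card_le_one_iff_subsingleton.1 c
  ext u v
  obtain rfl := Subsingleton.elim u v
  have h1 := r u
  simp only [Fintype.sum_subsingleton _ u] at h h1
  rw [one_apply_eq]
  omega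

theorem real_small {A : Matrix V V ℕ} {B : Matrix W W ℕ} {R : Matrix V W ℕ} {S : Matrix W V ℕ}
    {l : ℕ} (hA : H16.Prim A) (hB : H16.Prim B) (h : ¬2 ≤ ∑ u, ∑ v, A u v)
    (h2 : S * A = B * S) (h3 : R * S = A ^ l) (h4 : S * R = B ^ l) : Real A B (zz R) := by
  obtain rfl := eq_one_of_small hA h
  rw [one_pow] at h3
  have e : ∀ k, B ^ (l + k) = B ^ l := fun k => by
    induction k with
    | zero => rfl
    | succ k ih => rw [← add_assoc, pow_succ', ih, ← h4, ← Matrix.mul_assoc, ← h2, Matrix.mul_one]
  obtain ⟨n, hn, hB⟩ := hB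
  have p : ∀ i j, 0 < (B ^ l) i j := fun i j => by
    have q : ∀ k i j, 0 < (B ^ (n * (k + 1))) i j := fun k => by
      induction k with
      | zero => simpa using hB
      | succ k ih =>
        intro i j
        rw [Nat.mul_succ, pow_add, mul_apply]
        exact sum_pos (fun a _ => Nat.mul_pos (ih i a) (hB a j)) ⟨i, mem_univ i⟩
    obtain ⟨k, hk⟩ := Nat.exists_eq_add_of_le (show l ≤ n * (l + 1) by nlinarith)
    rw [← e k, ← hk]
    exact q l i j
  have s : Subsingleton W := ⟨fun i j => by
    by_contra c
    have h1 := congrFun (congrFun (e l) i) i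
    rw [pow_add, mul_apply] at h1
    have h2 := sum_le_sum_of_subset (f := fun a => (B ^ l) i a * (B ^ l) a i)
      (subset_univ ({i, j} : Finset W))
    rw [sum_pair c, h1] at h2
    nlinarith [p i i, Nat.mul_pos (p i j) (p j i)]⟩
  have b : S * R = B := by
    rw [h4]
    ext i j
    obtain rfl := Subsingleton.elim i j
    have h1 := congrFun (congrFun (e 1) i) i
    rw [pow_succ, mul_apply, Fintype.sum_subsingleton _ i] at h1
    have h2 : B i i = 1 := by nlinarith [p i i]
    have h5 : B = 1 := by
      ext a c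
      rw [Subsingleton.elim a i, Subsingleton.elim c i, h2, one_apply_eq]
    rw [h5, one_pow]
  have := Real.step R S
  rwa [h3, b] at this

end Pool.Agent.MP_993212_an.H18
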