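import Pool.Agent.MP_993212_an.H16.Spec4
import Pool.Agent.MP_993212_an.H18.Small

/-! Potentials of honest presentations and of shift equivalences. -/

namespace Pool.Agent.MP_993212_an.H18

open Matrix Polynomial Function H16

variable {V W G : Type} [Fintype V] [DecidableEq V] [Fintype W] [DecidableEq W] [AddCommGroup G]
  [Module ℤ[X] G]

theorem pres_pow (hB : Base) {A : Matrix V V ℤ} {ι : V → G} (h : Pres (pen A) ι) (a : ℕ) :
    Pres (pen A) (fun v => (X : ℤ[X]) ^ a • ι v) ∧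
      pull (A ^ a) (fun v => (X : ℤ[X]) ^ a • ι v) = ι := by
  induction a with
  | zero => simpa [pull_one] using h
  | succ a ih =>
    have := (hB.tr.pres_shift V G _ _ (pen_coeff A) ih.1).1
    simp only [pow_succ' (X : ℤ[X]), mul_smul]
    refine ⟨this, ?_⟩
    rw [pow_succ, pull_mul, pull_smul, funext ih.1.smul_pull, ih.2]

theorem shift_adm (hB : Base) {oV : V → ℕ} (h0 : Injective oV) {A : Matrix V V ℕ} {ι : V → G}
    (h : Pres (pen (zz A)) ι) (a : ℕ) :
    pt G V oV (zz A) (fun v => (X : ℤ[X]) ^ a • ι v) - pt G V oV (zz A) ι ∈ Adm A := by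
  have := hB.ch_adm h0 (Ch.pow A a) oV _ h0 (pres_pow hB h a).1
  rwa [zz_pow, (pres_pow hB h a).2] at this

theorem honStmt (hB : Base) : HonStmt := by
  rintro V s G _ _ _ _ _ _ oV o A ι P ξ h0 h1 hι ⟨o1, hξ, L, C, T, a, b, d, e, ch, e2⟩
  have x := hB.pres_lv o1 d hξ
  rw [o1.pn, pp_eq hB (hB.pt_isPot G 0) h1 (fun _ => Nat.zero_le _) o1 d hξ, ppL]
  rw [← e] at x ⊢
  have a1 := hB.ch_adm h0 ch _ _ (rkL_inj h1 _) x
  have a2 := shift_adm hB h0 hι a
  have a3 := shift_adm hB h0 (hB.pres_ch (T := zz T) (ch.map (Nat.castRingHom ℤ)) x) b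
  rw [funext e2] at a2
  have := add_mem a1 (sub_mem a2 a3)
  rwa [sub_sub_sub_cancel_left, sub_add_sub_cancel] at this

theorem tr_ch {A : Matrix V V ℤ} {B : Matrix W W ℤ} {T : Matrix V W ℤ} (h : Ch A B T) (e : ℕ) :
    trace (B ^ (e + 1)) = trace (A ^ (e + 1)) := by
  induction h with
  | refl => rfl
  | step R S _ ih =>
    rw [← ih, pow_succ, ← Matrix.mul_assoc, H12.pow_inter (Matrix.mul_assoc S R S) e,
      Matrix.mul_assoc, trace_mul_comm, Matrix.mul_assoc, ← pow_succ]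

theorem preStmt (hB : Base) : PreStmt := by
  refine ⟨fun V W _ _ _ _ oV oW A B R T v a b h0 e1 h e2 hv => ?_,
    fun V W _ _ _ _ A B R S l h1 h2 _ _ h3 h4 h5 h6 => real_small h1 h2 h6 h3 h4 h5⟩
  obtain ⟨G, _, _, κ, hκ⟩ := hB.tr.pres_ex W (pen (zz B))
  obtain ⟨h1, h2, h3⟩ := hB.chV_pt (G := G) h0 h
  have np' : ∀ k, np k B = np k A := fun k => Finset.sum_congr rfl fun d hd => by
    obtain ⟨d, rfl⟩ := Nat.exists_eq_succ_of_ne_zero (Nat.pos_of_mem_divisors hd).ne'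
    have := tr_ch h2 d
    rw [← zz_pow, ← zz_pow] at this
    congr 1
    simpa [trace, zz_apply] using this
  have c : ∀ n, (fun v => (X : ℤ[X]) ^ n • pull (zz A ^ n * zz R) κ v) = pull (zz R) κ := fun n => by
    rw [H12.pow_inter (by rw [← zz_mul, e1, zz_mul]) n, pull_mul, ← pull_smul, ← pull_smul,
      (pres_pow hB hκ n).2]
  have x := hB.pres_ch ((Ch.pow (zz A) b).trans h2) hκ
  have a1 := shift_adm hB h0 x a
  have a2 := hB.ch_adm h0 (Ch.pow A b) oV _ h0 (hB.pres_ch h2 hκ)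
  have x2 := (pres_pow hB x a).1
  rw [← e2, c] at x2
  rw [zz_pow, ← pull_mul] at a2
  rw [← e2, c, e2] at a1
  refine ⟨G, inferInstance, inferInstance, κ, h1, ?_, hκ, x2, ?_⟩
  · ext w
    change (∃ _ _, _) ↔ ∃ _ _, _
    simp only [np']
  · have := sub_mem (add_mem hv a2) a1
    rwa [h3 κ hκ, sub_add_sub_cancel, sub_sub_sub_cancel_right] at this

end Pool.Agent.MP_993212_an.H18
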