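import Pool.Agent.MP_993212_an.H18.HubA
import Pool.Agent.MP_993212_an.H18.PF

/-! Creation of the hub. -/

set_option linter.unusedSectionVars false

namespace Pool.Agent.MP_993212_an.H18

open Matrix Polynomial Finset H16 H92
open H15 hiding cf

variable {V : Type} [Fintype V] [DecidableEq V]

noncomputable def nt (a : ℤ[X]) (f : V → ℤ[X]) : Option (Option V) → ℤ[X] :=
  fun l => l.elim 0 fun l => l.elim a f

def mkN (hz hs : Option (Option V) → ℤ[X]) (hv : V → Option (Option V) → ℤ[X]) :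
    Matrix (Option (Option V)) (Option (Option V)) ℤ[X] :=
  of fun i => i.elim hz fun i => i.elim hs hv

@[simp] theorem nt_z (a : ℤ[X]) (f : V → ℤ[X]) : nt a f none = 0 := rfl
@[simp] theorem nt_s (a : ℤ[X]) (f : V → ℤ[X]) : nt a f (some none) = a := rfl
@[simp] theorem nt_v (a : ℤ[X]) (f : V → ℤ[X]) (v : V) : nt a f (some (some v)) = f v := rfl
@[simp] theorem mkN_z (hz hs) (hv : V → _) : mkN hz hs hv none = hz := rfl
@[simp] theorem mkN_s (hz hs) (hv : V → _) : mkN hz hs hv (some none) = hs := rfl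
@[simp] theorem mkN_v (hz hs) (hv : V → _) (v : V) : mkN hz hs hv (some (some v)) = hv v := rfl

theorem hs_mk {hz hs : Option (Option V) → ℤ[X]} {hv : V → Option (Option V) → ℤ[X]}
    (h1 : ∀ l, N1 (hz l) ∧ (hz l).coeff 0 = 0)
    (h2 : ∀ l, N1 (hs l) ∧ (hs l).coeff 0 = 0) (h3 : ∀ v l, N1 (hv v l) ∧ (hv v l).coeff 0 = 0) :
    Hs (mkN hz hs hv) := hs_of (by rintro (_ | _ | v) l; exacts [h1 l, h2 l, h3 v l])

theorem nt_ok {a : ℤ[X]} {f : V → ℤ[X]} (h1 : N1 a ∧ a.coeff 0 = 0)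
    (h2 : ∀ v, N1 (f v) ∧ (f v).coeff 0 = 0) (l) : N1 (nt a f l) ∧ (nt a f l).coeff 0 = 0 := by
  rcases l with _ | _ | v
  exacts [by simp [n1_zero], h1, h2 v]

theorem ok_X {p : ℤ[X]} (h : N1 p) : N1 (X * p) ∧ (X * p).coeff 0 = 0 := ⟨n1_X.mul h, by simp⟩

theorem ok_zero : N1 0 ∧ (0 : ℤ[X]).coeff 0 = 0 := ⟨n1_zero, rfl⟩

theorem ok_add {p q : ℤ[X]} (h : N1 p ∧ p.coeff 0 = 0) (h' : N1 q ∧ q.coeff 0 = 0) :
    N1 (p + q) ∧ (p + q).coeff 0 = 0 := ⟨h.1.add h'.1, by simp [h.2, h'.2]⟩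

theorem pw_add' {A : Matrix V V ℕ} {i j : ℕ} {a b c : V} (h1 : (A ^ i) a b ≠ 0)
    (h2 : (A ^ j) b c ≠ 0) : (A ^ (i + j)) a c ≠ 0 := by
  rw [pow_add]; exact mul_ne_zero_of h1 h2

/-- the rows after the splitting -/
noncomputable def rB (B : Matrix V V ℕ) (v0 v : V) : Option (Option V) → ℤ[X] :=
  nt (if v = v0 then X else 0) fun l => X * (B v l : ℤ[X])

theorem ok_rB (B : Matrix V V ℕ) (v0 v : V) (l) : N1 (rB B v0 v l) ∧ (rB B v0 v l).coeff 0 = 0 :=
  nt_ok (by split_ifs; exacts [⟨n1_X, by simp⟩, ok_zero]) (fun l => ok_X (n1_nat _)) l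

theorem green_split (hM : Moves) {A B : Matrix V V ℕ} {v0 v1 : V}
    (hB : ∀ a l, A a l = B a l + if a = v0 ∧ l = v1 then 1 else 0) {hz : Option (Option V) → ℤ[X]}
    (H : Hs (mkN hz (rB B v0 v1) (rB B v0))) (i : ℕ) (v : V) : PowerSeries.coeff (i + 1)
      (gs (mkN hz (rB B v0 v1) (rB B v0)) (some (some v)) (some none)) = (A ^ i) v v0 := by
  have e := fun j => gs_eq' hM H j (some none)
  generalize gs (mkN hz (rB B v0 v1) (rB B v0)) = Γ at e ⊢
  have st : ∀ i v j, mkN hz (rB B v0 v1) (rB B v0) j = rB B v0 v →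
      PowerSeries.coeff (i + 1) (Γ j (some none)) =
        (if v = v0 then PowerSeries.coeff i (Γ (some none) (some none)) else 0) +
          ∑ l, B v l * PowerSeries.coeff i (Γ (some (some l)) (some none)) := by
    intro i v j hj
    rw [e j, hj, map_add, one_apply]
    simp only [Fintype.sum_option, rB, nt_z, nt_s, nt_v, Polynomial.coe_zero, zero_mul, zero_add,
      map_add, map_sum, Polynomial.coe_mul, coe_X, mul_assoc, PowerSeries.coeff_succ_X_mul]
    rw [← add_assoc]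
    congr 1
    · split_ifs <;> simp [PowerSeries.coeff_one, PowerSeries.coeff_succ_X_mul]
    · refine sum_congr rfl fun l _ => ?_
      rw [← C_eq_natCast, coe_C, PowerSeries.coeff_C_mul]
  have z0 : ∀ j, PowerSeries.coeff 0 (Γ j (some none)) = if j = some none then 1 else 0 := by
    intro j
    rw [e j, map_add, one_apply, map_sum, sum_eq_zero, add_zero]
    · split_ifs <;> simp
    · intro a _
      rw [PowerSeries.coeff_mul]
      simp [H.c0, coeff_coe]
  have : (∀ v, PowerSeries.coeff (i + 1) (Γ (some (some v)) (some none)) = (A ^ i) v v0) ∧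
      PowerSeries.coeff (i + 1) (Γ (some none) (some none)) = (A ^ i) v1 v0 := by
    induction i with
    | zero =>
      refine ⟨fun v => ?_, ?_⟩
      · rw [st 0 v _ rfl]; simp [z0, one_apply]
      · rw [st 0 v1 _ rfl]; simp [z0, one_apply]
    | succ i ih =>
      have k : ∀ v, (if v = v0 then ((A ^ i) v1 v0 : ℤ) else 0) + ∑ l, (B v l : ℤ) * (A ^ i) l v0 =
          (A ^ (i + 1)) v v0 := fun v => by
        rw [pow_succ', mul_apply]
        simp only [hB v, add_mul, sum_add_distrib, Nat.cast_add, Nat.cast_sum, Nat.cast_mul]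
        by_cases h : v = v0 <;> simp [h, add_comm]
      refine ⟨fun v => ?_, ?_⟩
      · rw [st _ v _ rfl, ih.2, ← k]; simp only [ih.1]
      · rw [st _ v1 _ rfl, ih.2, ← k]; simp only [ih.1]
  exact this.1 v

theorem split_eqv (hM : Moves) {A B : Matrix V V ℕ} {v0 v1 : V}
    (hB : ∀ a l, A a l = B a l + if a = v0 ∧ l = v1 then 1 else 0) (y : V → ℤ[X])
    (hy : ∀ l, N1 (y l) ∧ (y l).coeff 0 = 0) {G : Type} [AddCommGroup G] [Module ℤ[X] G]
    {ι : V → G} (h : act (pen (zz A)) ι = 0) :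
    Eqv (pen (zz A)) 0 ι (1 - mkN (nt 0 y) (rB B v0 v1) (rB B v0)) 0 fun i =>
      i.elim (∑ v, y v • ι v) fun i => i.elim (ι v1) ι := by
  have vp : ∀ hv : V → Option (Option V) → ℤ[X], (∀ v l, N1 (hv v l) ∧ (hv v l).coeff 0 = 0) →
      VP (1 - mkN (nt 0 y) (nt 0 (Pi.single v1 1)) hv) 0 := fun hv h => by
    refine vp0 ?_ ⟨2, ?_⟩
    · rintro (_ | _ | v) l
      · exact (nt_ok ok_zero hy l).1
      · rcases l with _ | _ | l
        exacts [n1_zero, n1_zero, by
          simp only [mkN_s, nt_v, Pi.single_apply]; split_ifs; exacts [n1_one, n1_zero]]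
      · exact (h v l).1
    · rw [pow_two]
      ext i j
      rw [mul_apply]
      refine sum_eq_zero fun a _ => ?_
      rcases a with _ | _ | a
      · rcases i with _ | _ | i <;> simp [cf, h]
      · rcases i with _ | _ | i <;> simp [cf, h]
      · simp [cf, h]
  have okA : ∀ v l, N1 (nt 0 (fun l => X * (A v l : ℤ[X])) l) ∧
      (nt 0 (fun l => X * (A v l : ℤ[X])) l).coeff 0 = 0 := fun v =>
    nt_ok ok_zero fun l => ok_X (n1_nat _)
  have e0 : (1 - mkN (nt 0 y) (nt 0 (Pi.single v1 1)) fun v => nt 0 fun l =>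
      X * (A v l : ℤ[X])).submatrix (fun v => some (some v)) (fun v => some (some v)) =
        pen (zz A) := by
    ext1 a b
    simp [pen, zz_apply, one_apply]
  have r0 : act (1 - mkN (nt 0 y) (nt 0 (Pi.single v1 1)) fun v => nt 0 fun l =>
      X * (A v l : ℤ[X])) (fun i => i.elim (∑ v, y v • ι v) fun i => i.elim (ι v1) ι) = 0 := by
    funext i
    rcases i with _ | _ | v
    · simp [act, Fintype.sum_option, one_apply]
    · simp [act, Fintype.sum_option, one_apply, Pi.single_apply, ite_smul]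
    · have := congrFun h v
      rw [← e0] at this
      simpa [act, Fintype.sum_option, one_apply] using this
  have s0 := hM.sub G _ V _ 0 _ (fun v => some (some v)) (fun a b h => by simpa using h)
    (vp _ okA) r0 (by
      rintro a (_ | _ | b) hb
      · rcases a with _ | _ | a <;> simp
      · rcases a with _ | _ | a <;> simp
      · simp at hb)
  rw [e0] at s0
  have s1 := onerow hM (vp _ okA) (vp _ (ok_rB B v0)) r0 (some (some v0))
    (nt (-X) 0) rfl (by
      rintro (_ | _ | a) ha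
      · rfl
      · rfl
      · have : a ≠ v0 := fun e => ha (by rw [e])
        simp [rB, hB a, this]) (by
      rintro (_ | _ | l)
      · simp [rB, Fintype.sum_option]
      · simp [rB, Fintype.sum_option]
      · simp only [rB, Fintype.sum_option, mkN_v, nt_v, nt_z, nt_s, mkN_s, hB v0, true_and,
          Pi.single_apply, Pi.zero_apply]
        split_ifs <;> simp <;> ring)
  have s2 := onerow hM (vp _ (ok_rB B v0)) (hs_mk (nt_ok ok_zero hy) (ok_rB B v0 v1)
    (ok_rB B v0)).vp s1.rel' (some none) (nt 0 (Pi.single v1 1)) rfl (by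
      rintro (_ | _ | a) ha
      · rfl
      · exact absurd rfl ha
      · rfl) (fun l => by simp [Fintype.sum_option, Pi.single_apply])
  exact s0.symm.trans (s1.trans s2)

theorem hub_core (hM : Moves) (A B : Matrix V V ℕ) (v0 v1 : V) (u : V → ℕ) (m : ℕ)
    (hB : ∀ a l, A a l = B a l + if a = v0 ∧ l = v1 then 1 else 0) (hu : ∀ v, 2 ≤ u v) (hm : 1 ≤ m)
    (f1 : ∀ l, ∃ d, (B ^ d) v1 l ≠ 0) (f2 : ∃ a, B a v1 ≠ 0)
    (gr : ∀ U : ℕ, ∀ᶠ i in Filter.atTop, U ≤ (A ^ i) v1 v0) :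
    ∃ N : Matrix (Option (Option V)) (Option (Option V)) ℤ[X], Hs N ∧ N (some none) none ≠ 0 ∧
      N (some (some v0)) (some none) ≠ 0 ∧
      (∀ a l, B a l ≠ 0 → N (some (some a)) (some (some l)) ≠ 0) ∧
      N (some none) (some none) ≠ 0 ∧ (∀ j, j ≠ none → N none j ≠ 0) ∧
      ∀ (G : Type) [AddCommGroup G] [Module ℤ[X] G] (ι : V → G), act (pen (zz A)) ι = 0 →
        Eqv (pen (zz A)) 0 ι (1 - N) 0 fun i =>
          i.elim (∑ v, ((u v : ℤ[X]) * X ^ m) • ι v) fun i => i.elim (ι v1) ι := by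
  choose d hd using f1
  obtain ⟨n, hn1, hn2⟩ : ∃ n, (B ^ (n + 1)) v1 v1 ≠ 0 ∧ d v0 ≤ n := by
    obtain ⟨a, ha⟩ := f2
    have h1 : (B ^ (d a + 1)) v1 v1 ≠ 0 := pw_add' (hd a) (by simpa using ha)
    have h2 : ∀ k, (B ^ ((d a + 1) * k)) v1 v1 ≠ 0 := fun k => by
      induction k with
      | zero => simp
      | succ k ih => rw [Nat.mul_succ]; exact pw_add' ih h1
    refine ⟨(d a + 1) * (d v0 + 1) - 1, ?_, ?_⟩
    · rw [Nat.sub_add_cancel (Nat.mul_pos (by omega) (by omega))]; exact h2 _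
    · have : d v0 + 1 ≤ (d a + 1) * (d v0 + 1) := Nat.le_mul_of_pos_left _ (by omega)
      omega
  obtain ⟨y, hy⟩ : ∃ y : V → ℤ[X], ∀ l, y l = (u l : ℤ[X]) * X ^ m := ⟨_, fun _ => rfl⟩
  simp only [← hy]
  have oky : ∀ l, N1 (y l) ∧ (y l).coeff 0 = 0 := fun l => by
    rw [hy]
    exact ⟨(n1_nat _).mul (n1_X.pow _), by simp [coeff_X_pow, show 0 ≠ m by omega]⟩
  have okz := nt_ok ok_zero oky
  have okB := ok_rB B v0
  let c : V → ℤ[X] := fun l => ∑ i ∈ range n, X ^ (i + 1) * ((B ^ (i + 1)) v1 l : ℤ[X])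
  have c0 : ∀ l, N1 (c l) := fun l => n1_sum fun i _ => (n1_X.pow _).mul (n1_nat _)
  let φ : ℤ[X] := X * ((if v1 = v0 then 1 else 0) + c v0)
  have φ1 : N1 φ ∧ φ.coeff 0 = 0 :=
    ok_X (N1.add (by split_ifs; exacts [n1_one, n1_zero]) (c0 _))
  have φ0 : φ ≠ 0 := by
    refine mul_ne_zero X_ne_zero ?_
    split_ifs with e
    · exact n1_one.add_ne (c0 _) one_ne_zero
    · obtain ⟨k, hk⟩ : ∃ k, d v0 = k + 1 := by
        refine Nat.exists_eq_succ_of_ne_zero fun h => hd v0 ?_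
        simp [h, one_apply, e]
      rw [zero_add, show c v0 = _ from (add_sum_erase _ _ (a := k) (mem_range.2 (by omega))).symm]
      exact ((n1_X.pow _).mul (n1_nat _)).add_ne (n1_sum fun i _ => (n1_X.pow _).mul (n1_nat _))
        (mul_ne_zero (pow_ne_zero _ X_ne_zero) (by rw [← hk]; exact_mod_cast hd v0))
  let x : V → ℤ[X] := fun l => X * (X ^ n * ((B ^ (n + 1)) v1 l : ℤ[X]))
  have okx : ∀ l, N1 (x l) ∧ (x l).coeff 0 = 0 := fun l => ok_X ((n1_X.pow _).mul (n1_nat _))
  have x1 : 1 ≤ (x v1).coeff (n + 1) := by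
    simp only [x]
    rw [coeff_X_mul, ← C_eq_natCast, coeff_mul_C, coeff_X_pow_self, one_mul]
    exact_mod_cast Nat.pos_of_ne_zero hn1
  have H1 : Hs (mkN (nt 0 y) (rB B v0 v1) (rB B v0)) := hs_mk okz (okB v1) okB
  have H2 : Hs (mkN (nt 0 y) (nt φ x) (rB B v0)) := hs_mk okz (nt_ok φ1 okx) okB
  have q2 : ∀ a, a ≠ some none →
      mkN (nt 0 y) (nt φ x) (rB B v0) a = mkN (nt 0 y) (rB B v0 v1) (rB B v0) a := by
    rintro (_ | _ | a) ha
    exacts [rfl, absurd rfl ha, rfl]
  have r2 : ∀ l, mkN (nt 0 y) (nt φ x) (rB B v0) (some none) l =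
      mkN (nt 0 y) (rB B v0 v1) (rB B v0) (some none) l - nt 0 c l +
        ∑ a, nt 0 c a * mkN (nt 0 y) (rB B v0 v1) (rB B v0) a l := by
    rintro (_ | _ | l)
    · simp [Fintype.sum_option, rB]
    · simp only [mkN_s, nt_s, Fintype.sum_option, nt_z, nt_v, mkN_v, rB, φ, mul_ite, mul_zero,
        sum_ite_eq', mem_univ, if_true, zero_mul]
      split_ifs <;> ring
    · simp only [mkN_s, Fintype.sum_option, nt_s, nt_z, nt_v, mkN_v, rB, zero_mul, zero_add]
      have : ∑ a, c a * (X * (B a l : ℤ[X])) =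
          ∑ i ∈ range n, X ^ (i + 1 + 1) * ((B ^ (i + 1 + 1)) v1 l : ℤ[X]) := by
        simp only [c, sum_mul]
        rw [sum_comm]
        refine sum_congr rfl fun i _ => ?_
        rw [pow_succ B (i + 1), mul_apply, Nat.cast_sum, mul_sum]
        exact sum_congr rfl fun a _ => by push_cast; ring
      have e := sum_range_succ' (fun i => X ^ (i + 1) * ((B ^ (i + 1)) v1 l : ℤ[X])) n
      rw [sum_range_succ] at e
      simp only [zero_add, pow_one] at e
      rw [this]
      simp only [x, c]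
      linear_combination e
  clear_value φ x
  have g2 : ∀ i k l, (B ^ k) v1 l ≠ 0 → ((A ^ i) v1 v0 : ℤ) ≤ PowerSeries.coeff (i + 1 + (n + 1) + k)
      (gs (mkN (nt 0 y) (nt φ x) (rB B v0)) (some (some v1)) (some (some l))) := fun i k => by
    induction k with
    | zero =>
      intro l hl
      obtain rfl : v1 = l := by by_contra e; simp [one_apply, e] at hl
      rw [← green_split hM hB H1, ← gs_row hM H1 H2 _ _ q2 r2 _ (l := some none) rfl]
      exact gs_step hM H2 _ (u := some none) (l := some (some v1)) (k := n + 1) x1 _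
    | succ k ih =>
      intro l hl
      rw [pow_succ] at hl
      obtain ⟨a, h1, h2⟩ := exists_of_mul_ne_zero hl
      refine (ih a h1).trans (gs_step hM H2 _ (u := some (some a)) (k := 1) ?_ _)
      simp only [mkN_v, rB, nt_v]
      rw [coeff_X_mul, ← C_eq_natCast, coeff_C_zero]
      exact_mod_cast Nat.pos_of_ne_zero h2
  obtain ⟨i0, hi0⟩ := Filter.eventually_atTop.1 (gr (univ.sup u))
  obtain ⟨T, hT, hT2⟩ : ∃ T, m < T ∧ ∀ l, i0 + 2 * n + 3 + d l ≤ T :=
    ⟨m + 1 + i0 + 2 * n + 3 + univ.sup d, by omega, fun l => by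
      have := le_sup (f := d) (mem_univ l); omega⟩
  let rC : V → Option (Option V) → ℤ[X] := fun v => if v = v0 then nt (X * φ ^ T) fun l =>
    X * (B v0 l : ℤ[X]) + X * ((∑ i ∈ range T, φ ^ i) * x l) else rB B v0 v
  have okC : ∀ v l, N1 (rC v l) ∧ (rC v l).coeff 0 = 0 := fun v l => by
    simp only [rC]
    split_ifs
    · exact nt_ok (ok_X (φ1.1.pow _)) (fun l => ok_add (ok_X (n1_nat _))
        (ok_X ((n1_sum fun i _ => φ1.1.pow _).mul (okx l).1))) l
    · exact okB v l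
  have H3 : Hs (mkN (nt 0 y) (nt φ x) rC) := hs_mk okz (nt_ok φ1 okx) okC
  have q3 : ∀ a, a ≠ some (some v0) →
      mkN (nt 0 y) (nt φ x) rC a = mkN (nt 0 y) (nt φ x) (rB B v0) a := by
    rintro (_ | _ | a) ha
    · rfl
    · rfl
    · have : a ≠ v0 := fun e => ha (by rw [e])
      simp [rC, this]
  have r3 : ∀ l, mkN (nt 0 y) (nt φ x) rC (some (some v0)) l =
      mkN (nt 0 y) (nt φ x) (rB B v0) (some (some v0)) l - nt (X * ∑ i ∈ range T, φ ^ i) 0 l +
        ∑ a, nt (X * ∑ i ∈ range T, φ ^ i) 0 a * mkN (nt 0 y) (nt φ x) (rB B v0) a l := by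
    rintro (_ | _ | l)
    · simp [Fintype.sum_option, rB, rC]
    · simp only [mkN_s, nt_s, Fintype.sum_option, nt_z, nt_v, mkN_v, rB, rC, if_true, zero_mul,
        Pi.zero_apply, sum_const_zero]
      linear_combination (-X) * geom_sum_mul φ T
    · simp [Fintype.sum_option, rB, rC, mul_assoc]
  have c1 : rC v0 (some none) ≠ 0 := by simp [rC, φ0]
  have c2 : ∀ a l, B a l ≠ 0 → rC a (some (some l)) ≠ 0 := fun a l h => by
    simp only [rC]
    split_ifs with e
    · exact (ok_X (n1_nat _)).1.add_ne (ok_X ((n1_sum fun i _ => φ1.1.pow _).mul (okx l).1)).1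
        (mul_ne_zero X_ne_zero (by rw [← e]; exact_mod_cast h))
    · exact mul_ne_zero X_ne_zero (by exact_mod_cast h)
  have c3 : ∀ v, rC v none = 0 := fun v => by simp only [rC, rB]; split_ifs <;> rfl
  have c4 : ∀ a, a ≠ some none → X ^ T ∣ mkN (nt 0 y) (nt φ x) rC a (some none) := by
    rintro (_ | _ | a) ha
    · simp
    · exact absurd rfl ha
    · by_cases e : a = v0
      · simpa [rC, e] using (pow_dvd_pow_of_dvd (X_dvd_iff.2 φ1.2) T).mul_left X
      · simp [rC, rB, e]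
  clear_value rC
  have x0 : ∀ l, N1 (nt 0 x l) := fun l => (nt_ok ok_zero okx l).1
  have fr := front hM H3 x0 T
  have fs := flow_deep hM H3 (x := nt 0 x) (a := some none) rfl c4
  have fz := flow_deep hM H3 (x := nt 0 x) (a := none) (T := T) rfl (by
    rintro (_ | _ | a) ha
    exacts [absurd rfl ha, by simp, by simp [c3]])
  have fl : ∀ l, (u l : ℤ) ≤ PowerSeries.coeff T
      (flow (mkN (nt 0 y) (nt φ x) rC) (nt 0 x) (some (some l))) := fun l => by
    obtain ⟨i, hi⟩ := Nat.exists_eq_add_of_le (hT2 l)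
    have h1 := flow_ge hM H3 x0 (u := some (some v1)) x1 (some (some l))
      (i0 + i + 1 + (n + 1) + d l)
    rw [gs_row hM H2 H3 _ _ q3 r3 _ rfl,
      show n + 1 + (i0 + i + 1 + (n + 1) + d l) = T by omega] at h1
    refine le_trans ?_ ((g2 _ _ _ (hd l)).trans h1)
    exact_mod_cast (le_sup (mem_univ l)).trans (hi0 _ (Nat.le_add_right _ _))
  generalize hc1 : (fun l => PowerSeries.trunc T (flow (mkN (nt 0 y) (nt φ x) rC) (nt 0 x) l)) = e
  have he := congrFun hc1
  simp only [he] at fr fs fz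
  generalize hF : (fun l => nt 0 x l - e l + ∑ a, e a * mkN (nt 0 y) (nt φ x) rC a l) = F
  have hF := congrFun hF
  simp only [hF] at fr
  obtain ⟨a, rfl⟩ := Nat.exists_eq_add_of_lt hT
  let sr' : Option (Option V) → ℤ[X] := fun l => l.elim (X * X ^ a) fun l' =>
    l'.elim (φ + F l) fun v => F l - X ^ (a + 1) * y v
  have okF : ∀ l, N1 (F l) ∧ (F l).coeff 0 = 0 := fun l => ⟨(fr l).1, (fr l).2.2 0 (by omega)⟩
  have oks : ∀ l, N1 (sr' l) ∧ (sr' l).coeff 0 = 0 := by
    rintro (_ | _ | l)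
    · exact ok_X (n1_X.pow _)
    · exact ok_add φ1 (okF _)
    · have : X ^ (a + 1) * y l = C (u l : ℤ) * X ^ (m + a + 1) := by
        rw [hy, C_eq_natCast]; ring
      simp only [sr', Option.elim, this]
      refine ⟨fun k => ?_, by simp [(okF _).2, coeff_X_pow]⟩
      rw [coeff_sub, coeff_C_mul, coeff_X_pow]
      split_ifs with h
      · rw [h, (fr _).2.1]; linarith [fl l]
      · simpa using (okF _).1 k
  have H4 : Hs (mkN (nt 0 y) sr' rC) := hs_mk okz oks okC
  let hz' : Option (Option V) → ℤ[X] := fun l =>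
    nt 0 (fun v => y v - if v = v0 then X ^ m else 0) l + X * (X ^ (m - 1) * rC v0 l)
  have ok1 : ∀ v, (N1 (y v - if v = v0 then X ^ m else 0) ∧
      (y v - if v = v0 then X ^ m else 0).coeff 0 = 0) ∧
      (y v - if v = v0 then X ^ m else 0) ≠ 0 := fun v => by
    obtain ⟨k, hk⟩ := Nat.exists_eq_add_of_le (hu v)
    have : ∃ k : ℕ, (y v - if v = v0 then X ^ m else 0) = ((k + 1 : ℕ) : ℤ[X]) * X ^ m := by
      rw [hy, hk]
      split_ifs
      · exact ⟨k, by push_cast; ring⟩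
      · exact ⟨k + 1, by push_cast; ring⟩
    obtain ⟨k, hk⟩ := this
    rw [hk]
    exact ⟨⟨(n1_nat _).mul (n1_X.pow _), by simp [coeff_X_pow, show 0 ≠ m by omega]⟩,
      mul_ne_zero (Nat.cast_ne_zero.2 (by omega)) (pow_ne_zero _ X_ne_zero)⟩
  have ok2 : ∀ l, N1 (X * (X ^ (m - 1) * rC v0 l)) ∧ (X * (X ^ (m - 1) * rC v0 l)).coeff 0 = 0 :=
    fun l => ok_X ((n1_X.pow _).mul (okC _ _).1)
  have H5 : Hs (mkN hz' sr' rC) :=
    hs_mk (fun l => ok_add (nt_ok ok_zero (fun v => (ok1 v).1) l) (ok2 l)) oks okC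
  refine ⟨mkN hz' sr' rC, H5, mul_ne_zero X_ne_zero (pow_ne_zero _ X_ne_zero), c1, c2,
    φ1.1.add_ne (okF _).1 φ0, ?_, fun G _ _ ι h => ?_⟩
  · rintro (_ | _ | v) hv
    · exact absurd rfl hv
    · simp [hz', c1]
    · exact (ok1 v).1.1.add_ne (ok2 _).1 (ok1 v).2
  have s1 := split_eqv hM hB y oky h
  have s2 := onerow hM H1.vp H2.vp s1.rel' _ _ rfl q2 r2
  have s3 := onerow hM H2.vp H3.vp s2.rel' _ _ rfl q3 r3
  have s4 := onerow hM H3.vp H4.vp s3.rel' (some none)
    (fun l => e l - if l = none then X ^ (a + 1) else 0) (by simp [fs]) (by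
      rintro (_ | _ | a) ha
      exacts [rfl, absurd rfl ha, rfl]) (fun l => by
      simp only [sub_mul, sum_sub_distrib, ite_mul, zero_mul, sum_ite_eq', mem_univ, if_true]
      have := hF l
      rcases l with _ | _ | l
      · simp only [Fintype.sum_option, mkN_z, mkN_s, mkN_v, nt_z, c3, fz, sr', Option.elim]
        simp [pow_succ']
      · simp only [mkN_z, mkN_s, nt_s, sr', Option.elim, ← this]
        simp only [reduceCtorEq, if_false]
        ring
      · simp only [mkN_z, mkN_s, nt_v, sr', Option.elim, ← this]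
        simp only [reduceCtorEq, if_false]
        ring)
  have s5 := onerow hM H4.vp H5.vp s4.rel' none (nt 0 fun v => if v = v0 then X ^ m else 0) rfl
    (by
      rintro (_ | _ | a) ha
      exacts [absurd rfl ha, rfl, rfl]) (fun l => by
      have e : X * (X ^ (m - 1) * rC v0 l) = X ^ m * rC v0 l := by
        rw [← mul_assoc, ← pow_succ', Nat.sub_add_cancel hm]
      simp only [mkN_z, hz', e, Fintype.sum_option, nt_z, nt_s, nt_v, zero_mul, zero_add, ite_mul,
        sum_ite_eq', mem_univ, if_true, mkN_v]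
      rcases l with _ | _ | l <;> simp)
  exact s1.trans (s2.trans (s3.trans (s4.trans s5)))

end Pool.Agent.MP_993212_an.H18
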