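import Pool.Agent.MP_993212_an.H18.WSpec

/-! One row moves, Green functions, frontiers and certificates. -/

set_option linter.unusedSectionVars false

namespace Pool.Agent.MP_993212_an.H18

open Matrix Polynomial Finset H16 H92
open H15 hiding cf

variable {I G : Type} [Fintype I] [DecidableEq I] [AddCommGroup G] [Module ℤ[X] G]

theorem N1.add {p q : ℤ[X]} (hp : N1 p) (hq : N1 q) : N1 (p + q) := fun k => by
  rw [coeff_add]; exact add_nonneg (hp k) (hq k)

theorem N1.mul {p q : ℤ[X]} (hp : N1 p) (hq : N1 q) : N1 (p * q) := fun k => by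
  rw [coeff_mul]; exact sum_nonneg fun _ _ => mul_nonneg (hp _) (hq _)

theorem n1_zero : N1 0 := fun _ => by simp

theorem n1_one : N1 1 := fun k => by rw [coeff_one]; split_ifs <;> norm_num

theorem n1_X : N1 X := fun k => by rw [coeff_X]; split_ifs <;> norm_num

theorem n1_nat (n : ℕ) : N1 (n : ℤ[X]) := fun k => by
  rw [← C_eq_natCast, coeff_C]; split_ifs <;> simp

theorem N1.pow {p : ℤ[X]} (hp : N1 p) (n : ℕ) : N1 (p ^ n) := by
  induction n with
  | zero => simpa using n1_one
  | succ n ih => rw [pow_succ]; exact ih.mul hp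

theorem n1_sum {ι : Type} {T : Finset ι} {f : ι → ℤ[X]} (h : ∀ i ∈ T, N1 (f i)) :
    N1 (∑ i ∈ T, f i) := fun k => by
  rw [finsetSum_coeff]; exact sum_nonneg fun i hi => h i hi k

theorem N1.add_ne {p q : ℤ[X]} (hp : N1 p) (hq : N1 q) (h : p ≠ 0) : p + q ≠ 0 := fun e => h (by
  ext k
  have := congrArg (fun r => coeff r k) e
  simp only [coeff_add, coeff_zero] at this ⊢
  linarith [hp k, hq k])

theorem vp0 {N : Matrix I I ℤ[X]} (h : NN N) (hn : IsNilpotent (cf 0 N)) : VP (1 - N) 0 := by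
  refine ⟨fun _ _ _ => by simp, by ext; simp [cf], ⟨N, 0, h, fun _ _ _ => by simp, by simp⟩, ?_⟩
  have : 1 - cf 0 (1 - N) = cf 0 N := by
    ext i j
    simp only [cf, Matrix.sub_apply, map_apply, coeff_sub, one_apply]
    split_ifs <;> simp
  rwa [this]

theorem Hs.vp {N : Matrix I I ℤ[X]} (h : Hs N) : VP (1 - N) 0 :=
  vp0 h.1 (by rw [h.2]; exact IsNilpotent.zero)

theorem Hs.c0 {N : Matrix I I ℤ[X]} (h : Hs N) (i j : I) : (N i j).coeff 0 = 0 :=
  congrFun (congrFun h.2 i) j

theorem hs_of {N : Matrix I I ℤ[X]} (h : ∀ i j, N1 (N i j) ∧ (N i j).coeff 0 = 0) : Hs N :=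
  ⟨fun i j => (h i j).1, by ext i j; exact (h i j).2⟩

theorem onerow (hM : Moves) {N N' : Matrix I I ℤ[X]} {ξ : I → G} (v : VP (1 - N) 0)
    (v' : VP (1 - N') 0) (r : act (1 - N) ξ = 0) (a : I) (c : I → ℤ[X]) (hc : c a = 0)
    (h1 : ∀ u, u ≠ a → N' u = N u) (h2 : ∀ l, N' a l = N a l - c l + ∑ u, c u * N u l) :
    Eq0 N ξ N' ξ := by
  have e : (1 + of fun i j => if i = a then c j else 0) * (1 - N) = 1 - N' := by
    ext1 i l
    rw [add_mul, one_mul, mul_sub, mul_one, Matrix.add_apply, Matrix.sub_apply, Matrix.sub_apply,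
      Matrix.sub_apply, mul_apply]
    by_cases h : i = a
    · subst h
      simp only [of_apply, if_true, h2]
      ring
    · simp [h, h1 i h]
  have := hM.row G I (1 - N) 0 (of fun i j => if i = a then c j else 0) ξ (· = a) v r
    (fun i j h => by
      by_cases e : i = a
      · exact ⟨e, fun e2 => h (by simp [e2, hc])⟩
      · simp [e] at h) (by rwa [e])
  rwa [e] at this

section Green

variable {N : Matrix I I ℤ[X]}

theorem sr_apply {J : Type} (N : Matrix I J ℤ[X]) (i : I) (j : J) :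
    sr N i j = (N i j : PowerSeries ℤ) := rfl

theorem gs_eq (hM : Moves) (h : Hs N) (i l : I) :
    gs N i l = (1 : Matrix I I (PowerSeries ℤ)) i l + ∑ u, gs N i u * (N u l : PowerSeries ℤ) := by
  have := congrFun (congrFun (hM.ser I 0 N h.1 h.2).2.1 i) l
  rw [mul_sub, mul_one, Matrix.sub_apply, mul_apply] at this
  rw [← this]
  simp [sr_apply]

theorem gs_eq' (hM : Moves) (h : Hs N) (i l : I) :
    gs N i l = (1 : Matrix I I (PowerSeries ℤ)) i l + ∑ u, (N i u : PowerSeries ℤ) * gs N u l := by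
  have := congrFun (congrFun (hM.ser I 0 N h.1 h.2).1 i) l
  rw [sub_mul, one_mul, Matrix.sub_apply, mul_apply] at this
  rw [← this]
  simp [sr_apply]

theorem gs_nn (hM : Moves) (h : Hs N) (i l : I) (k : ℕ) : 0 ≤ PowerSeries.coeff k (gs N i l) :=
  (hM.ser I 0 N h.1 h.2).2.2.1 i l k

theorem coeff_mul_ge {F H : PowerSeries ℤ} (hF : ∀ k, 0 ≤ PowerSeries.coeff k F)
    (hH : ∀ k, 0 ≤ PowerSeries.coeff k H) (a b : ℕ) :
    PowerSeries.coeff a F * PowerSeries.coeff b H ≤ PowerSeries.coeff (a + b) (F * H) := by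
  rw [PowerSeries.coeff_mul]
  exact single_le_sum (f := fun p : ℕ × ℕ => PowerSeries.coeff p.1 F * PowerSeries.coeff p.2 H)
    (fun _ _ => mul_nonneg (hF _) (hH _)) (a := (a, b)) (by simp)

theorem coeff_mul_nn {F H : PowerSeries ℤ} (hF : ∀ k, 0 ≤ PowerSeries.coeff k F)
    (hH : ∀ k, 0 ≤ PowerSeries.coeff k H) (a : ℕ) : 0 ≤ PowerSeries.coeff a (F * H) := by
  rw [PowerSeries.coeff_mul]
  exact sum_nonneg fun _ _ => mul_nonneg (hF _) (hH _)

theorem gs_step (hM : Moves) (h : Hs N) (i : I) {u l : I} {k : ℕ} (hk : 1 ≤ (N u l).coeff k)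
    (n : ℕ) : PowerSeries.coeff n (gs N i u) ≤ PowerSeries.coeff (n + k) (gs N i l) := by
  have nn : ∀ u l k, 0 ≤ PowerSeries.coeff k (N u l : PowerSeries ℤ) := fun u l k => by
    rw [coeff_coe]; exact h.1 u l k
  rw [gs_eq hM h i l, map_add, map_sum]
  have h1 : 0 ≤ PowerSeries.coeff (n + k) ((1 : Matrix I I (PowerSeries ℤ)) i l) := by
    rw [one_apply]
    split_ifs
    · rw [PowerSeries.coeff_one]; split_ifs <;> norm_num
    · simp
  have h2 := single_le_sum (f := fun u => PowerSeries.coeff (n + k)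
    (gs N i u * (N u l : PowerSeries ℤ))) (fun u _ => coeff_mul_nn (gs_nn hM h i u) (nn u l) _)
    (mem_univ u)
  have h3 := coeff_mul_ge (gs_nn hM h i u) (nn u l) n k
  rw [coeff_coe] at h3
  nlinarith [gs_nn hM h i u n]

/-- a row move does not change the columns of the Green function outside its support -/
theorem gs_row (hM : Moves) {N' : Matrix I I ℤ[X]} (h : Hs N) (h' : Hs N') (a : I)
    (c : I → ℤ[X]) (h1 : ∀ u, u ≠ a → N' u = N u)
    (h2 : ∀ l, N' a l = N a l - c l + ∑ u, c u * N u l) (i : I) {l : I} (hl : c l = 0) :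
    gs N' i l = gs N i l := by
  have e : (1 + sr (of fun i j => if i = a then c j else 0)) * (1 - sr N) = 1 - sr N' := by
    ext1 i l
    rw [add_mul, one_mul, mul_sub, mul_one, Matrix.add_apply, Matrix.sub_apply, Matrix.sub_apply,
      Matrix.sub_apply, mul_apply]
    by_cases h : i = a
    · subst h
      simp only [sr_apply, of_apply, if_true, h2, Polynomial.coe_add, Polynomial.coe_sub]
      rw [show ((∑ u, c u * N u l : ℤ[X]) : PowerSeries ℤ) = ∑ u, (c u : PowerSeries ℤ) * N u l by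
        rw [← coeToPowerSeries.ringHom_apply, map_sum]; simp]
      ring
    · simp [sr_apply, h, h1 i h]
  have e2 : gs N' * (1 + sr (of fun i j => if i = a then c j else 0)) = gs N := by
    calc _ = gs N' * (1 + sr (of fun i j => if i = a then c j else 0)) * ((1 - sr N) * gs N) := by
          rw [(hM.ser I 0 N h.1 h.2).1, mul_one]
      _ = _ := by rw [← mul_assoc, mul_assoc (gs N'), e, (hM.ser I 0 N' h'.1 h'.2).2.1, one_mul]
  rw [← e2, mul_add, mul_one, Matrix.add_apply, mul_apply]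
  simp [sr_apply, hl]

/-- the flow started by `x` -/
noncomputable def flow (N : Matrix I I ℤ[X]) (x : I → ℤ[X]) (l : I) : PowerSeries ℤ :=
  ∑ u, (x u : PowerSeries ℤ) * gs N u l

theorem flow_eq (hM : Moves) (h : Hs N) (x : I → ℤ[X]) (l : I) :
    flow N x l = x l + ∑ u, flow N x u * (N u l : PowerSeries ℤ) := by
  simp only [flow]
  rw [sum_congr rfl fun u _ => by rw [gs_eq hM h u l]]
  simp only [mul_add, sum_add_distrib, one_apply, mul_ite, mul_one, mul_zero, sum_ite_eq',
    mem_univ, if_true, mul_sum, sum_mul, mul_assoc]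
  rw [sum_comm]

theorem flow_nn (hM : Moves) (h : Hs N) {x : I → ℤ[X]} (hx : ∀ l, N1 (x l)) (l : I) (k : ℕ) :
    0 ≤ PowerSeries.coeff k (flow N x l) := by
  rw [flow, map_sum]
  exact sum_nonneg fun u _ => coeff_mul_nn (fun k => by rw [coeff_coe]; exact hx u k)
    (gs_nn hM h u l) k

theorem flow_ge (hM : Moves) (h : Hs N) {x : I → ℤ[X]} (hx : ∀ l, N1 (x l)) {u : I} {k : ℕ}
    (hk : 1 ≤ (x u).coeff k) (l : I) (n : ℕ) :
    PowerSeries.coeff n (gs N u l) ≤ PowerSeries.coeff (k + n) (flow N x l) := by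
  have nn : ∀ u k, 0 ≤ PowerSeries.coeff k (x u : PowerSeries ℤ) := fun u k => by
    rw [coeff_coe]; exact hx u k
  rw [flow, map_sum]
  have h2 := single_le_sum (f := fun u => PowerSeries.coeff (k + n)
    ((x u : PowerSeries ℤ) * gs N u l)) (fun u _ => coeff_mul_nn (nn u) (gs_nn hM h u l) _)
    (mem_univ u)
  have h3 := coeff_mul_ge (nn u) (gs_nn hM h u l) k n
  rw [coeff_coe] at h3
  nlinarith [gs_nn hM h u l n]

/-- the frontier of the flow at time `T` -/
theorem front (hM : Moves) (h : Hs N) {x : I → ℤ[X]} (hx : ∀ l, N1 (x l)) (T : ℕ) (l : I) :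
    N1 (x l - PowerSeries.trunc T (flow N x l) + ∑ u, PowerSeries.trunc T (flow N x u) * N u l) ∧
    (x l - PowerSeries.trunc T (flow N x l) + ∑ u, PowerSeries.trunc T (flow N x u) * N u l).coeff T
      = PowerSeries.coeff T (flow N x l) ∧ ∀ k < T,
    (x l - PowerSeries.trunc T (flow N x l) + ∑ u, PowerSeries.trunc T (flow N x u) * N u l).coeff k
      = 0 := by
  have key : ∀ k ≤ T, PowerSeries.coeff k (flow N x l) =
      (x l).coeff k + (∑ u, PowerSeries.trunc T (flow N x u) * N u l).coeff k := fun k hk => by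
    rw [flow_eq hM h, map_add, coeff_coe, map_sum, finsetSum_coeff]
    congr 1
    refine sum_congr rfl fun u _ => ?_
    rw [PowerSeries.coeff_mul, coeff_mul]
    refine sum_congr rfl fun p hp => ?_
    rw [coeff_coe, PowerSeries.coeff_trunc]
    split_ifs with e
    · rfl
    · have : p.2 = 0 := by have := mem_antidiagonal.1 hp; omega
      rw [this, h.c0, mul_zero, mul_zero]
  have lt : ∀ k < T, (x l - PowerSeries.trunc T (flow N x l) +
      ∑ u, PowerSeries.trunc T (flow N x u) * N u l).coeff k = 0 := fun k hk => by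
    rw [coeff_add, coeff_sub, PowerSeries.coeff_trunc, if_pos hk, key k hk.le]
    ring
  refine ⟨fun k => ?_, ?_, lt⟩
  · by_cases hk : k < T
    · exact (lt k hk).ge
    · rw [coeff_add, coeff_sub, PowerSeries.coeff_trunc, if_neg hk, sub_zero]
      refine add_nonneg (hx l k) (n1_sum (fun u _ => N1.mul (fun j => ?_) (h.1 u l)) k)
      rw [PowerSeries.coeff_trunc]
      split_ifs
      exacts [flow_nn hM h hx u j, le_rfl]
  · rw [coeff_add, coeff_sub, PowerSeries.coeff_trunc, if_neg (lt_irrefl _), sub_zero, key T le_rfl]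

/-- the flow does not reach a state whose incoming edges are deep -/
theorem flow_deep (hM : Moves) (h : Hs N) {x : I → ℤ[X]} {a : I} (hx : x a = 0) {T : ℕ}
    (hd : ∀ u, u ≠ a → X ^ T ∣ N u a) : PowerSeries.trunc T (flow N x a) = 0 := by
  have : ∀ k, k < T → PowerSeries.coeff k (flow N x a) = 0 := fun k => by
    induction k using Nat.strong_induction_on with
    | _ k ih =>
      intro hk
      rw [flow_eq hM h, hx, Polynomial.coe_zero, zero_add, map_sum]
      refine sum_eq_zero fun u _ => ?_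
      rw [PowerSeries.coeff_mul]
      refine sum_eq_zero fun p hp => ?_
      have hp := mem_antidiagonal.1 hp
      rw [coeff_coe]
      by_cases e : u = a
      · subst e
        by_cases e2 : p.2 = 0
        · rw [e2, h.c0, mul_zero]
        · rw [ih p.1 (by omega) (by omega), zero_mul]
      · rw [X_pow_dvd_iff.1 (hd u e) p.2 (by omega), mul_zero]
  ext k
  rw [PowerSeries.coeff_trunc]
  split_ifs with e
  exacts [this k e, rfl]

end Green

section Cert

/-- evaluation at a real number -/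
noncomputable def ev (σ : ℝ) : ℤ[X] →+* ℝ := eval₂RingHom (Int.castRingHom ℝ) σ

theorem ev_eq (σ : ℝ) (p : ℤ[X]) : ev σ p = ∑ k ∈ p.support, (p.coeff k : ℝ) * σ ^ k := by
  simp [ev, eval₂_eq_sum, Polynomial.sum]

theorem nz_ev {σ : ℝ} (h : 0 ≤ σ) {p : ℤ[X]} (hp : N1 p) : nz σ p = ev σ p := by
  rw [nz_eq subset_rfl, ev_eq]
  exact sum_congr rfl fun k _ => abs_of_nonneg (mul_nonneg (by exact_mod_cast hp k) (by positivity))

theorem ev_pos {σ : ℝ} (h : 0 < σ) {p : ℤ[X]} (hp : N1 p) (h0 : p ≠ 0) : 0 < ev σ p := by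
  rw [ev_eq]
  refine sum_pos (fun k hk => mul_pos ?_ (by positivity)) (support_nonempty.2 h0)
  exact_mod_cast lt_of_le_of_ne (hp k) (mem_support_iff.1 hk).symm

theorem ev_cont (p : ℤ[X]) : Continuous fun σ => ev σ p := by
  simp only [ev_eq]
  fun_prop

theorem cert_of {N : Matrix I I ℤ[X]} (h : NN N) {σ : ℝ} (h0 : 0 < σ) {r : I → ℝ}
    (hr : ∀ i, 0 < r i) (har : ∀ i, ∑ l, ev σ (N i l) * r l = r i) (z : I)
    (hz : ∀ j, j ≠ z → Relation.TransGen (fun u v => N u v ≠ 0) j z) :
    ∃ ρ η p, σ < ρ ∧ 0 < η ∧ Cert ρ η z N p := by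
  have nn : ∀ i l, 0 ≤ ev σ (N i l) := fun i l => nz_ev h0.le (h i l) ▸ nz_nonneg _
  let q : ℕ → I → ℝ := fun n => Nat.rec r (fun _ y j => ∑ l ∈ univ.erase z, ev σ (N j l) * y l) n
  have qs : ∀ n j, q (n + 1) j = ∑ l ∈ univ.erase z, ev σ (N j l) * q n l := fun _ _ => rfl
  have q1 : ∀ j, q 1 j + ev σ (N j z) * r z = r j := fun j => by
    rw [← har j, ← sum_erase_add _ _ (mem_univ z)]; rfl
  have q0 : ∀ n j, 0 ≤ q n j := fun n => by
    induction n with
    | zero => exact fun j => (hr j).le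
    | succ n ih => exact fun j => sum_nonneg fun l _ => mul_nonneg (nn _ _) (ih l)
  have dec : ∀ n j, q (n + 1) j ≤ q n j := fun n => by
    induction n with
    | zero =>
      intro j
      change q 1 j ≤ r j
      linarith [q1 j, mul_nonneg (nn j z) (hr z).le]
    | succ n ih => exact fun j => sum_le_sum fun l _ => mul_le_mul_of_nonneg_left (ih l) (nn _ _)
  have anti : ∀ j, Antitone fun n => q n j := fun j => antitone_nat_of_succ_le fun n => dec n j
  have st : ∀ j, Relation.TransGen (fun u v => N u v ≠ 0) j z → ∃ n, q n j < r j := fun j hj => by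
    have base : ∀ j, N j z ≠ 0 → ∃ n, q n j < r j := fun j e =>
      ⟨1, by linarith [q1 j, mul_pos (ev_pos h0 (h j z) e) (hr z)]⟩
    induction hj using Relation.TransGen.head_induction_on with
    | single e => exact base _ e
    | @head a b e _ ih =>
      by_cases hb : b = z
      · exact base _ (hb ▸ e)
      obtain ⟨n, hn⟩ := ih
      refine ⟨n + 1, lt_of_lt_of_le ?_ (dec 0 a)⟩
      rw [qs, qs]
      exact sum_lt_sum (fun l _ => mul_le_mul_of_nonneg_left (anti l (Nat.zero_le n)) (nn _ _))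
        ⟨b, by simp [hb], mul_lt_mul_of_pos_left hn (ev_pos h0 (h a b) e)⟩
  obtain ⟨n, hn⟩ : ∃ n, ∀ j, j ≠ z → q (n + 1) j < r j := by
    have : ∀ j, ∃ n, j ≠ z → q n j < r j := fun j => by
      by_cases e : j = z
      · exact ⟨0, fun h => absurd e h⟩
      · exact (st j (hz j e)).imp fun _ h _ => h
    choose n hn using this
    exact ⟨univ.sup n, fun j e => lt_of_le_of_lt
      (anti j ((le_sup (mem_univ j)).trans (Nat.le_succ _))) (hn j e)⟩
  let p : I → ℝ := fun j => ∑ i ∈ range (n + 1), q i j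
  have p0 : ∀ j, 0 < p j := fun j =>
    sum_pos' (fun i _ => q0 i j) ⟨0, by simp, hr j⟩
  have lt : ∀ j, j ≠ z → ∑ l ∈ univ.erase z, ev σ (N j l) * p l < p j := fun j e => by
    have : ∑ l ∈ univ.erase z, ev σ (N j l) * p l = ∑ i ∈ range (n + 1), q (i + 1) j := by
      simp only [p, mul_sum, qs]
      exact sum_comm
    have e2 := sum_range_succ' (fun i => q i j) (n + 1)
    rw [sum_range_succ] at e2
    rw [this]
    linarith [hn j e, show q 0 j = r j from rfl]
  have ev1 : ∀ᶠ y : ℝ × ℝ in nhds (σ, 0), ∀ j, j ≠ z →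
      ∑ l ∈ univ.erase z, ev y.1 (N j l) * p l < (1 - y.2) * p j := by
    refine Filter.eventually_all.2 fun j => ?_
    by_cases e : j = z
    · exact Filter.Eventually.of_forall fun _ h => absurd e h
    refine (ContinuousAt.eventually_lt (f := fun y : ℝ × ℝ =>
      ∑ l ∈ univ.erase z, ev y.1 (N j l) * p l) (g := fun y : ℝ × ℝ => (1 - y.2) * p j)
      (Continuous.continuousAt ?_) (by fun_prop) (by simpa using lt j e)).mono fun _ h _ => h
    exact continuous_finsetSum _ fun l _ => ((ev_cont _).comp continuous_fst).mul continuous_const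
  have t : Filter.Tendsto (fun ε : ℝ => (σ + ε, ε)) (nhdsWithin 0 (Set.Ioi 0)) (nhds (σ, 0)) := by
    refine tendsto_nhdsWithin_of_tendsto_nhds ?_
    have : Continuous fun ε : ℝ => (σ + ε, ε) := by fun_prop
    simpa using this.tendsto 0
  obtain ⟨ε, h1, h2⟩ := ((t.eventually ev1).and self_mem_nhdsWithin).exists
  have h2 : 0 < ε := h2
  refine ⟨σ + ε, ε, p, by linarith, h2, p0, fun j e => ?_⟩
  rw [sum_congr rfl fun l _ => by rw [nz_ev (by linarith) (h j l)]]
  exact (h1 j e).le

end Cert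

end Pool.Agent.MP_993212_an.H18
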