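import Pool.Agent.MP_993212_an.H18.WSpec

/-! The statement on the creation of the hub, for a nonempty set of states. -/

namespace Pool.Agent.MP_993212_an.H18

open Matrix Polynomial Finset H16 H92 H15

/-- ROW HUB: creation of the hub `none` with a prescribed class -/
def HubStmt2 : Prop :=
  ∀ (V G : Type) [Fintype V] [DecidableEq V] [AddCommGroup G] [Module ℤ[X] G] (A : Matrix V V ℕ)
    (ι : V → G) (lam : ℝ) (x : V → ℝ) (u : V → ℕ) (m : ℕ), H16.Prim A → Nonempty V → 1 < lam →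
    (∀ v, 0 < x v) →
    A.map (Nat.cast : ℕ → ℝ) *ᵥ x = lam • x → act (pen (zz A)) ι = 0 → (∀ v, 2 ≤ u v) → 1 ≤ m →
    ∃ (N : Matrix (Option (Option V)) (Option (Option V)) ℤ[X]) (ξ : Option (Option V) → G)
      (ρ η : ℝ) (p : Option (Option V) → ℝ), Eqv (pen (zz A)) 0 ι (1 - N) 0 ξ ∧ Hs N ∧
      ξ none = ∑ v, ((u v : ℤ[X]) * X ^ m) • ι v ∧ (∀ v, ξ (some (some v)) = ι v) ∧
      lam⁻¹ < ρ ∧ 0 < η ∧ Cert ρ η none N p ∧ Inv0 none N ∧ (∀ j, ¬Snk N j) ∧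
      ∀ j, j ≠ none → N none j ≠ 0

end Pool.Agent.MP_993212_an.H18
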