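import Pool.Agent.MP_993212_an.H18.Hub
import Pool.Agent.MP_993212_an.H18.WSpec2

/-! Creation of the hub: the certificate. -/

set_option linter.unusedSectionVars false

namespace Pool.Agent.MP_993212_an.H18

open Matrix Polynomial Finset H16 H92
open H15 hiding cf

theorem exists_col {V : Type} [Fintype V] [DecidableEq V] [Nonempty V] {A : Matrix V V ℕ}
    {lam : ℝ} {x : V → ℝ} (hl : 1 < lam) (hx : ∀ v, 0 < x v) (h : cr A *ᵥ x = lam • x) :
    ∃ v, 2 ≤ ∑ a, A a v := by
  by_contra hc
  have hc : ∀ v, (∑ a, (A a v : ℝ)) ≤ 1 := fun v => by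
    have : ∑ a, A a v ≤ 1 := by have := not_exists.1 hc v; omega
    exact_mod_cast this
  have h1 : lam * ∑ a, x a = ∑ v, (∑ a, (A a v : ℝ)) * x v := by
    simp only [mul_sum, sum_mul]
    rw [sum_comm]
    exact sum_congr rfl fun a _ => (congrFun h a).symm
  have h2 : ∑ v, (∑ a, (A a v : ℝ)) * x v ≤ ∑ v, x v :=
    sum_le_sum fun v _ => by nlinarith [hc v, hx v]
  have h3 : 0 < ∑ v, x v := sum_pos (fun v _ => hx v) univ_nonempty
  nlinarith

theorem hub_of (hM : Moves) : HubStmt2 := by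
  intro V G _ _ _ _ A ι lam x u m hA hV hl hx hAx hι hu hm
  obtain ⟨v1, hv1⟩ := exists_col hl hx hAx
  obtain ⟨v0, -, hv0⟩ := exists_ne_zero_of_sum_ne_zero (s := univ) (f := fun a => A a v1)
    (by omega)
  obtain ⟨B, hB⟩ : ∃ B : Matrix V V ℕ, ∀ a l, A a l = B a l + if a = v0 ∧ l = v1 then 1 else 0 := by
    refine ⟨of fun a l => A a l - if a = v0 ∧ l = v1 then 1 else 0, fun a l => ?_⟩
    rw [of_apply]
    split_ifs with h
    · rw [h.1, h.2]; omega
    · rfl
  have hBA : ∀ a l, A a l ≠ 0 → B a l ≠ 0 ∨ a = v0 ∧ l = v1 := fun a l h => by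
    by_contra hc
    rw [not_or, not_not] at hc
    rw [hB, hc.1, if_neg hc.2] at h
    exact h rfl
  obtain ⟨n, hn1, hn⟩ := hA
  have hP : H18.Prim A := ⟨hV, n, hn1, fun u v => (hn u v).ne'⟩
  have f1 : ∀ k l, (A ^ k) v1 l ≠ 0 → ∃ d, (B ^ d) v1 l ≠ 0 := fun k => by
    induction k with
    | zero => exact fun l h => ⟨0, by simpa using h⟩
    | succ k ih =>
      intro l h
      rw [pow_succ] at h
      obtain ⟨a, h1, h2⟩ := exists_of_mul_ne_zero h
      rcases hBA a l h2 with e | e
      · obtain ⟨d, hd⟩ := ih a h1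
        exact ⟨d + 1, pw_add' hd (by simpa using e)⟩
      · exact ⟨0, by simp [e.2]⟩
  have f2 : ∃ a, B a v1 ≠ 0 := by
    by_contra hc
    have hc : ∀ a, B a v1 = 0 := fun a => by simpa using not_exists.1 hc a
    simp [hB, hc] at hv1
  have gr : ∀ U : ℕ, ∀ᶠ i in Filter.atTop, U ≤ (A ^ i) v1 v0 := fun U => by
    obtain ⟨c, N, hc, hg⟩ := hP.growth (by linarith) hx hAx
    have t := (tendsto_pow_atTop_atTop_of_one_lt hl).const_mul_atTop hc
    filter_upwards [t.eventually_ge_atTop U, Filter.eventually_ge_atTop N] with i h1 h2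
    exact_mod_cast h1.trans (hg i h2 v1 v0)
  obtain ⟨N, H, n1, n2, n3, n4, n5, E⟩ := hub_core hM A B v0 v1 u m hB hu hm
    (fun l => f1 n l (hn v1 l).ne') f2 gr
  have t0 : Relation.TransGen (fun a b => N a b ≠ 0) (some (some v0)) none :=
    .head n2 (.single n1)
  have f3 : ∀ k l, (A ^ k) l v0 ≠ 0 →
      Relation.TransGen (fun a b => N a b ≠ 0) (some (some l)) none := fun k => by
    induction k with
    | zero =>
      intro l h
      obtain rfl : l = v0 := by by_contra e; simp [one_apply, e] at h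
      exact t0
    | succ k ih =>
      intro l h
      rw [pow_succ'] at h
      obtain ⟨a, h1, h2⟩ := exists_of_mul_ne_zero h
      rcases hBA l a h1 with e | e
      · exact .head (n3 _ _ e) (ih a h2)
      · rw [e.1]; exact t0
  have hz : ∀ j, j ≠ none → Relation.TransGen (fun a b => N a b ≠ 0) j none := by
    rintro (_ | _ | v) hj
    exacts [absurd rfl hj, .single n1, f3 n v (hn v v0).ne']
  have l0 : 0 < lam := by linarith
  have li : 0 < lam⁻¹ := inv_pos.2 l0
  obtain ⟨r, r0, hr⟩ : ∃ r : Option (Option V) → ℝ, (∀ i, 0 < r i) ∧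
      ∀ i, ∑ l, ev lam⁻¹ (N i l) * r l = r i := by
    letI : Module ℤ[X] ℝ := Module.compHom ℝ (ev lam⁻¹)
    have sm : ∀ (p : ℤ[X]) (a : ℝ), p • a = ev lam⁻¹ p * a := fun _ _ => rfl
    have evX : ev lam⁻¹ X = lam⁻¹ := by simp [ev]
    have q := (E ℝ x (by
      funext i
      have e : ∑ j, (A i j : ℝ) * x j = lam * x i := congrFun hAx i
      simp only [act, sm, pen, Matrix.sub_apply, Matrix.smul_apply, map_apply, zz_apply, map_sub,
        smul_eq_mul, map_mul, evX, map_natCast, sub_mul, sum_sub_distrib, one_apply,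
        mul_assoc, ← mul_sum, e, Pi.zero_apply, apply_ite (ev lam⁻¹),
        map_one, map_zero, ite_mul, one_mul, zero_mul, sum_ite_eq, mem_univ, if_true]
      field_simp
      ring)).rel'
    refine ⟨fun i => i.elim (∑ v, ((u v : ℤ[X]) * X ^ m) • x v) fun i => i.elim (x v1) x, ?_,
      fun i => ?_⟩
    · rintro (_ | _ | v)
      · refine sum_pos (fun v _ => ?_) univ_nonempty
        have : (0 : ℝ) < u v := by exact_mod_cast lt_of_lt_of_le two_pos (hu v)
        simp only [sm, map_mul, map_pow, map_natCast, evX]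
        exact mul_pos (mul_pos this (pow_pos li _)) (hx v)
      · exact hx v1
      · exact hx v
    · have := congrFun q i
      simp only [act, Matrix.sub_apply, sub_smul, sum_sub_distrib, one_apply, ite_smul, one_smul,
        zero_smul, sum_ite_eq, mem_univ, if_true, Pi.zero_apply, sub_eq_zero] at this
      exact this.symm
  obtain ⟨ρ, η, p, h1, h2, h3⟩ := cert_of H.1 li r0 hr none hz
  refine ⟨N, _, ρ, η, p, E G ι hι, H, rfl, fun _ => rfl, h1, h2, h3,
    ⟨fun j hj => .inr (hz j hj), fun j hj => .inr (n5 j hj), _, by simp, n4⟩, fun j hs => ?_, n5⟩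
  by_cases e : j = none
  · exact n5 (some none) (by simp) (e ▸ hs _)
  · obtain ⟨b, hb, -⟩ := Relation.TransGen.head'_iff.1 (hz j e)
    exact hb (hs b)

end Pool.Agent.MP_993212_an.H18
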