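import Pool.Agent.MP_993212_an.H18.Phase2

set_option linter.unusedSectionVars false

namespace Pool.Agent.MP_993212_an.H18

open Matrix H16

variable {U W : Type} [Fintype U] [Fintype W] [DecidableEq U] [DecidableEq W]

theorem zle_mul {A B : Matrix U W ℤ} (h : ∀ u w, A u w ≤ B u w) (D : Matrix W W ℕ) (u : U)
    (w : W) : (A * zz D) u w ≤ (B * zz D) u w :=
  Finset.sum_le_sum fun b _ => mul_le_mul_of_nonneg_right (h u b) (Int.natCast_nonneg _)

theorem zmul_nonneg {A : Matrix U W ℤ} (h : ∀ u w, 0 ≤ A u w) (D : Matrix W W ℕ) (u : U)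
    (w : W) : 0 ≤ (A * zz D) u w :=
  Finset.sum_nonneg fun b _ => mul_nonneg (h u b) (Int.natCast_nonneg _)

theorem Dead.back {P : Matrix U U ℕ} {hole : ℕ → U → W → Prop} {n1 s : ℕ} {w : W}
    (hu : ∀ u a b, P u a ≠ 0 → P u b ≠ 0 → a = b) {i : ℕ} {u u' : U} (h : (P ^ i) u u' ≠ 0)
    (hd : Dead P hole n1 s u' w) : Dead P hole n1 (s + i) u w := by
  induction i generalizing u with
  | zero => rw [pw_zero_eq h]; exact hd
  | succ i ih =>
    rw [add_comm] at h
    obtain ⟨b, h1, h2⟩ := pw_split h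
    refine Dead.step _ _ _ fun a ha => ?_
    rw [hu u a b ha (by simpa using h1)]
    exact ih h2

theorem win_nonneg {P : Matrix U U ℕ} {D : Matrix W W ℕ} {L : ℕ} {v : W → ℝ} {l : ℝ} {μ : U → ℝ}
    (hP : Irr P) (hD : Irr D) (hL : Idem D L) (hl : 0 < l) (hv0 : ∀ w, 0 < v w)
    (hv : cr D *ᵥ v = l • v) (hμ0 : ∀ u, 0 < μ u)
    (hμ : ∀ u', ∑ u, μ u * (P u u' : ℝ) ≤ l * μ u')
    (hc : 1 < l ∨ ∀ u a b, P u a ≠ 0 → P u b ≠ 0 → a = b)
    {X Y : Matrix U W ℕ} {Z : Matrix U W ℤ} (he : Eqn P D X Y Z) (hZ : ∀ u w, 0 ≤ Z u w)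
    (hs : ∀ u w, Z u w ≠ 0 → Good P D L 0 Y u w) : Win P D X Y Z := by
  classical
  have wit : ∀ o : U × W, ∃ (i j : ℕ) (u' : U) (w' : W), Good P D L 0 Y o.1 o.2 →
      (P ^ i) o.1 u' ≠ 0 ∧ Y u' w' ≠ 0 ∧ (D ^ j) w' o.2 ≠ 0 ∧ i + j + 1 ≡ 0 [MOD L] := by
    intro o
    by_cases h : Good P D L 0 Y o.1 o.2
    · obtain ⟨i, j, u', w', h⟩ := h
      exact ⟨i, j, u', w', fun _ => h⟩
    · exact ⟨0, 0, o.1, o.2, fun h' => absurd h' h⟩
  choose i j u' w' hw using wit
  have hi : ∀ o, i o ≤ ∑ o, i o := fun o =>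
    Finset.single_le_sum (f := i) (fun _ _ => Nat.zero_le _) (Finset.mem_univ o)
  have path : ∀ t u w, Good P D L (t + 1) Y u w → ∃ w0, Good P D L 0 Y u w0 ∧
      ∀ b, L ≤ b → b + i (u, w0) ≡ t [MOD L] → (D ^ b) (w' (u, w0)) w ≠ 0 := by
    intro t u w h
    obtain ⟨w0, h0⟩ := hD.inn_pow (t + 1) w
    obtain ⟨r, hr⟩ := hD w w0
    have g := Good.unfwd (k := 0) (by rwa [zero_add]) hL.1 h0 hr
    refine ⟨w0, g, fun b hb e => ?_⟩
    obtain ⟨-, -, h3, h4⟩ := hw (u, w0) g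
    refine hL.adjust hD (pw_add h3 h0) (Nat.ModEq.add_right_cancel' (i (u, w0)) ?_) hb
    rw [show j (u, w0) + (t + 1) + i (u, w0) = i (u, w0) + j (u, w0) + 1 + t by ring]
    exact (by simpa using h4.add_right t : _ ≡ t [MOD L]).trans e.symm
  have hal : ∀ k u a w, P u a ≠ 0 → Good P D L k Y a w → Good P D L (k + 1) Y u w :=
    fun k u a w h g => g.bwd (pw_one h)
  rcases hc with hc | hc
  swap
  · refine phase2 hP hD hL hl hv0 hv hμ0 hμ (fun k => Good P D L k Y) hal Y (fun n1 => ?_) he hZ hs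
    refine ⟨n1 + ∑ o, i o + L + 1, by omega, fun u w g => ?_⟩
    obtain ⟨w0, g0, h1⟩ := path _ u w g
    obtain ⟨h2, h3, -, -⟩ := hw (u, w0) g0
    have h4 := hi (u, w0)
    obtain ⟨b, hb⟩ : ∃ b, n1 + ∑ o, i o + L = b + i (u, w0) :=
      ⟨n1 + ∑ o, i o + L - i (u, w0), by omega⟩
    rw [hb, add_right_comm]
    refine Dead.back hc h2 (Dead.hole _ _ _ (by omega) ?_)
    exact mul_ne_zero_of h3 (h1 b (by omega) (by rw [hb]))
  obtain ⟨c, hc0, hg⟩ := growth hD hL hl hv0 hv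
  obtain ⟨m0, hm0⟩ := pow_unbounded_of_one_lt ((Fintype.card (U × W) : ℝ) / c) hc
  have hL1 := hL.1
  have big : ∀ w, Fintype.card (U × W) ≤ (D ^ (L * (m0 + 1))) w w := by
    intro w
    have h1 := hg (L * (m0 + 1)) (by nlinarith) w w (pw_cyc (hL.refl' hD w) _)
    have h2 : l ^ m0 ≤ l ^ (L * (m0 + 1)) := pow_le_pow_right₀ hc.le (by nlinarith)
    rw [div_lt_iff₀ hc0] at hm0
    have : (Fintype.card (U × W) : ℝ) ≤ (D ^ (L * (m0 + 1))) w w := by nlinarith
    exact_mod_cast this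
  let E : U × W → Matrix U W ℕ := fun o =>
    if Good P D L 0 Y o.1 o.2 then Matrix.single (u' o) (w' o) 1 else 0
  let A : ℕ → Matrix U W ℕ := fun k => ∑ o, if k < i o then P ^ k * E o else 0
  let B : ℕ → Matrix U W ℕ := fun k =>
    ∑ o, if k < i o then 0 else P ^ i o * E o * D ^ (k - i o)
  have AB : ∀ k, P * A k + B k * D = A (k + 1) + B (k + 1) := by
    intro k
    simp only [A, B, Matrix.mul_sum, Matrix.sum_mul, ← Finset.sum_add_distrib]
    refine Finset.sum_congr rfl fun o _ => ?_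
    rcases lt_trichotomy (k + 1) (i o) with h | h | h
    · simp [h, show k < i o by omega, pow_succ', Matrix.mul_assoc]
    · simp [← h, pow_succ', Matrix.mul_assoc]
    · rw [if_neg (by omega), if_neg (by omega), if_neg (by omega), if_neg (by omega),
        show k + 1 - i o = k - i o + 1 by omega, pow_succ]
      simp [Matrix.mul_assoc]
  have Ene : ∀ o a b, E o a b ≠ 0 → Good P D L 0 Y o.1 o.2 ∧ a = u' o ∧ b = w' o := by
    intro o a b h
    simp only [E] at h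
    split_ifs at h with g
    · rw [Matrix.single_apply] at h
      split_ifs at h with e
      · exact ⟨g, e.1.symm, e.2.symm⟩
      · exact absurd rfl h
    · exact absurd rfl h
  have Asupp : ∀ k u w, A k u w ≠ 0 → Good P D L (k + 1) Y u w := by
    intro k u w h
    simp only [A, Matrix.sum_apply] at h
    obtain ⟨o, -, h⟩ := Finset.exists_ne_zero_of_sum_ne_zero h
    split_ifs at h
    · obtain ⟨a, h1, h2⟩ := exists_of_mul_ne_zero h
      obtain ⟨g, rfl, rfl⟩ := Ene o a w h2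
      rw [add_comm]
      exact (Good.self (hw o g).2.1).bwd h1
    · exact absurd rfl h
  have fwd1 : ∀ k (Z : Matrix U W ℤ), (∀ u w, Z u w ≠ 0 → Good P D L k Y u w) →
      ∀ u w, (Z * zz D) u w ≠ 0 → Good P D L (k + 1) Y u w := by
    intro k Z h u w h1
    obtain ⟨b, h2, h3⟩ := exists_of_mul_ne_zero h1
    exact (h u b h2).fwd (pw_one (zz_ne.1 h3))
  have red : ∀ m u w, Good P D L (L * m) Y u w → Good P D L 0 Y u w := fun m u w g =>
    g.congr (by simpa using modEq_mul 0 L m)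
  refine Win.play (fun k X Y' Z => Eqn P D X Y' Z ∧ (∀ u w, 0 ≤ Z u w) ∧
    (∀ u w, (Y * D ^ k) u w ≤ Y' u w) ∧ ∀ u w, Z u w ≠ 0 → Good P D L k Y u w) (L * (m0 + 1))
    ?_ ?_ X Y Z ⟨he, hZ, fun u w => by simp, hs⟩
  · rintro k - X Y' Z ⟨e1, e2, e3, e4⟩
    refine ⟨0, X, 0, Y', (zero_add _).symm, (zero_add _).symm, fun H => Or.inl ⟨?_, ?_, ?_, ?_⟩⟩
    · exact Eqn.step (by rwa [zero_add, zero_add]) H
    · simpa [zz_zero] using zmul_nonneg e2 D
    · intro u w
      rw [pow_succ, ← Matrix.mul_assoc, Matrix.add_apply, Matrix.add_apply]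
      have := le_mul_right e3 D u w
      omega
    · simpa only [zz_zero, sub_zero, add_zero] using fwd1 k Z e4
  rintro X Y' Z ⟨e1, e2, e3, e4⟩
  refine Win.play (fun k X Y' Z => Eqn P D X Y' Z ∧ (∀ u w, 0 ≤ Z u w) ∧
    (∀ u w, (A k + B k) u w ≤ Y' u w) ∧ ∀ u w, Z u w ≠ 0 → Good P D L k Y u w)
    (L * ∑ o, i o) ?_ ?_ X Y' Z ⟨e1, e2, fun u w => ?_, fun u w h => red _ u w (e4 u w h)⟩
  · rintro k - X Y' Z ⟨e1, e2, e3, e4⟩
    have eY : Y' = A k + Matrix.of fun u w => Y' u w - A k u w := by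
      ext u w
      have := e3 u w
      simp only [Matrix.add_apply, Matrix.of_apply] at this ⊢
      omega
    refine ⟨0, X, A k, _, (zero_add _).symm, eY, fun H => Or.inl ⟨?_, ?_, ?_, ?_⟩⟩
    · exact Eqn.step (by rwa [zero_add, ← eY]) H
    · intro u w
      have := zmul_nonneg e2 D u w
      simp only [zz_zero, sub_zero, Matrix.add_apply, zz_apply]
      omega
    · intro u w
      rw [← AB]
      have := le_mul_right (A := B k) (B := Matrix.of fun u w => Y' u w - A k u w) (fun u w => by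
        have := e3 u w
        simp only [Matrix.add_apply, Matrix.of_apply] at this ⊢
        omega) D u w
      simp only [Matrix.add_apply]
      omega
    · intro u w h
      simp only [zz_zero, sub_zero, Matrix.add_apply, zz_apply] at h
      by_cases h1 : (Z * zz D) u w = 0
      · exact Asupp k u w (by omega)
      · exact fwd1 k Z e4 u w h1
  · rintro X Y1 Z ⟨e1, e2, e3, e4⟩
    refine phase2 hP hD hL hl hv0 hv hμ0 hμ (fun k => Good P D L k Y) hal Y1 (fun n1 => ?_) e1 e2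
      fun u w h => red _ u w (e4 u w h)
    refine ⟨n1 + L + 1, by omega, fun u w g => Dead.hole _ _ _ (by omega) ?_⟩
    obtain ⟨w0, g0, h1⟩ := path _ u w g
    obtain ⟨h2, -, -, -⟩ := hw (u, w0) g0
    have h4 : i (u, w0) ≤ L * ∑ o, i o := by nlinarith [hi (u, w0)]
    have h5 := h1 (L * ∑ o, i o - i (u, w0) + (n1 + L)) (by omega) (by
      rw [show L * ∑ o, i o - i (u, w0) + (n1 + L) + i (u, w0) = n1 + L + L * ∑ o, i o by omega]
      exact modEq_mul _ _ _)
    obtain ⟨b, h6, h7⟩ := pw_split h5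
    refine mul_ne_zero_of (v := b) ?_ h7
    have h8 : (P ^ i (u, w0) * E (u, w0) * D ^ (L * ∑ o, i o - i (u, w0))) u b ≠ 0 :=
      mul_ne_zero_of (mul_ne_zero_of h2 (by simp [E, g0])) h6
    have h9 : (P ^ i (u, w0) * E (u, w0) * D ^ (L * ∑ o, i o - i (u, w0))) u b ≤
        B (L * ∑ o, i o) u b := by
      simp only [B, Matrix.sum_apply]
      refine le_trans ?_ (Finset.single_le_sum (fun _ _ => Nat.zero_le _) (Finset.mem_univ (u, w0)))
      rw [if_neg (by omega)]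
    have := e3 u b
    rw [Matrix.add_apply] at this
    omega
  · have h0 : A 0 + B 0 = ∑ o, E o := by
      simp only [A, B, ← Finset.sum_add_distrib]
      refine Finset.sum_congr rfl fun o _ => ?_
      by_cases h : 0 < i o
      · simp [h]
      · simp [show i o = 0 by omega]
    rw [h0, Matrix.sum_apply]
    by_cases h : ∃ o, E o u w ≠ 0
    · obtain ⟨o, h⟩ := h
      obtain ⟨g, rfl, rfl⟩ := Ene o u w h
      have h1 : ∑ o', E o' (u' o) (w' o) ≤ Fintype.card (U × W) := by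
        rw [← Finset.card_univ, Finset.card_eq_sum_ones]
        refine Finset.sum_le_sum fun o' _ => ?_
        simp only [E]
        split_ifs
        · rw [Matrix.single_apply]; split_ifs <;> omega
        · simp
      refine h1.trans ((big (w' o)).trans (le_trans ?_ (e3 _ _)))
      refine le_trans ?_ (Finset.single_le_sum
        (f := fun b => Y (u' o) b * (D ^ (L * (m0 + 1))) b (w' o))
        (fun _ _ => Nat.zero_le _) (Finset.mem_univ (w' o)))
      exact Nat.le_mul_of_pos_left _ (Nat.pos_of_ne_zero (hw o g).2.1)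
    · simp only [not_exists, not_not] at h
      simp [h]

theorem uniq_succ {P : Matrix U U ℕ} (hP : Irr P) {ν : U → ℝ} {l : ℝ} (hν : ∀ u, 0 < ν u)
    (h : cr P *ᵥ ν = l • ν) (hl : l ≤ 1) (u a b : U) (ha : P u a ≠ 0) (hb : P u b ≠ 0) :
    a = b := by
  obtain ⟨u0, -, h0⟩ := Finset.exists_min_image Finset.univ ν ⟨u, Finset.mem_univ u⟩
  have row : ∀ u, ∑ v, (P u v : ℝ) * ν v = l * ν u := fun u => congrFun h u
  have one : ∀ u a, P u a ≠ 0 → ν a ≤ (P u a : ℝ) * ν a := fun u a h =>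
    le_mul_of_one_le_left (hν a).le (by exact_mod_cast Nat.pos_of_ne_zero h)
  have nn : ∀ u a, 0 ≤ (P u a : ℝ) * ν a := fun u a => mul_nonneg (by positivity) (hν a).le
  have mn : ∀ k a, (P ^ k) u0 a ≠ 0 → ν a ≤ ν u0 := by
    intro k
    induction k with
    | zero => intro a h; rw [pw_zero_eq h]
    | succ k ih =>
      intro a h
      obtain ⟨c, h1, h2⟩ := pw_split h
      have h3 := Finset.single_le_sum (fun v _ => nn c v) (Finset.mem_univ a)
      rw [row] at h3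
      nlinarith [one c a (by simpa using h2), ih c h1, hν c]
  by_contra hab
  obtain ⟨k, hk⟩ := hP u0 u
  have h1 : ∑ v ∈ {a, b}, (P u v : ℝ) * ν v ≤ ∑ v, (P u v : ℝ) * ν v :=
    Finset.sum_le_sum_of_subset_of_nonneg (Finset.subset_univ _) fun v _ _ => nn u v
  rw [row, Finset.sum_pair hab] at h1
  nlinarith [one u a ha, one u b hb, mn _ u hk, h0 a (Finset.mem_univ a), hν b, hν u]

theorem win_le {P : Matrix U U ℕ} {D : Matrix W W ℕ} {L : ℕ} {v : W → ℝ} {l : ℝ} {μ : U → ℝ}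
    (hP : Irr P) (hD : Irr D) (hL : Idem D L) (hl : 0 < l) (hv0 : ∀ w, 0 < v w)
    (hv : cr D *ᵥ v = l • v) (hμ0 : ∀ u, 0 < μ u)
    (hμ : ∀ u', ∑ u, μ u * (P u u' : ℝ) ≤ l * μ u')
    (hc : 1 < l ∨ ∀ u a b, P u a ≠ 0 → P u b ≠ 0 → a = b)
    {X Y : Matrix U W ℕ} {Z : Matrix U W ℤ} (h : GInv P D L X Y Z) : Win P D X Y Z := by
  obtain ⟨K, m, hK⟩ := phase1_alg hD hL hl hv0 hv h.1 fun u w hZ => h.good hD hZ
  refine Win.play (fun k X Y' Z' => GInv P D L X Y' Z' ∧
    (∀ u w, (Z * zz D ^ k + zz (ns P D Y k) : Matrix U W ℤ) u w ≤ Z' u w) ∧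
    ∀ u w, (P ^ k * Y) u w ≤ Y' u w) K ?_ ?_ X Y Z
    ⟨h, fun u w => by simp [ns, zz_zero], fun u w => by simp⟩
  · rintro k - X Y' Z' ⟨e1, e2, e3⟩
    refine ⟨0, X, Y', 0, (zero_add _).symm, (add_zero _).symm, fun H => Or.inl ⟨?_, ?_, ?_⟩⟩
    · exact GInv.step hP hL.1 (by rwa [zero_add, add_zero]) H
    · intro u w
      have e : Z * zz D ^ (k + 1) + zz (ns P D Y (k + 1)) =
          (Z * zz D ^ k + zz (ns P D Y k)) * zz D + zz (P ^ k * Y) := by
        simp only [ns, zz_add, zz_mul, pow_succ, Matrix.add_mul, Matrix.mul_assoc, add_assoc]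
      have h1 := zle_mul e2 D u w
      have h2 := e3 u w
      rw [e]
      simp only [zz_zero, sub_zero, Matrix.add_apply, zz_apply]
      omega
    · intro u w
      rw [pow_succ', Matrix.mul_assoc, Matrix.add_apply, Matrix.add_apply]
      have := le_mul_left e3 P u w
      omega
  rintro X Y' Z' ⟨e1, e2, -⟩
  refine Win.play (fun k X Y' Z' => GInv P D L X Y' Z' ∧ ∀ u w,
    ((Z * zz D ^ K + zz (ns P D Y K)) * zz D ^ k : Matrix U W ℤ) u w ≤ Z' u w) m ?_ ?_ X Y' Z'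
    ⟨e1, by simpa using e2⟩
  · rintro k - X Y' Z' ⟨e1, e2⟩
    refine ⟨0, X, 0, Y', (zero_add _).symm, (zero_add _).symm, fun H => Or.inl ⟨?_, ?_⟩⟩
    · exact GInv.step hP hL.1 (by rwa [zero_add, zero_add]) H
    · intro u w
      rw [pow_succ, ← Matrix.mul_assoc]
      simpa only [zz_zero, sub_zero, add_zero] using zle_mul e2 D u w
  rintro X Y' Z' ⟨e1, e2⟩
  exact win_nonneg hP hD hL hl hv0 hv hμ0 hμ hc e1.1 (fun u w => (hK u w).trans (e2 u w))
    fun u w hZ => (e1.good hD hZ).2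

theorem perron_both [Nonempty U] {P : Matrix U U ℕ} (hP : Irr P) :
    ∃ (l : ℝ) (ν μ : U → ℝ), 1 ≤ l ∧ (∀ u, 0 < ν u) ∧ (∀ u, 0 < μ u) ∧ cr P *ᵥ ν = l • ν ∧
      cr Pᵀ *ᵥ μ = l • μ := by
  obtain ⟨l, ν, h1, h2, h3⟩ := exists_perron P (fun u v => let ⟨_, h⟩ := hP u v; ⟨_, h⟩) hP.out
  obtain ⟨l', μ, -, h5, h6⟩ := exists_perron Pᵀ
    (fun u v => let ⟨_, h⟩ := hP.transpose u v; ⟨_, h⟩) hP.transpose.out
  refine ⟨l, ν, μ, h1, h2, h5, h3, ?_⟩
  have e1 : μ ⬝ᵥ (cr P *ᵥ ν) = (cr Pᵀ *ᵥ μ) ⬝ᵥ ν := by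
    rw [Matrix.dotProduct_mulVec, ← Matrix.mulVec_transpose]; rfl
  rw [h3, h6, dotProduct_smul, smul_dotProduct, smul_eq_mul, smul_eq_mul] at e1
  have : 0 < μ ⬝ᵥ ν := Finset.sum_pos (fun u _ => mul_pos (h5 u) (h2 u)) Finset.univ_nonempty
  rw [mul_right_cancel₀ this.ne' e1, h6]

/-- the game between two irreducible blocks is won -/
theorem win_pair {P : Matrix U U ℕ} {D : Matrix W W ℕ} {L : ℕ} (hP : Irr P) (hD : Irr D)
    (hLP : Idem P L) (hLD : Idem D L) {X Y : Matrix U W ℕ} {Z : Matrix U W ℤ}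
    (h : GInv P D L X Y Z) : Win P D X Y Z := by
  cases isEmpty_or_nonempty U with
  | inl _ => rw [Subsingleton.elim Z 0]; exact Win.zero _ _
  | inr _ =>
  cases isEmpty_or_nonempty W with
  | inl _ => rw [Subsingleton.elim Z 0]; exact Win.zero _ _
  | inr _ =>
  obtain ⟨l, ν, μ, a1, a2, a3, a4, a5⟩ := perron_both hP
  obtain ⟨l', ν', μ', b1, b2, b3, b4, b5⟩ := perron_both hD
  rcases le_total l l' with hl | hl
  · refine win_le hP hD hLD (by linarith) b2 b4 a3 (fun u' => ?_) ?_ h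
    · have : ∑ u, (P u u' : ℝ) * μ u = l * μ u' := congrFun a5 u'
      simp only [mul_comm (μ _)]
      nlinarith [a3 u']
    · by_cases h1 : 1 < l'
      · exact Or.inl h1
      · exact Or.inr (uniq_succ hP a2 a4 (by linarith))
  · have := win_le (P := Dᵀ) (D := Pᵀ) (X := Yᵀ) (Y := Xᵀ) (Z := Zᵀ) hD.transpose hP.transpose
      hLP.transpose (by linarith) a3 a5 b2 (fun u' => ?_) ?_
      (GInv.of_good h.1.transpose fun w u hZ =>
        ⟨(h.good hD hZ).2.transpose, (h.good hD hZ).1.transpose⟩)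
    · simpa using this.transpose h.1.transpose
    · have : ∑ u, (D u' u : ℝ) * ν' u = l' * ν' u' := congrFun b4 u'
      simp only [mul_comm (ν' _), Matrix.transpose_apply]
      nlinarith [b2 u']
    · by_cases h1 : 1 < l
      · exact Or.inl h1
      · exact Or.inr (uniq_succ hD.transpose b3 b5 (by linarith))

end Pool.Agent.MP_993212_an.H18
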