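import Pool.Agent.MP_993212_an.H18.Global
import Pool.Agent.MP_993212_an.H46.Iface

set_option linter.unusedSectionVars false

namespace Pool.Agent.MP_993212_an.H18

open Matrix H16 H46

variable {U U' W W' : Type} [Fintype U] [Fintype U'] [Fintype W] [Fintype W'] [DecidableEq U]
  [DecidableEq U'] [DecidableEq W] [DecidableEq W']

theorem blocks_pow (P : Matrix U U ℕ) (X : Matrix U W ℕ) (D : Matrix W W ℕ) (n : ℕ) :
    ∃ Xn, fromBlocks P X 0 D ^ n = fromBlocks (P ^ n) Xn 0 (D ^ n) := by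
  induction n with
  | zero => exact ⟨0, by simp⟩
  | succ n ih =>
    obtain ⟨Xn, h⟩ := ih
    exact ⟨P ^ n * X + Xn * D, by simp [pow_succ, h, fromBlocks_multiply]⟩

theorem good_of_pow {P : Matrix U U ℕ} {X : Matrix U W ℕ} {D : Matrix W W ℕ} {n : ℕ} {u : U}
    {w : W} (L : ℕ) (h : (fromBlocks P X 0 D ^ n) (Sum.inl u) (Sum.inr w) ≠ 0) :
    Good P D L n X u w := by
  induction n generalizing w with
  | zero => exact absurd (pw_zero_eq h) (by simp)
  | succ n ih =>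
    obtain ⟨b | b, h1, h2⟩ := pw_split h
    · obtain ⟨Xn, e⟩ := blocks_pow P X D n
      rw [e] at h1
      rw [add_comm]
      exact (Good.self (by simpa using h2)).bwd h1
    · exact (ih h1).fwd (pw_one (by simpa using h2))

theorem Good.unbwd {P : Matrix U U ℕ} {X : Matrix U W ℕ} {D : Matrix W W ℕ} {L k i : ℕ}
    {u u' : U} {w : W} (h : Good P D L (k + i) X u' w) (hL : 1 ≤ L) (hP : Irr P)
    (h1 : (P ^ i) u' u ≠ 0) : Good P D L k X u w := by
  obtain ⟨r, hr⟩ := hP u u'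
  obtain ⟨r', m, h3, e⟩ := pw_return h1 hr hL
  refine (h.bwd h3).congr ?_
  rw [add_assoc, e]
  exact modEq_mul _ _ _

theorem ab_ne {m n : Type} {R : Matrix m n ℤ} {i : m} {j : n} : ab R i j ≠ 0 ↔ R i j ≠ 0 := by
  simp [ab]

theorem Pat.left {A : Matrix U U ℕ} {B : Matrix W W ℕ} {R : Matrix U W ℤ} {S : Matrix W U ℤ}
    {l : ℕ} (h : Pat A B R S l) {i : ℕ} {u v : U} {w w' : W} (h1 : R u w ≠ 0)
    (h2 : (B ^ i) w w' ≠ 0) (h3 : S w' v ≠ 0) : (A ^ (l + i)) u v ≠ 0 :=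
  (h i).1 u v (mul_ne_zero_of (mul_ne_zero_of (ab_ne.2 h1) h2) (ab_ne.2 h3))

theorem Pat.right {A : Matrix U U ℕ} {B : Matrix W W ℕ} {R : Matrix U W ℤ} {S : Matrix W U ℤ}
    {l : ℕ} (h : Pat A B R S l) {i : ℕ} {u v : U} {w w' : W} (h1 : S w u ≠ 0)
    (h2 : (A ^ i) u v ≠ 0) (h3 : R v w' ≠ 0) : (B ^ (l + i)) w w' ≠ 0 :=
  (h i).2 w w' (mul_ne_zero_of (mul_ne_zero_of (ab_ne.2 h1) h2) (ab_ne.2 h3))

theorem zpw_ne {A : Matrix U U ℕ} {k : ℕ} {a b : U} : (zz A ^ k) a b ≠ 0 ↔ (A ^ k) a b ≠ 0 := by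
  rw [← zz_pow, zz_ne]

theorem peel {P : Matrix U U ℕ} {X : Matrix U W ℕ} {D : Matrix W W ℕ} {P' : Matrix U' U' ℕ}
    {X' : Matrix U' W' ℕ} {D' : Matrix W' W' ℕ} {R1 : Matrix U U' ℤ} {Z : Matrix U W' ℤ}
    {R2 : Matrix W W' ℤ} {S1 : Matrix U' U ℤ} {Z' : Matrix U' W ℤ} {S2 : Matrix W' W ℤ} {l : ℕ}
    (hz : ZSE (fromBlocks P X 0 D) (fromBlocks P' X' 0 D') (fromBlocks R1 Z 0 R2)
      (fromBlocks S1 Z' 0 S2) l)
    (hp : Pat (fromBlocks P X 0 D) (fromBlocks P' X' 0 D') (fromBlocks R1 Z 0 R2)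
      (fromBlocks S1 Z' 0 S2) l)
    (hP : Irr P) (hP' : Irr P') (h1 : Real P P' R1) (h2 : Real D D' R2) :
    Real (fromBlocks P X 0 D) (fromBlocks P' X' 0 D') (fromBlocks R1 Z 0 R2) := by
  obtain ⟨T1, c1, x, T2, c2, e1, e2⟩ : ∃ T1, Ch P P' T1 ∧ ∃ x T2, Ch D D' T2 ∧
      zz T1 = zz P ^ x * R1 ∧ zz T2 = zz D ^ x * R2 := by
    obtain ⟨T1, c1, a1, b1, e1⟩ := h1
    obtain ⟨T2, c2, a2, b2, e2⟩ := h2
    refine ⟨_, (Ch.pow P (a2 + b1)).trans c1, a1 + a2, _, (Ch.pow D (a1 + b2)).trans c2, ?_, ?_⟩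
    · rw [zz_mul, zz_pow, pow_add, Matrix.mul_assoc, ← e1, ← Matrix.mul_assoc, ← pow_add, add_comm]
    · rw [zz_mul, zz_pow, pow_add, Matrix.mul_assoc, ← e2, ← Matrix.mul_assoc, ← pow_add]
  obtain ⟨z1, z2, z3, z4⟩ := hz
  obtain ⟨Xx, ex⟩ := blocks_pow P X D x
  obtain ⟨Xl, el⟩ := blocks_pow P X D l
  obtain ⟨Xl', el'⟩ := blocks_pow P' X' D' l
  set A := fromBlocks P X 0 D with hA
  set B := fromBlocks P' X' 0 D' with hB
  have eR : zz A ^ x * fromBlocks R1 Z 0 R2 =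
      fromBlocks (zz T1) (zz P ^ x * Z + zz Xx * R2) 0 (zz T2) := by
    rw [← zz_pow, ex, e1, e2]
    simp [zz_blocks, zz_zero, zz_pow, fromBlocks_multiply]
  set Z0 := zz P ^ x * Z + zz Xx * R2 with hZ0
  have eq : Eqn P D' (X * T2) (T1 * X') Z0 := by
    have h3 : zz A * (zz A ^ x * fromBlocks R1 Z 0 R2) =
        (zz A ^ x * fromBlocks R1 Z 0 R2) * zz B := by
      rw [Matrix.mul_assoc, ← z1, ← Matrix.mul_assoc, ← Matrix.mul_assoc, ← pow_succ, ← pow_succ']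
    rw [eR, hA, hB] at h3
    simp only [zz_blocks, zz_zero, fromBlocks_multiply, fromBlocks_inj] at h3
    simpa only [Eqn, zz_mul] using h3.2.1
  have r1 : R1 * S1 = zz P ^ l := by
    rw [← zz_pow, el] at z3
    simp only [zz_blocks, fromBlocks_multiply, fromBlocks_inj] at z3
    simpa [zz_pow] using z3.1
  have s1 : S1 * zz T1 = zz P' ^ (x + l) ∧ S2 * zz T2 = zz D' ^ (x + l) := by
    have h3 : fromBlocks S1 Z' 0 S2 * (zz A ^ x * fromBlocks R1 Z 0 R2) = zz B ^ (x + l) := by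
      rw [← Matrix.mul_assoc, H12.pow_inter' z2, Matrix.mul_assoc, z4, pow_add]
    obtain ⟨Y, e⟩ := blocks_pow P' X' D' (x + l)
    rw [eR, ← zz_pow, e] at h3
    simp only [zz_blocks, fromBlocks_multiply, fromBlocks_inj] at h3
    exact ⟨by simpa [zz_pow] using h3.1, by simpa [zz_pow] using h3.2.2.2⟩
  obtain ⟨L, hLP, hLD⟩ := exists_idem2 P D'
  have l1 := lift_bot c2 P X
  have l2 := lift_top c1 D' X'
  have bB : ∀ j a b, (D' ^ j) a b ≠ 0 → (B ^ j) (Sum.inr a) (Sum.inr b) ≠ 0 := by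
    intro j a b h
    obtain ⟨Y, e⟩ := blocks_pow P' X' D' j
    rw [e]; exact h
  have ph : Phi P D' (X * T2) (T1 * X') Z0 := by
    refine phi_of_inv hP hLP hLD ⟨eq, fun u w j w1 c hZ hc hj => ?_⟩
    obtain ⟨v, v1, v2⟩ := exists_of_mul_ne_zero
      (show (zz A ^ x * fromBlocks R1 Z 0 R2) (Sum.inl u) (Sum.inr w) ≠ 0 by rw [eR]; exact hZ)
    rw [zpw_ne] at v1
    constructor
    · have h3 := pw_cyc hc (x + l + 1)
      rw [show (c + 1) * (x + l + 1) = (x + l) + (c * (x + l + 1) + 1) by ring] at h3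
      obtain ⟨w2, h4, h5⟩ := pw_split h3
      obtain ⟨v', h6, h7⟩ := exists_of_mul_ne_zero
        (show (S2 * zz T2) w1 w2 ≠ 0 by rw [s1.2, zpw_ne]; exact h4)
      have h8 := pw_add v1 (Pat.left hp v2 (bB j w w1 hj) (v := Sum.inr v') h6)
      have h9 : (A ^ (x + (l + j)) * fromBlocks (1 : Matrix U U ℕ) 0 0 T2) (Sum.inl u)
          (Sum.inr w2) ≠ 0 := mul_ne_zero_of h8 (zz_ne.1 h7)
      rw [l1.inter_pow] at h9
      obtain ⟨b | b, g1, g2⟩ := exists_of_mul_ne_zero h9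
      · obtain rfl : u = b := by
          by_contra g3
          exact g1 (Matrix.one_apply_ne g3)
        exact Good.unfwd (by rw [show j + (x + l) = x + (l + j) by ring]; exact good_of_pow L g2)
          hLP.1 h4 h5
      · exact absurd rfl g1
    · obtain ⟨a, ha⟩ := hP.inn_pow l u
      obtain ⟨uB, -, h3⟩ := exists_of_mul_ne_zero
        (show (R1 * S1) a u ≠ 0 by rw [r1, zpw_ne]; exact ha)
      obtain ⟨a', ha'⟩ := hP'.inn_pow (x + l) uB
      obtain ⟨u', -, h4⟩ := exists_of_mul_ne_zero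
        (show (S1 * zz T1) a' uB ≠ 0 by rw [s1.1, zpw_ne]; exact ha')
      have h5 := pw_add (Pat.right hp (w := Sum.inl uB) (u := Sum.inl u) h3 v1 v2) (bB j w w1 hj)
      have h6 : (fromBlocks T1 0 0 (1 : Matrix W' W' ℕ) * B ^ (l + x + j)) (Sum.inl u')
          (Sum.inr w1) ≠ 0 := mul_ne_zero_of (v := Sum.inl uB) (zz_ne.1 h4) h5
      rw [← l2.inter_pow] at h6
      rw [e1] at h4
      obtain ⟨u'', h7, h8⟩ := exists_of_mul_ne_zero h4
      have h9 := Pat.left hp (u := Sum.inl u'') (v := Sum.inl u) (w := Sum.inl uB) h8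
        (pw_zero _ _) h3
      rw [add_zero, el] at h9
      obtain ⟨b | b, g1, g2⟩ := exists_of_mul_ne_zero h6
      · exact absurd rfl g2
      · obtain rfl : b = w1 := by
          by_contra g3
          exact g2 (Matrix.one_apply_ne g3)
        exact Good.unbwd (by rw [show j + (x + l) = l + x + j by ring]; exact good_of_pow L g1)
          hLP.1 hP (pw_add (zpw_ne.1 h7) h9)
  refine ((l1.real.trans ph).trans l2.real).of_eq (a := x) (b := 0) ?_
  rw [eR]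
  simp [zz_blocks, zz_zero, zz_one, fromBlocks_multiply]

theorem peel_src {X : Matrix U W ℕ} {D : Matrix W W ℕ} {X' : Matrix U' W' ℕ}
    {D' : Matrix W' W' ℕ} {Z : Matrix U W' ℤ} {R2 : Matrix W W' ℤ} (h2 : Real D D' R2) :
    Real (fromBlocks (0 : Matrix U U ℕ) X 0 D) (fromBlocks (0 : Matrix U' U' ℕ) X' 0 D')
      (fromBlocks 0 Z 0 R2) := by
  have c1 := Ch.single (fromRows X D) (fromCols (0 : Matrix W U ℕ) (1 : Matrix W W ℕ))
  have c2 := Ch.single (fromCols (0 : Matrix W' U' ℕ) (1 : Matrix W' W' ℕ)) (fromRows X' D')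
  simp only [fromRows_mul_fromCols, fromCols_mul_fromRows, Matrix.mul_zero, Matrix.zero_mul,
    Matrix.mul_one, Matrix.one_mul, zero_add] at c1 c2
  refine ((c1.real.trans h2).trans c2.real).of_eq (a := 1) (b := 0) ?_
  ext (a | a) (b | b) <;>
    simp [zz_blocks, zz_zero, Matrix.mul_apply, zz_apply, Matrix.one_apply]

end Pool.Agent.MP_993212_an.H18
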