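import Pool.Agent.MP_993212_an.H18.Game

set_option linter.unusedSectionVars false

namespace Pool.Agent.MP_993212_an.H18

open Matrix H16 Filter Topology

theorem series_pos {O : Type} [Fintype O] [DecidableEq O] (T : Matrix O O ℝ)
    (hT : ∀ a b, 0 ≤ T a b) (x y z : O → ℝ) (hx : ∀ a, 0 ≤ x a) (hy : ∀ a, 0 ≤ y a)
    (e : z = T *ᵥ z + x - y) (hz : ∀ b, z b ≠ 0 → ∃ j, 0 < ((T ^ j) *ᵥ y) b) (a : O)
    (ha : ∃ j, 0 < ((T ^ j) *ᵥ x) a) :
    ∃ K, 0 < z a + ∑ i ∈ Finset.range K, ((T ^ i) *ᵥ y) a := by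
  by_contra hno
  simp only [not_exists, not_lt] at hno
  have nn : ∀ (f : O → ℝ), (∀ a, 0 ≤ f a) → ∀ i a, 0 ≤ ((T ^ i) *ᵥ f) a := fun f hf i a =>
    Finset.sum_nonneg fun b _ => mul_nonneg (pow_nonneg' hT i a b) (hf b)
  have hs : Summable fun i => ((T ^ i) *ᵥ y) a :=
    summable_of_sum_range_le (c := -z a) (fun i => nn y hy i a) fun K => by linarith [hno K]
  have t0 := hs.tendsto_atTop_zero
  have t1 : ∀ b, Tendsto (fun n => (T ^ n) a b * z b) atTop (𝓝 0) := by
    intro b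
    by_cases hb : z b = 0
    · simp [hb]
    obtain ⟨j, hj⟩ := hz b hb
    have t2 : Tendsto (fun n => ((T ^ (n + j)) *ᵥ y) a / ((T ^ j) *ᵥ y) b) atTop (𝓝 0) := by
      simpa using ((tendsto_add_atTop_iff_nat j).2 t0).div_const (((T ^ j) *ᵥ y) b)
    have t3 : Tendsto (fun n => (T ^ n) a b) atTop (𝓝 0) := by
      refine squeeze_zero (fun n => pow_nonneg' hT n a b) (fun n => ?_) t2
      rw [le_div_iff₀ hj, pow_add, ← Matrix.mulVec_mulVec]
      exact Finset.single_le_sum (f := fun c => (T ^ n) a c * ((T ^ j) *ᵥ y) c)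
        (fun c _ => mul_nonneg (pow_nonneg' hT n a c) (nn y hy j c)) (Finset.mem_univ b)
    simpa using t3.mul_const (z b)
  have t4 : Tendsto (fun n => ((T ^ n) *ᵥ z) a) atTop (𝓝 0) := by
    simpa [Matrix.mulVec, dotProduct] using tendsto_finsetSum Finset.univ fun b _ => t1 b
  have id : ∀ n, z a + ∑ i ∈ Finset.range n, ((T ^ i) *ᵥ y) a =
      ((T ^ n) *ᵥ z) a + ∑ i ∈ Finset.range n, ((T ^ i) *ᵥ x) a := by
    intro n
    induction n with
    | zero => simp
    | succ n ih =>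
      have h1 : (T ^ n) *ᵥ z = (T ^ (n + 1)) *ᵥ z + (T ^ n) *ᵥ x - (T ^ n) *ᵥ y := by
        conv_lhs => rw [e]
        rw [Matrix.mulVec_sub, Matrix.mulVec_add, Matrix.mulVec_mulVec, ← pow_succ]
      have h2 := congrFun h1 a
      simp only [Pi.add_apply, Pi.sub_apply] at h2
      rw [Finset.sum_range_succ, Finset.sum_range_succ]
      linarith
  obtain ⟨j, hj⟩ := ha
  have : (0 : ℝ) ≤ -((T ^ j) *ᵥ x) a := by
    refine le_of_tendsto t4 (eventually_atTop.2 ⟨j + 1, fun n hn => ?_⟩)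
    have h1 : ((T ^ j) *ᵥ x) a ≤ ∑ i ∈ Finset.range n, ((T ^ i) *ᵥ x) a :=
      Finset.single_le_sum (f := fun i => ((T ^ i) *ᵥ x) a) (fun i _ => nn x hx i a)
        (Finset.mem_range.2 hn)
    linarith [hno n, id n]
  linarith

variable {U V W : Type} [Fintype U] [Fintype V] [Fintype W] [DecidableEq U] [DecidableEq V]
  [DecidableEq W]

/-- the real matrix of an integer matrix -/
def zr {m n : Type} (Z : Matrix m n ℤ) : Matrix m n ℝ := Z.map (Int.cast : ℤ → ℝ)

@[simp] theorem zr_apply {m n : Type} (Z : Matrix m n ℤ) (i : m) (j : n) :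
    zr Z i j = (Z i j : ℝ) := rfl

theorem zr_mul (A : Matrix U V ℤ) (B : Matrix V W ℤ) : zr (A * B) = zr A * zr B := by
  ext u w; simp [Matrix.mul_apply]

theorem zr_add (A B : Matrix U V ℤ) : zr (A + B) = zr A + zr B := by
  ext u w; simp

theorem zr_zz (A : Matrix U V ℕ) : zr (zz A) = cr A := by
  ext u w; simp [zz_apply]

/-- the Perron vector cut down to the class of `w` -/
noncomputable def vw (D : Matrix W W ℕ) (L : ℕ) (v : W → ℝ) (w : W) : W → ℝ :=
  fun w' => if (D ^ L) w w' ≠ 0 then v w' else 0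

theorem vw_eig {D : Matrix W W ℕ} {L : ℕ} {v : W → ℝ} {l : ℝ} (hD : Irr D) (hL : Idem D L)
    (hv : cr D *ᵥ v = l • v) {w w1 : W} (h : D w w1 ≠ 0) :
    cr D *ᵥ vw D L v w1 = l • vw D L v w := by
  funext a
  have key : ∀ b, D a b ≠ 0 → ((D ^ L) w a ≠ 0 ↔ (D ^ L) w1 b ≠ 0) := fun b hb =>
    hL.shift hD (pw_one h) (pw_one hb)
  by_cases ha : (D ^ L) w a ≠ 0
  · have : (l • vw D L v w) a = (l • v) a := by simp [vw, ha]
    rw [this, ← hv]
    refine Finset.sum_congr rfl fun b _ => ?_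
    by_cases hb : D a b = 0
    · simp [hb]
    · simp [vw, (key b hb).1 ha]
  · have : (l • vw D L v w) a = 0 := by simp only [vw, Pi.smul_apply, if_neg ha, smul_zero]
    rw [this]
    refine Finset.sum_eq_zero fun b _ => ?_
    by_cases hb : D a b = 0
    · simp [hb]
    · simp only [vw, if_neg fun h => ha ((key b hb).2 h), mul_zero]

/-- the amount added to the residual while all of `Y` is pushed backward -/
def ns (P : Matrix U U ℕ) (D : Matrix W W ℕ) (Y : Matrix U W ℕ) : ℕ → Matrix U W ℕ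
  | 0 => 0
  | k + 1 => ns P D Y k * D + P ^ k * Y

theorem phase1_alg {P : Matrix U U ℕ} {D : Matrix W W ℕ} {L : ℕ} {v : W → ℝ} {l : ℝ}
    (hD : Irr D) (hL : Idem D L) (hl : 0 < l) (hv0 : ∀ w, 0 < v w) (hv : cr D *ᵥ v = l • v)
    {X Y : Matrix U W ℕ} {Z : Matrix U W ℤ} (he : Eqn P D X Y Z)
    (hg : ∀ u w, Z u w ≠ 0 → Good P D L 0 X u w ∧ Good P D L 0 Y u w) :
    ∃ K m : ℕ, ∀ u w, 0 ≤ ((Z * zz D ^ K + zz (ns P D Y K)) * zz D ^ m : Matrix U W ℤ) u w := by
  choose s hs using hD.out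
  have hsk : ∀ k w, (D ^ k) w (s^[k] w) ≠ 0 := by
    intro k
    induction k with
    | zero => intro w; exact pw_zero _ _
    | succ k ih => intro w; rw [Function.iterate_succ_apply']; exact pw_add (ih w) (pw_one (hs _))
  have vw0 : ∀ w w', 0 ≤ vw D L v w w' := fun w w' => by
    unfold vw; split_ifs
    · exact (hv0 _).le
    · exact le_rfl
  let T : Matrix (U × W) (U × W) ℝ := fun a b => if b.2 = s a.2 then l⁻¹ * P a.1 b.1 else 0
  have hT : ∀ a b, 0 ≤ T a b := fun a b => by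
    simp only [T]; split_ifs
    · positivity
    · exact le_rfl
  have T1 : ∀ (f : U × W → ℝ) u w, (T *ᵥ f) (u, w) = l⁻¹ * ∑ u', (P u u' : ℝ) * f (u', s w) := by
    intro f u w
    simp only [Matrix.mulVec, dotProduct, T, Fintype.sum_prod_type, ite_mul, zero_mul,
      Finset.sum_ite_eq', Finset.mem_univ, if_true, Finset.mul_sum, mul_assoc]
  have Ti : ∀ (f : U × W → ℝ) i u w, ((T ^ i) *ᵥ f) (u, w) =
      l⁻¹ ^ i * ∑ u', ((P ^ i) u u' : ℝ) * f (u', s^[i] w) := by
    intro f i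
    induction i with
    | zero => intro u w; simp [Matrix.one_apply]
    | succ i ih =>
      intro u w
      rw [pow_succ' T, ← Matrix.mulVec_mulVec, T1, pow_succ' P, pow_succ' l⁻¹, mul_assoc]
      congr 1
      simp only [ih, Matrix.mul_apply, Function.iterate_succ_apply, Nat.cast_sum, Nat.cast_mul,
        Finset.mul_sum, Finset.sum_mul]
      rw [Finset.sum_comm]
      exact Finset.sum_congr rfl fun _ _ => Finset.sum_congr rfl fun _ _ => by ring
  let ev : Matrix U W ℕ → U × W → ℝ := fun M a => l⁻¹ * (cr M *ᵥ vw D L v (s a.2)) a.1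
  have ev0 : ∀ M a, 0 ≤ ev M a := fun M a =>
    mul_nonneg (by positivity) (Finset.sum_nonneg fun b _ => mul_nonneg (by simp) (vw0 _ _))
  have evT : ∀ M i u w, ((T ^ i) *ᵥ ev M) (u, w) =
      l⁻¹ ^ (i + 1) * (cr (P ^ i * M) *ᵥ vw D L v (s^[i + 1] w)) u := by
    intro M i u w
    rw [Ti, cr_mul, ← Matrix.mulVec_mulVec, pow_succ, mul_assoc, Function.iterate_succ_apply']
    congr 1
    simp only [ev, Matrix.mulVec, dotProduct, cr_apply]
    rw [Finset.mul_sum]
    exact Finset.sum_congr rfl fun _ _ => by ring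
  have evpos : ∀ M u w w', (D ^ L) w w' ≠ 0 → Good P D L 0 M u w' →
      ∃ j, 0 < ((T ^ j) *ᵥ ev M) (u, w) := by
    rintro M u w w' hw ⟨i, j, u1, w1, h1, h2, h3, h4⟩
    refine ⟨i, ?_⟩
    rw [evT]
    refine mul_pos (by positivity) (Finset.sum_pos' (fun b _ => mul_nonneg (by simp) (vw0 _ _))
      ⟨w1, Finset.mem_univ _, mul_pos ?_ ?_⟩)
    · simpa using Nat.pos_of_ne_zero (mul_ne_zero_of h1 h2)
    · have : (D ^ L) (s^[i + 1] w) w1 ≠ 0 := by
        refine hL.symm hD (hL.adjust hD (pw_add (pw_add h3 (hL.symm hD hw)) (hsk (i + 1) w)) ?_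
          le_rfl)
        rw [show j + L + (i + 1) = i + j + 1 + L by ring]
        simpa using h4.add_right L
      simpa only [vw, if_pos this] using hv0 w1
  let z : U × W → ℝ := fun a => (zr Z *ᵥ vw D L v a.2) a.1
  have ez : z = T *ᵥ z + ev X - ev Y := by
    funext ⟨u, w⟩
    have h1 := congrArg (fun M => (zr M *ᵥ vw D L v (s w)) u) he
    simp only [zr_add, zr_mul, zr_zz, Matrix.add_mulVec, ← Matrix.mulVec_mulVec,
      vw_eig hD hL hv (hs w), Matrix.mulVec_smul, Pi.add_apply, Pi.smul_apply, smul_eq_mul] at h1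
    simp only [Pi.sub_apply, Pi.add_apply, T1, ev, z]
    have h2 : (cr P *ᵥ zr Z *ᵥ vw D L v (s w)) u =
        ∑ u', (P u u' : ℝ) * (zr Z *ᵥ vw D L v (s w)) u' := rfl
    rw [← h2]
    field_simp
    linarith
  have zne : ∀ u w, z (u, w) ≠ 0 → ∃ w', (D ^ L) w w' ≠ 0 ∧ Z u w' ≠ 0 := by
    intro u w h
    obtain ⟨w', -, h1⟩ := Finset.exists_ne_zero_of_sum_ne_zero h
    refine ⟨w', ?_, by simpa using left_ne_zero_of_mul h1⟩
    by_contra h2
    exact right_ne_zero_of_mul h1 (by simp [vw, h2])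
  have pos : ∀ a : U × W, ∃ K, (∃ w', (D ^ L) a.2 w' ≠ 0 ∧ Z a.1 w' ≠ 0) →
      0 < z a + ∑ i ∈ Finset.range K, ((T ^ i) *ᵥ ev Y) a := by
    rintro ⟨u, w⟩
    by_cases h : ∃ w', (D ^ L) w w' ≠ 0 ∧ Z u w' ≠ 0
    · obtain ⟨w', h1, h2⟩ := h
      obtain ⟨K, hK⟩ := series_pos T hT _ _ z (ev0 X) (ev0 Y) ez (by
        rintro ⟨u1, w1⟩ h3
        obtain ⟨w2, h4, h5⟩ := zne u1 w1 h3
        exact evpos Y u1 w1 w2 h4 (hg u1 w2 h5).2) (u, w) (evpos X u w w' h1 (hg u w' h2).1)
      exact ⟨K, fun _ => hK⟩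
    · exact ⟨0, fun h' => absurd h' h⟩
  choose K0 hK0 using pos
  set K := L * (∑ a, K0 a + 1) with hK
  have hKle : ∀ a, K0 a ≤ K := fun a => by
    have h1 : K0 a ≤ ∑ a, K0 a :=
      Finset.single_le_sum (f := K0) (fun _ _ => Nat.zero_le _) (Finset.mem_univ a)
    have := hL.1
    nlinarith
  have idn : ∀ k u w, (zr (Z * zz D ^ k + zz (ns P D Y k)) *ᵥ vw D L v (s^[k] w)) u =
      l ^ k * (z (u, w) + ∑ i ∈ Finset.range k, ((T ^ i) *ᵥ ev Y) (u, w)) := by
    intro k u w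
    induction k with
    | zero => simp [ns, z, zz_zero]
    | succ k ih =>
      have e1 : Z * zz D ^ (k + 1) + zz (ns P D Y (k + 1)) =
          (Z * zz D ^ k + zz (ns P D Y k)) * zz D + zz (P ^ k * Y) := by
        simp only [ns, zz_add, zz_mul, pow_succ, Matrix.add_mul, Matrix.mul_assoc, add_assoc]
      rw [e1, zr_add, zr_mul, zr_zz, zr_zz, Matrix.add_mulVec, ← Matrix.mulVec_mulVec,
        Finset.sum_range_succ, evT, Function.iterate_succ_apply', vw_eig hD hL hv (hs _),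
        Matrix.mulVec_smul, Pi.add_apply, Pi.smul_apply, ih, smul_eq_mul, inv_pow]
      field_simp
      ring
  set M := Z * zz D ^ K + zz (ns P D Y K) with hM
  have hE : ∀ a b, 0 ≤ (cr D ^ L) a b := fun a b => by rw [← cr_pow]; simp
  have blk : ∀ a : U × W, ∃ k, ∀ w', (D ^ L) a.2 w' ≠ 0 →
      0 ≤ ((fun b => if (D ^ L) a.2 b ≠ 0 then zr M a.1 b else 0) ᵥ* (cr D ^ L) ^ k) w' := by
    rintro ⟨u, w⟩
    by_cases h : ∃ w', (D ^ L) w w' ≠ 0 ∧ Z u w' ≠ 0
    · obtain ⟨k, hk⟩ := rep_block hE hv0 (pow_mulVec_eig hv L) (fun b => (D ^ L) w b ≠ 0)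
        (fun a b ha hb => by
          rw [← cr_pow, cr_apply]
          exact_mod_cast Nat.pos_of_ne_zero (hL.trans (hL.symm hD ha) hb))
        (fun a b ha hb => by
          rw [← cr_pow, cr_apply]
          by_contra h1
          exact hb (hL.trans ha (by simpa using h1)))
        (fun b => if (D ^ L) w b ≠ 0 then zr M u b else 0) (fun b hb => if_neg hb) (by
          have h1 : vw D L v (s^[K] w) = vw D L v w := by
            have h2 : (D ^ L) w (s^[K] w) ≠ 0 := hL.of_mul (hsk K w) hK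
            funext b
            exact if_congr ⟨fun h3 => hL.trans h2 h3, fun h3 => hL.trans (hL.symm hD h2) h3⟩
              rfl rfl
          have h3 := idn K u w
          rw [h1] at h3
          have h4 : (fun b => if (D ^ L) w b ≠ 0 then zr M u b else 0) ⬝ᵥ v =
              (zr M *ᵥ vw D L v w) u :=
            Finset.sum_congr rfl fun b _ => by simp only [vw, ite_mul, mul_ite, zero_mul, mul_zero]
          rw [h4, h3]
          refine mul_pos (by positivity) (lt_of_lt_of_le (hK0 (u, w) h) ?_)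
          refine add_le_add le_rfl (Finset.sum_le_sum_of_subset_of_nonneg
            (Finset.range_mono (hKle _)) fun i _ _ => ?_)
          exact Finset.sum_nonneg fun b _ => mul_nonneg (pow_nonneg' hT i _ b) (ev0 Y b))
      exact ⟨k, fun w' hw' => (hk w' hw').le⟩
    · refine ⟨0, fun w' hw' => ?_⟩
      simp only [pow_zero, Matrix.vecMul_one, if_pos hw', zr_apply, hM, Matrix.add_apply]
      have : (Z * zz D ^ K) u w' = 0 := by
        by_contra h1
        obtain ⟨b, h2, h3⟩ := exists_of_mul_ne_zero h1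
        rw [← zz_pow, zz_ne] at h3
        exact h ⟨b, hL.trans hw' (hL.symm hD (hL.of_mul h3 hK)), h2⟩
      rw [this, zz_apply]
      positivity
  choose k0 hk0 using blk
  refine ⟨K, L * (∑ a, k0 a + 1), fun u w => ?_⟩
  obtain ⟨d, hd⟩ : ∃ d, ∑ a, k0 a + 1 = k0 (u, w) + d := Nat.exists_eq_add_of_le
    ((Finset.single_le_sum (f := k0) (fun _ _ => Nat.zero_le _) (Finset.mem_univ _)).trans
      (Nat.le_succ _))
  have h1 : zr (M * zz D ^ (L * (∑ a, k0 a + 1))) u w =
      ((fun b => if (D ^ L) w b ≠ 0 then zr M u b else 0) ᵥ* (cr D ^ L) ^ (∑ a, k0 a + 1)) w := by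
    rw [zr_mul, ← zz_pow, zr_zz, ← pow_mul, ← cr_pow]
    refine Finset.sum_congr rfl fun b _ => ?_
    by_cases hb : (D ^ (L * (∑ a, k0 a + 1))) b w = 0
    · simp [hb]
    · simp only [if_pos (hL.symm hD (hL.of_mul hb rfl))]
  have h2 : 0 ≤ zr (M * zz D ^ (L * (∑ a, k0 a + 1))) u w := by
    rw [h1, hd, pow_add, ← Matrix.vecMul_vecMul]
    refine Finset.sum_nonneg fun b _ => ?_
    by_cases hb : (D ^ L) w b ≠ 0
    · exact mul_nonneg (hk0 (u, w) b hb) (pow_nonneg' hE d b w)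
    · have : ((cr D ^ L) ^ d) b w = 0 := by
        rw [← pow_mul, ← cr_pow, cr_apply]
        by_contra h3
        refine hb (hL.symm hD (hL.of_mul (k := d) (pw_add (by simpa using h3) (hL.refl' hD w))
          (by ring)))
      simp [this]
  simpa using h2

end Pool.Agent.MP_993212_an.H18
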