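import Pool.Agent.MP_993212_an.H18.Phase1

set_option linter.unusedSectionVars false

namespace Pool.Agent.MP_993212_an.H18

open Matrix H16

variable {U W : Type} [Fintype U] [Fintype W] [DecidableEq U] [DecidableEq W]

/-- positions all of whose forward paths run into a hole after time `n1` -/
inductive Dead (P : Matrix U U ℕ) (hole : ℕ → U → W → Prop) (n1 : ℕ) : ℕ → U → W → Prop
  | hole (s : ℕ) (u : U) (w : W) : n1 ≤ s → hole s u w → Dead P hole n1 (s + 1) u w
  | step (s : ℕ) (u : U) (w : W) :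
      (∀ u', P u u' ≠ 0 → Dead P hole n1 s u' w) → Dead P hole n1 (s + 1) u w

theorem Dead.lt {P : Matrix U U ℕ} {hole : ℕ → U → W → Prop} {n1 s : ℕ} {u : U} {w : W}
    (hP : Irr P) (h : Dead P hole n1 s u w) : n1 < s := by
  induction h with
  | hole s u w h _ => omega
  | step s u w _ ih =>
    obtain ⟨u', hu⟩ := hP.out u
    have := ih u' hu
    omega

theorem growth {D : Matrix W W ℕ} {L : ℕ} {v : W → ℝ} {l : ℝ} (hD : Irr D) (hL : Idem D L)
    (hl : 0 < l) (hv0 : ∀ w, 0 < v w) (hv : cr D *ᵥ v = l • v) :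
    ∃ c : ℝ, 0 < c ∧ ∀ n, L ≤ n → ∀ a b, (D ^ n) a b ≠ 0 → c * l ^ n ≤ ((D ^ n) a b : ℝ) := by
  obtain ⟨c, hc, h⟩ := entry_growth hl hv0 hv L
  refine ⟨c, hc, fun n hn a b hab => ?_⟩
  obtain ⟨m, rfl⟩ : ∃ m, n = m + L := ⟨n - L, by omega⟩
  obtain ⟨w1, h1, h2⟩ := pw_split hab
  exact h m a b fun w hw => hL.trans ((hL.shift hD hw h1).1 (hL.refl' hD a)) h2

theorem greedy {P : Matrix U U ℕ} {D : Matrix W W ℕ} {X Y : Matrix U W ℕ} {Z : Matrix U W ℤ}
    (he : Eqn P D X Y Z) (hZ : ∀ u w, 0 ≤ Z u w) :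
    ∃ F G : Matrix U W ℕ, X = F + G ∧ ∀ u w,
      (Z * zz D - zz F + zz 0 : Matrix U W ℤ) u w = max ((zz P * Z) u w - Y u w) 0 := by
  refine ⟨fun u w => min (X u w) ((Z * zz D) u w).toNat,
    fun u w => X u w - min (X u w) ((Z * zz D) u w).toNat, ?_, fun u w => ?_⟩
  · ext u w
    rw [Matrix.add_apply]
    omega
  · have e := congrFun (congrFun he u) w
    have h0 : 0 ≤ (Z * zz D) u w :=
      Finset.sum_nonneg fun b _ => mul_nonneg (hZ u b) (Int.natCast_nonneg _)
    simp only [Matrix.add_apply, Matrix.sub_apply, zz_apply, Matrix.zero_apply] at e ⊢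
    omega

theorem le_mul_right {A B : Matrix U W ℕ} (h : ∀ u w, A u w ≤ B u w) (D : Matrix W W ℕ) (u : U)
    (w : W) : (A * D) u w ≤ (B * D) u w :=
  Finset.sum_le_sum fun b _ => Nat.mul_le_mul_right _ (h u b)

theorem le_mul_left {A B : Matrix U W ℕ} (h : ∀ u w, A u w ≤ B u w) (P : Matrix U U ℕ) (u : U)
    (w : W) : (P * A) u w ≤ (P * B) u w :=
  Finset.sum_le_sum fun b _ => Nat.mul_le_mul_left _ (h b w)

theorem phase2 {P : Matrix U U ℕ} {D : Matrix W W ℕ} {L : ℕ} {v : W → ℝ} {l : ℝ} {μ : U → ℝ}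
    (hP : Irr P) (hD : Irr D) (hL : Idem D L) (hl : 0 < l) (hv0 : ∀ w, 0 < v w)
    (hv : cr D *ᵥ v = l • v) (hμ0 : ∀ u, 0 < μ u)
    (hμ : ∀ u', ∑ u, μ u * (P u u' : ℝ) ≤ l * μ u') (al : ℕ → U → W → Prop)
    (hal : ∀ k u u' w, P u u' ≠ 0 → al k u' w → al (k + 1) u w) (Y1 : Matrix U W ℕ)
    (hH : ∀ n1, ∃ n, n1 ≤ n ∧ ∀ u w, al n u w →
      Dead P (fun s u w => (Y1 * D ^ s) u w ≠ 0) n1 n u w)
    {X : Matrix U W ℕ} {Z : Matrix U W ℤ} (he : Eqn P D X Y1 Z) (hZ : ∀ u w, 0 ≤ Z u w)
    (hs : ∀ u w, Z u w ≠ 0 → al 0 u w) : Win P D X Y1 Z := by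
  obtain ⟨c, hc, hg⟩ := growth hD hL hl hv0 hv
  obtain ⟨a, a2, ha, -, hab⟩ := exists_bounds μ hμ0
  let St : ℕ → Matrix U W ℕ → Matrix U W ℕ → Matrix U W ℤ → Prop := fun t X Y Z =>
    Eqn P D X Y Z ∧ (∀ u w, 0 ≤ Z u w) ∧ (∀ u w, (Y1 * D ^ t) u w ≤ Y u w) ∧
      ∀ u w, Z u w ≠ 0 → al t u w
  let pot : Matrix U W ℤ → ℝ := fun Z => ∑ w, ∑ u, μ u * (Z u w : ℝ)
  have potP : ∀ Z : Matrix U W ℤ, (∀ u w, 0 ≤ Z u w) → pot (zz P * Z) ≤ l * pot Z := by
    intro Z hZ
    simp only [pot, Finset.mul_sum]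
    refine Finset.sum_le_sum fun w _ => ?_
    simp only [Matrix.mul_apply, zz_apply, Int.cast_sum, Int.cast_mul, Int.cast_natCast,
      Finset.mul_sum]
    rw [Finset.sum_comm]
    refine Finset.sum_le_sum fun u' _ => ?_
    have h0 : (0 : ℝ) ≤ Z u' w := by exact_mod_cast hZ u' w
    have := mul_le_mul_of_nonneg_right (hμ u') h0
    rw [Finset.sum_mul] at this
    simpa only [mul_assoc] using this
  have key : ∀ (M : ℕ) t X Y Z, St t X Y Z → pot Z < M * (a * c / l) * l ^ t →
      Win P D X Y Z := by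
    intro M
    induction M with
    | zero =>
      intro t X Y Z h hp
      have : 0 ≤ pot Z := Finset.sum_nonneg fun w _ => Finset.sum_nonneg fun u _ =>
        mul_nonneg (hμ0 u).le (by exact_mod_cast h.2.1 u w)
      simp only [Nat.cast_zero, zero_mul] at hp
      linarith
    | succ M ih =>
      intro t X Y Z h hp
      obtain ⟨n, hn, hdead⟩ := hH (t + L)
      refine Win.play (fun k X Y Z => St (t + k) X Y Z ∧
        pot Z < (M + 1 : ℕ) * (a * c / l) * l ^ (t + k) ∧ ∀ u w,
          Dead P (fun s u w => (Y1 * D ^ s) u w ≠ 0) (t + L) (t + k) u w → Z u w = 0) (n - t)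
        ?_ ?_ X Y Z ⟨h, hp, fun u w hd => absurd (hd.lt hP) (by omega)⟩
      · rintro k - X Y Z ⟨⟨e1, e2, e3, e4⟩, e5, e6⟩
        obtain ⟨F, G, rfl, hF⟩ := greedy e1 e2
        refine ⟨F, G, 0, Y, rfl, (zero_add Y).symm, fun H => ?_⟩
        have PZ0 : ∀ u w, 0 ≤ (zz P * Z) u w := fun u w =>
          Finset.sum_nonneg fun b _ => mul_nonneg (Int.natCast_nonneg _) (e2 b w)
        have nz : ∀ u w, (Z * zz D - zz F + zz 0 : Matrix U W ℤ) u w ≠ 0 →
            ∃ u', P u u' ≠ 0 ∧ Z u' w ≠ 0 := by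
          intro u w h1
          have : (zz P * Z) u w ≠ 0 := by rw [hF] at h1; omega
          obtain ⟨u', h2, h3⟩ := exists_of_mul_ne_zero this
          exact ⟨u', zz_ne.1 h2, h3⟩
        have st : St (t + (k + 1)) (P * F + G * D + H) (P * (0 : Matrix U W ℕ) + Y * D + H)
            (Z * zz D - zz F + zz 0) := by
          refine ⟨?_, fun u w => ?_, fun u w => ?_, fun u w h1 => ?_⟩
          · exact Eqn.step (by rwa [zero_add]) H
          · rw [hF]; exact le_max_right _ _
          · rw [← add_assoc, pow_succ, ← Matrix.mul_assoc, Matrix.add_apply, Matrix.add_apply]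
            have := le_mul_right e3 D u w
            omega
          · obtain ⟨u', h2, h3⟩ := nz u w h1
            exact hal _ _ _ _ h2 (e4 _ _ h3)
        have le1 : ∀ u w, μ u * (((Z * zz D - zz F + zz 0 : Matrix U W ℤ) u w : ℤ) : ℝ) ≤
            μ u * (((zz P * Z) u w : ℤ) : ℝ) := by
          intro u w
          refine mul_le_mul_of_nonneg_left ?_ (hμ0 u).le
          have := PZ0 u w
          exact_mod_cast (by rw [hF]; omega)
        have lp : 0 < l ^ (t + k) := by positivity
        by_cases big : ∃ u w, t + L ≤ t + k ∧ (Y1 * D ^ (t + k)) u w ≠ 0 ∧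
            (Z * zz D - zz F + zz 0 : Matrix U W ℤ) u w ≠ 0
        · right
          obtain ⟨u, w, b1, b2, b3⟩ := big
          refine ih _ _ _ _ st ?_
          obtain ⟨w', b4, b5⟩ := exists_of_mul_ne_zero b2
          have b6 : (D ^ (t + k)) w' w ≤ Y u w := by
            refine le_trans ?_ (e3 u w)
            refine le_trans ?_ (Finset.single_le_sum (f := fun b => Y1 u b * (D ^ (t + k)) b w)
              (fun _ _ => Nat.zero_le _) (Finset.mem_univ w'))
            exact Nat.le_mul_of_pos_left _ (Nat.pos_of_ne_zero b4)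
          have b7 : c * l ^ (t + k) ≤ (Y u w : ℝ) :=
            (hg _ (by omega) _ _ b5).trans (by exact_mod_cast b6)
          have b8 : (((Z * zz D - zz F + zz 0 : Matrix U W ℤ) u w : ℤ) : ℝ) =
              (((zz P * Z) u w : ℤ) : ℝ) - (Y u w : ℝ) := by
            have : (Z * zz D - zz F + zz 0 : Matrix U W ℤ) u w = (zz P * Z) u w - Y u w := by
              rw [hF] at b3 ⊢; omega
            rw [this]; push_cast; rfl
          have b9 : pot (Z * zz D - zz F + zz 0) + a * (c * l ^ (t + k)) ≤ pot (zz P * Z) := by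
            have h1 : a * (c * l ^ (t + k)) ≤ ∑ w', ∑ u', (μ u' * (((zz P * Z) u' w' : ℤ) : ℝ) -
                μ u' * (((Z * zz D - zz F + zz 0 : Matrix U W ℤ) u' w' : ℤ) : ℝ)) := by
              refine le_trans ?_ (Finset.single_le_sum (fun w' _ => Finset.sum_nonneg fun u' _ =>
                sub_nonneg.2 (le1 u' w')) (Finset.mem_univ w))
              refine le_trans ?_ (Finset.single_le_sum (fun u' _ => sub_nonneg.2 (le1 u' w))
                (Finset.mem_univ u))
              rw [b8]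
              have := mul_le_mul (hab u).1 b7 (by positivity) (hμ0 u).le
              linarith
            simp only [Finset.sum_sub_distrib] at h1
            simp only [pot]
            linarith
          have b10 := potP Z e2
          have b11 := mul_lt_mul_of_pos_left e5 hl
          have e : l * ((M + 1 : ℕ) * (a * c / l) * l ^ (t + k)) =
              M * (a * c / l) * l ^ (t + (k + 1)) + a * (c * l ^ (t + k)) := by
            rw [← add_assoc, pow_succ]; push_cast; field_simp
          linarith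
        · left
          refine ⟨st, ?_, fun u w hd => ?_⟩
          · have b9 : pot (Z * zz D - zz F + zz 0) ≤ pot (zz P * Z) :=
              Finset.sum_le_sum fun w _ => Finset.sum_le_sum fun u _ => le1 u w
            have b10 := potP Z e2
            have b11 := mul_lt_mul_of_pos_left e5 hl
            have e : l * ((M + 1 : ℕ) * (a * c / l) * l ^ (t + k)) =
                (M + 1 : ℕ) * (a * c / l) * l ^ (t + (k + 1)) := by
              rw [← add_assoc, pow_succ]; ring
            linarith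
          · by_contra h1
            rw [← add_assoc] at hd
            cases hd with
            | hole _ _ _ h2 h3 => exact big ⟨u, w, h2, h3, h1⟩
            | step _ _ _ h2 =>
              obtain ⟨u', h3, h4⟩ := nz u w h1
              exact h4 (e6 _ _ (h2 u' h3))
      · rintro X Y Z ⟨⟨-, -, -, e4⟩, -, e6⟩
        rw [show t + (n - t) = n by omega] at e4 e6
        have : Z = 0 := by
          ext u w
          by_contra h1
          exact h1 (e6 u w (hdead u w (e4 u w h1)))
        rw [this]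
        exact Win.zero _ _
  obtain ⟨M, hM⟩ := exists_nat_gt (pot Z / (a * c / l))
  refine key M 0 X Y1 Z ⟨he, hZ, fun u w => by simp, hs⟩ ?_
  rwa [pow_zero, mul_one, ← div_lt_iff₀ (by positivity)]

end Pool.Agent.MP_993212_an.H18
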