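import Pool.Agent.MP_993212_an.H16.Spec4
import Pool.Agent.MP_993212_an.H16.SWAP

/-! The value of the exchange of two loops. -/

namespace Pool.Agent.MP_993212_an.H18

open Matrix Polynomial Function H16

theorem swValStmt (hB : Base) : SwValStmt := by
  intro s G _ _ _ _ k p o P ξ dg i j hk hp hkp h3 ho o1 hξ sm hij di dj
  have h0 : ∀ x, (dg x).coeff 0 = 1 := fun x => by
    have := X_pow_dvd_iff.1 (sm_iff.1 sm x x) 0 (by omega)
    rw [coeff_sub, o1, diagonal_apply_eq, if_pos rfl] at this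
    omega
  let e : Bool → s := fun b => cond b i j
  have he : Injective e := by
    rintro (_ | _) (_ | _) c
    exacts [rfl, absurd c hij.symm, absurd c hij, rfl]
  obtain ⟨G₀, _, _, o₁, β, oV, ξ₀, i1, i2, hβ, H⟩ := model hB e he h0
  let Q : Matrix Bool Bool ℤ[X] := diagonal fun _ => 1 - X ^ p
  have oQ : One Q := fun u v => by
    simp only [Q, diagonal_apply]
    split_ifs <;> simp [coeff_X_pow, show 0 ≠ p by omega]
  have dQ : Dg (p + 1) Q := fun u v => by
    simp only [Q, diagonal_apply]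
    split_ifs
    · exact (natDegree_sub_le _ _).trans (by simp)
    · simp
  obtain ⟨G₁, _, _, ζ, hζ⟩ := hB.tr.pres_ex Bool Q
  have hζ' : Pres Q (ζ ∘ not) := by
    have := hζ.equiv (Function.Involutive.toPerm not Bool.not_not)
    rwa [submatrix_diagonal_equiv] at this
  obtain ⟨q, hq, M⟩ := H G₁
  let κ : s → G₀ × G₁ := fun x => if x = i then (0, ζ true) else if x = j then (0, ζ false)
    else (ξ₀ x, 0)
  have q1 : ∀ u v, diagonal dg (e u) (e v) = Q u v := by
    rintro (_ | _) (_ | _) <;> simp [e, Q, di, dj, hij, hij.symm]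
  have out : ∀ x, (∀ v, e v ≠ x) → x ≠ i ∧ x ≠ j := fun x c => ⟨(c true).symm, (c false).symm⟩
  obtain ⟨oD, x1, e1⟩ := M (diagonal dg) κ Q ζ oQ hζ q1 (fun _ _ _ => rfl)
    (by rintro (_ | _) <;> simp [κ, e, hij.symm]) fun x c => by simp [κ, out x c]
  obtain ⟨-, x2, e2⟩ := M (diagonal dg) (κ ∘ Equiv.swap i j) Q (ζ ∘ not) oQ hζ' q1
    (fun _ _ _ => rfl) (by rintro (_ | _) <;> simp [κ, e, hij.symm]) fun x c => by
      simp [κ, out x c, Equiv.swap_apply_of_ne_of_ne]
  rw [pp_eq hB hq i2 hβ oQ dQ hζ, ppL] at e1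
  rw [pp_eq hB hq i2 hβ oQ dQ hζ', ppL] at e2
  have x3 := hB.pres_lv oQ dQ hζ'
  have eA : lin (p + 1) (1 - Q) = linc (p + 1) fun d => if d = p then 1 else 0 := by
    rw [lin_eq]
    congr 1
    funext d
    ext u v
    by_cases c : u = v <;> by_cases c' : d = p <;> simp [cof, Q, c, c', coeff_X_pow, one_apply]
  rw [eA] at e1 e2 x3
  let σ : Bool × Fin (p + 1) → Bool × Fin (p + 1) := fun q => (!q.1, q.2)
  have a1 : ∀ M : Matrix (Bool × Fin (p + 1)) (Bool × Fin (p + 1)) ℤ,
      inc σ * M = M.submatrix σ id := fun M => by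
    ext u v
    simp [inc, mul_apply]
  have a2 : ∀ M : Matrix (Bool × Fin (p + 1)) (Bool × Fin (p + 1)) ℤ,
      M * inc σ = M.submatrix id σ := fun M => by
    ext u v
    rw [mul_apply, Finset.sum_eq_single (σ v) (fun b _ c => by
      rw [inc, of_apply, if_neg, mul_zero]
      rintro rfl
      simp [σ] at c) (by simp)]
    simp [inc, σ]
  have b1 : inc σ * (linc (p + 1) fun d => if d = p then 1 else 0) * inc σ =
      linc (p + 1) fun d => if d = p then (1 : Matrix Bool Bool ℤ) else 0 := by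
    rw [a1, a2]
    ext ⟨u, a⟩ ⟨v, b⟩
    simp only [submatrix_apply, id, linc, of_apply, σ, Bool.not_inj_iff]
    split_ifs <;> simp [one_apply]
  have b2 : inc σ * (inc σ * linc (p + 1) fun d => if d = p then 1 else 0) =
      linc (p + 1) fun d => if d = p then (1 : Matrix Bool Bool ℤ) else 0 := by
    rw [a1, a1]
    ext u v
    simp [σ]
  have r := congrFun (hq _ _ (rkL oV (p + 1)) (rkL oV (p + 1)) (inc σ)
    (inc σ * linc (p + 1) fun d => if d = p then 1 else 0) (lv (p + 1) (ζ ∘ not)) (rkL_inj i2 _)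
    (rkL_inj i2 _) (le_rkL' hβ) (le_rkL' hβ) (by rwa [b1])) k
  have c : lv (p + 1) (ζ ∘ not) ∘ σ = lv (p + 1) ζ := funext fun q => by simp [lv, σ]
  rw [b1, b2, pull_inc, c, ← e1, ← e2, fv, swapStmt p (p + 1) k oV hp (by omega) i2 hkp,
    Pi.sub_apply] at r
  have eD : (diagonal dg).submatrix (Equiv.swap i j) (Equiv.swap i j) = diagonal dg := by
    rw [submatrix_diagonal_equiv]
    congr 1
    funext x
    rw [Function.comp_apply, Equiv.swap_apply_def]
    split_ifs with c1 c2
    exacts [by rw [c1, di, dj], by rw [c2, di, dj], rfl]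
  have t1 := pn_perm hB hk h3 (Equiv.swap i j) ho o1.inv0 oD.inv0 sm hξ x1
  have t2 := pn_rank hB hk h3 ho i1 oD.inv0 oD.inv0 (sm_refl k _) x2 x1
  rw [eD] at t1
  linear_combination t1 + t2 - r

end Pool.Agent.MP_993212_an.H18
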