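import Pool.Agent.MP_993212_an.H18.Peel

set_option linter.unusedSectionVars false

namespace Pool.Agent.MP_993212_an.H18

open Matrix H16 H46

section
variable {V W K K' : Type} [Fintype V] [Fintype W] [Fintype K] [Fintype K'] [DecidableEq V]
  [DecidableEq W] [DecidableEq K] [DecidableEq K']

theorem Pat.of {A : Matrix V V ℕ} {B : Matrix W W ℕ} {R : Matrix V W ℤ} {S : Matrix W V ℤ} {l : ℕ}
    (h1 : ∀ i u v w w', R u w ≠ 0 → (B ^ i) w w' ≠ 0 → S w' v ≠ 0 → (A ^ (l + i)) u v ≠ 0)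
    (h2 : ∀ i u v w w', S w u ≠ 0 → (A ^ i) u v ≠ 0 → R v w' ≠ 0 → (B ^ (l + i)) w w' ≠ 0) :
    Pat A B R S l := by
  refine fun i => ⟨fun u v h => ?_, fun w w' h => ?_⟩
  · obtain ⟨w', h3, h4⟩ := exists_of_mul_ne_zero h
    obtain ⟨w, h5, h6⟩ := exists_of_mul_ne_zero h3
    exact h1 i u v w w' (ab_ne.1 h5) h6 (ab_ne.1 h4)
  · obtain ⟨v, h3, h4⟩ := exists_of_mul_ne_zero h
    obtain ⟨u, h5, h6⟩ := exists_of_mul_ne_zero h3
    exact h2 i u v w w' (ab_ne.1 h5) h6 (ab_ne.1 h4)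

theorem range_fwd {A : Matrix V V ℕ} {f : K → V} (h : ∀ i v, A (f i) v ≠ 0 → ∃ j, f j = v)
    (n : ℕ) (i : K) : ∀ v, (A ^ n) (f i) v ≠ 0 → ∃ j, f j = v := by
  induction n with
  | zero => exact fun v h1 => ⟨i, pw_zero_eq h1⟩
  | succ n ih =>
    intro v h1
    obtain ⟨b, h2, h3⟩ := pw_split h1
    obtain ⟨j, rfl⟩ := ih b h2
    exact h j v (by simpa using h3)

theorem sub_pow_fwd {A : Matrix V V ℕ} {f : K → V} (hf : Function.Injective f)
    (h : ∀ i v, A (f i) v ≠ 0 → ∃ j, f j = v) (n : ℕ) :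
    (A ^ n).submatrix f f = (A.submatrix f f) ^ n :=
  sub_pow A hf (fun n i _ v h1 _ => range_fwd h n i v h1) n

theorem restrict {A : Matrix V V ℕ} {B : Matrix W W ℕ} {R : Matrix V W ℤ} {S : Matrix W V ℤ}
    {l : ℕ} (hz : ZSE A B R S l) (hp : Pat A B R S l) {f : K → V} {g : K' → W}
    (hf : Function.Injective f) (hg : Function.Injective g)
    (hA : ∀ i v, A (f i) v ≠ 0 → ∃ j, f j = v) (hB : ∀ i v, B (g i) v ≠ 0 → ∃ j, g j = v)
    (hR : ∀ i v, R (f i) v ≠ 0 → ∃ j, g j = v) (hS : ∀ i v, S (g i) v ≠ 0 → ∃ j, f j = v) :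
    ZSE (A.submatrix f f) (B.submatrix g g) (R.submatrix f g) (S.submatrix g f) l ∧
    Pat (A.submatrix f f) (B.submatrix g g) (R.submatrix f g) (S.submatrix g f) l := by
  obtain ⟨z1, z2, z3, z4⟩ := hz
  refine ⟨⟨?_, ?_, ?_, ?_⟩, Pat.of ?_ ?_⟩
  · rw [zz_sub, zz_sub, ← sub_mul _ _ f hf g fun i _ v h _ => hA i v (zz_ne.1 h),
      ← sub_mul _ _ f hg g fun i _ v h _ => hR i v h, z1]
  · rw [zz_sub, zz_sub, ← sub_mul _ _ g hf f fun i _ v h _ => hS i v h,
      ← sub_mul _ _ g hg f fun i _ v h _ => hB i v (zz_ne.1 h), z2]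
  · rw [← sub_mul _ _ f hg f fun i _ v h _ => hR i v h, z3, ← zz_pow, ← zz_pow,
      ← sub_pow_fwd hf hA, zz_sub]
  · rw [← sub_mul _ _ g hf g fun i _ v h _ => hS i v h, z4, ← zz_pow, ← zz_pow,
      ← sub_pow_fwd hg hB, zz_sub]
  · intro i u v w w' h1 h2 h3
    rw [← sub_pow_fwd hf hA]
    exact Pat.left hp h1 (sub_pow_ne h2) h3
  · intro i u v w w' h1 h2 h3
    rw [← sub_pow_fwd hg hB]
    exact Pat.right hp h1 (sub_pow_ne h2) h3

theorem walk {T : Type} [Fintype T] [DecidableEq T] {A : Matrix V V ℕ} {B : Matrix W W ℕ}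
    {R : Matrix V W ℤ} {S : Matrix W V ℤ} {l : ℕ} (hl : 1 ≤ l)
    (hp : ∀ i u v w w', R u w ≠ 0 → (B ^ i) w w' ≠ 0 → S w' v ≠ 0 → (A ^ (l + i)) u v ≠ 0)
    (G : Matrix T T ℕ) (a : V → T) (b : W → T) (hc : ∀ z, (∃ u, z = a u) ∨ ∃ w, z = b w)
    (h1 : ∀ u v, G (a u) (a v) ≠ 0 → A u v ≠ 0) (h2 : ∀ u w, G (a u) (b w) ≠ 0 → R u w ≠ 0)
    (h3 : ∀ w u, G (b w) (a u) ≠ 0 → S w u ≠ 0) (h4 : ∀ w w', G (b w) (b w') ≠ 0 → B w w' ≠ 0)
    (k : ℕ) (u : V) : (∀ v, (G ^ (k + 1)) (a u) (a v) ≠ 0 → ∃ m, (A ^ (m + 1)) u v ≠ 0) ∧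
      ∀ w, (G ^ (k + 1)) (a u) (b w) ≠ 0 →
        ∃ i j u1 w1, (A ^ i) u u1 ≠ 0 ∧ R u1 w1 ≠ 0 ∧ (B ^ j) w1 w ≠ 0 := by
  induction k with
  | zero =>
    simp only [zero_add, pow_one]
    exact ⟨fun v h => ⟨0, pw_one (h1 _ _ h)⟩,
      fun w h => ⟨0, 0, u, w, pw_zero _ _, h2 _ _ h, pw_zero _ _⟩⟩
  | succ k ih =>
    refine ⟨fun v h => ?_, fun w h => ?_⟩
    · obtain ⟨z, g1, g2⟩ := pw_split h
      rw [pow_one] at g2
      obtain ⟨u1, rfl⟩ | ⟨w1, rfl⟩ := hc z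
      · obtain ⟨m, hm⟩ := ih.1 u1 g1
        exact ⟨m + 1, pw_add hm (pw_one (h1 _ _ g2))⟩
      · obtain ⟨i, j, u2, w2, g3, g4, g5⟩ := ih.2 w1 g1
        refine ⟨i + (l - 1 + j), ?_⟩
        rw [show i + (l - 1 + j) + 1 = i + (l + j) by omega]
        exact pw_add g3 (hp _ _ _ _ _ g4 g5 (h3 _ _ g2))
    · obtain ⟨z, g1, g2⟩ := pw_split h
      rw [pow_one] at g2
      obtain ⟨u1, rfl⟩ | ⟨w1, rfl⟩ := hc z
      · obtain ⟨m, hm⟩ := ih.1 u1 g1
        exact ⟨_, 0, u1, w, hm, h2 _ _ g2, pw_zero _ _⟩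
      · obtain ⟨i, j, u2, w2, g3, g4, g5⟩ := ih.2 w1 g1
        exact ⟨i, j + 1, u2, w2, g3, g4, pw_add g5 (pw_one (h4 _ _ g2))⟩

theorem blocks_of {α : Type} [Zero α] (M : Matrix V W α) (p : V → Prop) (q : W → Prop)
    [DecidablePred p] [DecidablePred q] (h : ∀ a b, M a b ≠ 0 → q b → p a) :
    M.submatrix (Equiv.sumCompl p) (Equiv.sumCompl q) =
      fromBlocks (M.submatrix Subtype.val Subtype.val) (M.submatrix Subtype.val Subtype.val) 0
        (M.submatrix Subtype.val Subtype.val) := by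
  ext (a | a) (b | b)
  · rfl
  · rfl
  · by_contra h1
    exact a.2 (h a b h1 b.2)
  · rfl

/-- every irreducible pair of blocks cut out by levels is realised -/
def HB (A : Matrix V V ℕ) (B : Matrix W W ℕ) (R : Matrix V W ℤ) (S : Matrix W V ℤ) : Prop :=
  ∀ (K K' : Type) [Fintype K] [DecidableEq K] [Fintype K'] [DecidableEq K'] (f : K → V)
    (g : K' → W), Function.Injective f → Function.Injective g → Nonempty K →
    Irr (A.submatrix f f) → Irr (B.submatrix g g) →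
    (∃ (x : V → ℕ) (y : W → ℕ) (c : ℕ), Lev A B R S 1 x y ∧
      (∀ u, x u = c ↔ ∃ i, f i = u) ∧ ∀ v, y v = c ↔ ∃ j, g j = v) →
    Real (A.submatrix f f) (B.submatrix g g) (R.submatrix f g)

theorem HB.rest {A : Matrix V V ℕ} {B : Matrix W W ℕ} {R : Matrix V W ℤ} {S : Matrix W V ℤ}
    (h : HB A B R S) (p : V → Prop) (q : W → Prop) [DecidablePred p] [DecidablePred q]
    (hA : ∀ a b, A a b ≠ 0 → p b → p a) (hB : ∀ a b, B a b ≠ 0 → q b → q a)
    (hR : ∀ a b, R a b ≠ 0 → q b → p a) (hS : ∀ a b, S a b ≠ 0 → p b → q a) :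
    HB (A.submatrix (Subtype.val : {a // ¬ p a} → V) Subtype.val)
      (B.submatrix (Subtype.val : {a // ¬ q a} → W) Subtype.val)
      (R.submatrix Subtype.val Subtype.val) (S.submatrix Subtype.val Subtype.val) := by
  rintro K K' _ _ _ _ f g hf hg hne i1 i2 ⟨x, y, c, ⟨l1, l2, l3, l4⟩, e1, e2⟩
  simp only [pow_one] at l1 l2
  refine h K K' (Subtype.val ∘ f) (Subtype.val ∘ g) (Subtype.val_injective.comp hf)
    (Subtype.val_injective.comp hg) hne i1 i2
    ⟨fun a => if h : p a then 0 else x ⟨a, h⟩ + 1, fun a => if h : q a then 0 else y ⟨a, h⟩ + 1,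
      c + 1, ⟨fun a b h1 => ?_, fun a b h1 => ?_, fun a b h1 => ?_, fun a b h1 => ?_⟩,
      fun a => ?_, fun a => ?_⟩
  · rw [pow_one] at h1
    by_cases ha : p a
    · simp [ha]
    · have hb : ¬ p b := fun hb => ha (hA a b h1 hb)
      simpa [ha, hb] using l1 ⟨a, ha⟩ ⟨b, hb⟩ h1
  · rw [pow_one] at h1
    by_cases ha : q a
    · simp [ha]
    · have hb : ¬ q b := fun hb => ha (hB a b h1 hb)
      simpa [ha, hb] using l2 ⟨a, ha⟩ ⟨b, hb⟩ h1
  · by_cases ha : p a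
    · simp [ha]
    · have hb : ¬ q b := fun hb => ha (hR a b h1 hb)
      simpa [ha, hb] using l3 ⟨a, ha⟩ ⟨b, hb⟩ h1
  · by_cases ha : q a
    · simp [ha]
    · have hb : ¬ p b := fun hb => ha (hS a b h1 hb)
      simpa [ha, hb] using l4 ⟨a, ha⟩ ⟨b, hb⟩ h1
  · by_cases ha : p a
    · simp only [dif_pos ha]
      exact ⟨fun h => absurd h (by omega), fun ⟨i, hi⟩ => absurd ((show (f i).1 = a from hi) ▸ ha) (f i).2⟩
    · simp only [dif_neg ha, Nat.add_right_cancel_iff, e1]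
      exact ⟨fun ⟨i, hi⟩ => ⟨i, congrArg Subtype.val hi⟩, fun ⟨i, hi⟩ => ⟨i, Subtype.ext hi⟩⟩
  · by_cases ha : q a
    · simp only [dif_pos ha]
      exact ⟨fun h => absurd h (by omega), fun ⟨i, hi⟩ => absurd ((show (g i).1 = a from hi) ▸ ha) (g i).2⟩
    · simp only [dif_neg ha, Nat.add_right_cancel_iff, e2]
      exact ⟨fun ⟨i, hi⟩ => ⟨i, congrArg Subtype.val hi⟩, fun ⟨i, hi⟩ => ⟨i, Subtype.ext hi⟩⟩

theorem irr_of {A : Matrix V V ℕ} (p : V → Prop) [DecidablePred p]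
    (hA : ∀ a b, A a b ≠ 0 → p b → p a) (h : ∀ a b, p a → p b → ∃ m, (A ^ (m + 1)) a b ≠ 0) :
    Irr (A.submatrix (Subtype.val : {a // p a} → V) Subtype.val) := by
  intro a b
  obtain ⟨m, hm⟩ := h a b a.2 b.2
  refine ⟨m, ?_⟩
  rw [← sub_pow A Subtype.val_injective fun _ _ k v _ h1 => ⟨⟨v, hA v k h1 k.2⟩, rfl⟩]
  exact hm

end

theorem thmB (n : ℕ) : ∀ (V W : Type) [Fintype V] [Fintype W] [DecidableEq V] [DecidableEq W]
    (A : Matrix V V ℕ) (B : Matrix W W ℕ) (R : Matrix V W ℤ) (S : Matrix W V ℤ) (l : ℕ),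
    Fintype.card V + Fintype.card W ≤ n → ZSE A B R S l → 1 ≤ l → Pat A B R S l → HB A B R S →
    Real A B R := by
  induction n with
  | zero =>
    intro V W _ _ _ _ A B R S l hn _ _ _ _
    have : IsEmpty V := Fintype.card_eq_zero_iff.1 (by omega)
    have : IsEmpty W := Fintype.card_eq_zero_iff.1 (by omega)
    have := Real.step (0 : Matrix V W ℕ) (0 : Matrix W V ℕ)
    rwa [Subsingleton.elim (_ * _ : Matrix V V ℕ) A, Subsingleton.elim (_ * _ : Matrix W W ℕ) B,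
      Subsingleton.elim (zz _) R] at this
  | succ n ih =>
    intro V W _ _ _ _ A B R S l hn hz hl hp hb
    classical
    by_cases hlt : Fintype.card V + Fintype.card W ≤ n
    · exact ih V W A B R S l hlt hz hl hp hb
    have rest : ∀ (p : V → Prop) (q : W → Prop) [DecidablePred p] [DecidablePred q], ((∃ a, p a) ∨ ∃ b, q b) →
        (∀ a b, A a b ≠ 0 → p b → p a) → (∀ a b, B a b ≠ 0 → q b → q a) →
        (∀ a b, R a b ≠ 0 → q b → p a) → (∀ a b, S a b ≠ 0 → p b → q a) →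
        Real (A.submatrix (Subtype.val : {a // ¬ p a} → V) Subtype.val)
          (B.submatrix (Subtype.val : {a // ¬ q a} → W) Subtype.val)
          (R.submatrix Subtype.val Subtype.val) := by
      intro p q _ _ hne hA hB hR hS
      obtain ⟨g1, g2⟩ := restrict hz hp (f := (Subtype.val : {a // ¬ p a} → V))
        (g := (Subtype.val : {a // ¬ q a} → W)) Subtype.val_injective Subtype.val_injective
        (fun i v h => ⟨⟨v, fun h1 => i.2 (hA _ _ h h1)⟩, rfl⟩)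
        (fun i v h => ⟨⟨v, fun h1 => i.2 (hB _ _ h h1)⟩, rfl⟩)
        (fun i v h => ⟨⟨v, fun h1 => i.2 (hR _ _ h h1)⟩, rfl⟩)
        (fun i v h => ⟨⟨v, fun h1 => i.2 (hS _ _ h h1)⟩, rfl⟩)
      refine ih _ _ _ _ _ _ l ?_ g1 hl g2 (hb.rest p q hA hB hR hS)
      have c1 := Fintype.card_subtype_le fun a => ¬ p a
      have c2 := Fintype.card_subtype_le fun a => ¬ q a
      obtain ⟨a, ha⟩ | ⟨a, ha⟩ := hne
      · have := Fintype.card_subtype_lt (p := fun a => ¬ p a) (x := a) (not_not.2 ha)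
        omega
      · have := Fintype.card_subtype_lt (p := fun a => ¬ q a) (x := a) (not_not.2 ha)
        omega
    let G : Matrix (V ⊕ W) (V ⊕ W) ℕ := fromBlocks A (ab R) (ab S) B
    by_cases src : ∃ z, ∀ y, G y z = 0
    · let p : V → Prop := fun a => ∀ y, G y (Sum.inl a) = 0
      let q : W → Prop := fun a => ∀ y, G y (Sum.inr a) = 0
      have hA : ∀ a b, p b → A a b = 0 := fun a b h => h (Sum.inl a)
      have hB : ∀ a b, q b → B a b = 0 := fun a b h => h (Sum.inr a)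
      have hR : ∀ a b, q b → R a b = 0 := fun a b h => by_contra fun h1 =>
        ab_ne.2 h1 (h (Sum.inl a))
      have hS : ∀ a b, p b → S a b = 0 := fun a b h => by_contra fun h1 =>
        ab_ne.2 h1 (h (Sum.inr a))
      have hr := rest p q (by
        obtain ⟨z | z, h⟩ := src
        · exact Or.inl ⟨z, h⟩
        · exact Or.inr ⟨z, h⟩) (fun a b h1 h2 => absurd (hA a b h2) h1)
        (fun a b h1 h2 => absurd (hB a b h2) h1) (fun a b h1 h2 => absurd (hR a b h2) h1)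
        (fun a b h1 h2 => absurd (hS a b h2) h1)
      refine real_of_reindex (Equiv.sumCompl p) (Equiv.sumCompl q) ?_
      rw [blocks_of A p p (fun a b h1 h2 => absurd (hA a b h2) h1),
        blocks_of B q q (fun a b h1 h2 => absurd (hB a b h2) h1),
        blocks_of R p q (fun a b h1 h2 => absurd (hR a b h2) h1),
        show A.submatrix (Subtype.val : {a // p a} → V) (Subtype.val : {a // p a} → V) = 0 from
          Matrix.ext fun a b => hA a b b.2,
        show B.submatrix (Subtype.val : {a // q a} → W) (Subtype.val : {a // q a} → W) = 0 from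
          Matrix.ext fun a b => hB a b b.2,
        show R.submatrix (Subtype.val : {a // p a} → V) (Subtype.val : {a // q a} → W) = 0 from
          Matrix.ext fun a b => hR a b b.2]
      exact peel_src hr
    obtain ⟨z1⟩ : Nonempty (V ⊕ W) := Fintype.card_pos_iff.1 (by rw [Fintype.card_sum]; omega)
    obtain ⟨z0, -, h0⟩ := exists_top G (fun _ => False) ⟨z1, id⟩
    let p : V → Prop := fun a => ∃ k, (G ^ k) (Sum.inl a) z0 ≠ 0
    let q : W → Prop := fun a => ∃ k, (G ^ k) (Sum.inr a) z0 ≠ 0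
    have cl : ∀ y z, G y z ≠ 0 → (∃ k, (G ^ k) z z0 ≠ 0) → ∃ k, (G ^ k) y z0 ≠ 0 :=
      fun y z h ⟨k, hk⟩ => ⟨_, pw_add (pw_one h) hk⟩
    have hA : ∀ a b, A a b ≠ 0 → p b → p a := fun a b h => cl (Sum.inl a) (Sum.inl b) h
    have hB : ∀ a b, B a b ≠ 0 → q b → q a := fun a b h => cl (Sum.inr a) (Sum.inr b) h
    have hR : ∀ a b, R a b ≠ 0 → q b → p a := fun a b h => cl (Sum.inl a) (Sum.inr b) (ab_ne.2 h)
    have hS : ∀ a b, S a b ≠ 0 → p b → q a := fun a b h => cl (Sum.inr a) (Sum.inl b) (ab_ne.2 h)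
    have con : ∀ y z, (∃ k, (G ^ k) y z0 ≠ 0) → (∃ k, (G ^ k) z z0 ≠ 0) →
        ∃ k, (G ^ (k + 1)) y z ≠ 0 := by
      rintro y z ⟨k, hk⟩ hz
      obtain ⟨z', h1⟩ : ∃ z', G z' z ≠ 0 := not_forall.1 fun h => src ⟨z, h⟩
      obtain ⟨k', hk'⟩ := h0 z' id (cl z' z h1 hz)
      exact ⟨k + k', pw_add (pw_add hk hk') (pw_one h1)⟩
    have i1 := irr_of p hA fun a b ha hb => by
      obtain ⟨k, hk⟩ := con _ _ ha hb
      exact (walk hl (fun _ _ _ _ _ => Pat.left hp) G Sum.inl Sum.inr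
        (fun z => z.rec (fun a => Or.inl ⟨a, rfl⟩) fun a => Or.inr ⟨a, rfl⟩) (fun _ _ h => h)
        (fun _ _ h => ab_ne.1 h) (fun _ _ h => ab_ne.1 h) (fun _ _ h => h) k a).1 b hk
    have i2 := irr_of q hB fun a b ha hb => by
      obtain ⟨k, hk⟩ := con _ _ ha hb
      exact (walk hl (fun _ _ _ _ _ => Pat.right hp) G Sum.inr Sum.inl
        (fun z => z.rec (fun a => Or.inr ⟨a, rfl⟩) fun a => Or.inl ⟨a, rfl⟩) (fun _ _ h => h)
        (fun _ _ h => ab_ne.1 h) (fun _ _ h => ab_ne.1 h) (fun _ _ h => h) k a).1 b hk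
    obtain ⟨a0, ha0⟩ : ∃ a, p a := by
      obtain a | w := z0
      · exact ⟨a, 0, pw_zero _ _⟩
      · have hw : q w := ⟨0, pw_zero _ _⟩
        obtain ⟨w', h1⟩ := i2.inn_pow l ⟨w, hw⟩
        obtain ⟨a, -, h2⟩ := exists_of_mul_ne_zero (show (S * R) w' w ≠ 0 by
          rw [hz.2.2.2, zpw_ne]; exact sub_pow_ne h1)
        exact ⟨a, hR a w h2 hw⟩
    have top := hb _ _ (Subtype.val : {a // p a} → V) (Subtype.val : {a // q a} → W)
      Subtype.val_injective Subtype.val_injective ⟨⟨a0, ha0⟩⟩ i1 i2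
      ⟨fun a => if p a then 0 else 1, fun a => if q a then 0 else 1, 0,
        ⟨fun a b h => by
          rw [pow_one] at h
          by_cases ha : p a
          · simp [ha]
          · simp [ha, show ¬ p b from fun hb => ha (hA a b h hb)],
        fun a b h => by
          rw [pow_one] at h
          by_cases ha : q a
          · simp [ha]
          · simp [ha, show ¬ q b from fun hb => ha (hB a b h hb)],
        fun a b h => by
          by_cases ha : p a
          · simp [ha]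
          · simp [ha, show ¬ q b from fun hb => ha (hR a b h hb)],
        fun a b h => by
          by_cases ha : q a
          · simp [ha]
          · simp [ha, show ¬ p b from fun hb => ha (hS a b h hb)]⟩,
        fun a => by simp, fun a => by simp⟩
    obtain ⟨g1, g2⟩ := restrict hz hp (Equiv.sumCompl p).injective (Equiv.sumCompl q).injective
      (fun _ v _ => (Equiv.sumCompl p).surjective v) (fun _ v _ => (Equiv.sumCompl q).surjective v)
      (fun _ v _ => (Equiv.sumCompl q).surjective v) (fun _ v _ => (Equiv.sumCompl p).surjective v)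
    refine real_of_reindex (Equiv.sumCompl p) (Equiv.sumCompl q) ?_
    rw [blocks_of A p p hA, blocks_of B q q hB, blocks_of R p q hR] at g1 g2 ⊢
    rw [blocks_of S q p hS] at g1 g2
    exact peel g1 g2 i1 i2 top (rest p q (Or.inl ⟨a0, ha0⟩) hA hB hR hS)

end Pool.Agent.MP_993212_an.H18
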