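import Pool.Agent.MP_993212_an.H46.Fin
import Pool.Agent.MP_993212_an.H18.Small

/-! Shift equivalences are realised when no period is missing. -/

namespace Pool.Agent.MP_993212_an.H18

open Matrix Finset Function H16 H46

variable {V W K : Type} [Fintype V] [DecidableEq V] [Fintype W] [DecidableEq W] [Fintype K]
  [DecidableEq K]

theorem ex_inj {α : Type} (T : Finset α) :
    ∃ φ : α → ℕ, (∀ z ∈ T, φ z < T.card) ∧ ∀ z ∈ T, ∀ z' ∈ T, φ z = φ z' → z = z' := by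
  classical
  refine ⟨fun z => if h : z ∈ T then (T.equivFin ⟨z, h⟩ : ℕ) else 0, fun z h => ?_,
    fun z h z' h' e => ?_⟩
  · simp [h]
  · simp only [h, h', dif_pos] at e
    exact congrArg Subtype.val (T.equivFin.injective (Fin.ext e))

/-- paths of length `q` are labelled by the edges of `A ^ q` -/
theorem ex_lab (A : Matrix V V ℕ) (q : ℕ) : ∃ lab : (ℕ → V) → (ℕ → ℕ) → ℕ, ∀ v e,
    (∀ i, e i < A (v i) (v (i + 1))) → lab v e < (A ^ q) (v 0) (v q) ∧ ∀ v' e',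
      (∀ i, e' i < A (v' i) (v' (i + 1))) → v' 0 = v 0 → v' q = v q → lab v' e' = lab v e →
        ∀ i < q, v' i = v i ∧ e' i = e i := by
  induction q with
  | zero => exact ⟨fun _ _ => 0, fun v e _ => ⟨by simp, fun _ _ _ _ _ _ i hi => by omega⟩⟩
  | succ q ih =>
    obtain ⟨lab, h⟩ := ih
    choose φ h1 h2 using fun a b : V =>
      ex_inj (univ.sigma fun w : V => range ((A ^ q) a w) ×ˢ range (A w b))
    have mem : ∀ v e, (∀ i, e i < A (v i) (v (i + 1))) → (⟨v q, lab v e, e q⟩ : Σ _ : V, ℕ × ℕ) ∈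
        univ.sigma fun w : V => range ((A ^ q) (v 0) w) ×ˢ range (A w (v (q + 1))) :=
      fun v e hv => by simp [(h v e hv).1, hv q]
    refine ⟨fun v e => φ (v 0) (v (q + 1)) ⟨v q, lab v e, e q⟩, fun v e hv => ⟨?_,
      fun v' e' hv' a1 a2 a3 i hi => ?_⟩⟩
    · simpa [pow_succ, mul_apply] using h1 _ _ _ (mem v e hv)
    · have m := mem v' e' hv'
      simp only [a1, a2] at m a3
      have := h2 _ _ _ m _ (mem v e hv) a3
      simp only [Sigma.mk.injEq, heq_eq_eq, Prod.mk.injEq] at this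
      rcases Nat.lt_succ_iff_lt_or_eq.1 hi with c | rfl
      exacts [(h v e hv).2 v' e' hv' a1 this.1 this.2.1 i c, ⟨this.1, this.2.2⟩]

theorem np_block {A : Matrix V V ℕ} {q k : ℕ} (hq : 1 ≤ q) (hk : 1 ≤ k) {x : V → ℕ} {c : ℕ}
    {f : K → V} (hf : Injective f) (hx : ∀ a b, (A ^ q) a b ≠ 0 → x a ≤ x b)
    (hc : ∀ u, x u = c ↔ ∃ i, f i = u) (i0 : K) {v : ℤ → V} {e : ℤ → ℕ}
    (h1 : ∀ i, e i < A (v i) (v (i + 1))) {a b : ℕ} (ha : (A ^ a) (f i0) (v 0) ≠ 0)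
    (hb : (A ^ b) (v 0) (f i0) ≠ 0)
    (hp : ∀ j : ℤ, (∀ i, v (i + j) = v i ∧ e (i + j) = e i) ↔ ((k * q : ℕ) : ℤ) ∣ j) :
    np k ((A ^ q).submatrix f f) ≠ 0 := by
  have : Nonempty K := ⟨i0⟩
  have : NeZero k := ⟨by omega⟩
  have walk : ∀ (n : ℕ) (s : ℤ), (A ^ n) (v s) (v (s + n)) ≠ 0 := fun n s => by
    induction n with
    | zero => simp
    | succ n ih =>
      rw [pow_succ, Nat.cast_succ, ← add_assoc]
      exact mul_ne_zero_of ih (by have := h1 (s + n); omega)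
  have lev : ∀ n a b, (A ^ (q * n)) a b ≠ 0 → x a ≤ x b := fun n a b h =>
    lev_pow hx (by rwa [pow_mul] at h)
  have per : ∀ (n i : ℤ), v (i + k * q * n) = v i ∧ e (i + k * q * n) = e i := fun n =>
    (hp _).2 (by push_cast; exact dvd_mul_right _ _)
  obtain ⟨q, rfl⟩ : ∃ r, q = r + 1 := ⟨q - 1, by omega⟩
  obtain ⟨m, hm⟩ : ∃ m, k * (q + 1) = m + 1 := ⟨k * (q + 1) - 1, by
    have := Nat.mul_pos hk hq; omega⟩
  have hm' : (k : ℤ) * (q + 1) = m + 1 := by exact_mod_cast hm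
  have x0 : x (v (q * a : ℕ)) = c := by
    rw [← (hc _).2 ⟨i0, rfl⟩]
    refine le_antisymm (lev (q * a * k + b) _ _ ?_) (lev a _ _ ?_)
    · have l1 : ∀ n, (A ^ ((a + b) * n)) (f i0) (f i0) ≠ 0 := fun n => by
        induction n with
        | zero => simp
        | succ n ih => rw [Nat.mul_succ]; exact pw_add' ih (pw_add' ha hb)
      have l2 := walk (m * (q * a)) (q * a : ℕ)
      rw [show ((q * a : ℕ) : ℤ) + (m * (q * a) : ℕ) = 0 + k * (q + 1 : ℕ) * (q * a) by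
        push_cast; rw [hm']; ring, (per _ _).1] at l2
      have := pw_add' (pw_add' l2 hb) (l1 q)
      rwa [show m * (q * a) + b + (a + b) * q = (q + 1) * (q * a * k + b) by
        zify; linear_combination (-(q * a : ℤ)) * hm'] at this
    · have := pw_add' ha (walk (q * a) 0)
      rwa [zero_add, show a + q * a = (q + 1) * a by ring] at this
  generalize ((q * a : ℕ) : ℤ) = t at x0
  have mono : ∀ s s' : ℤ, x (v (t + (q + 1 : ℕ) * s)) ≤ x (v (t + (q + 1 : ℕ) * s')) := fun s s' => by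
    have := lev _ _ _ (walk ((q + 1) * ((s' - s) % k).toNat) (t + (q + 1 : ℕ) * s))
    rwa [show t + (q + 1 : ℕ) * s + ((q + 1) * ((s' - s) % k).toNat : ℕ) =
      t + (q + 1 : ℕ) * s' + k * (q + 1 : ℕ) * (-((s' - s) / k)) by
        push_cast
        rw [Int.toNat_of_nonneg (Int.emod_nonneg _ (by omega)), Int.emod_def]
        ring, (per _ _).1] at this
  have inv : ∀ s : ℤ, f (invFun f (v (t + (q + 1 : ℕ) * s))) = v (t + (q + 1 : ℕ) * s) := fun s =>
    invFun_eq ((hc _).1 (by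
      have h2 := mono s 0
      have h3 := mono 0 s
      rw [mul_zero, add_zero, x0] at h2 h3
      omega))
  obtain ⟨lab, hl⟩ := ex_lab A (q + 1)
  let w : ℤ → ℕ → V := fun s r => v (t + (q + 1 : ℕ) * s + r)
  let d : ℤ → ℕ → ℕ := fun s r => e (t + (q + 1 : ℕ) * s + r)
  have ok : ∀ s i, d s i < A (w s i) (w s (i + 1)) := fun s i => by
    simpa only [w, d, Nat.cast_succ i, ← add_assoc] using h1 _
  have w0 : ∀ s, w s 0 = v (t + (q + 1 : ℕ) * s) := fun s => by simp [w]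
  have w1 : ∀ s, w s (q + 1) = v (t + (q + 1 : ℕ) * (s + 1)) := fun s => by
    simp only [w, mul_add, mul_one, add_assoc]
  let Φ : ℤ → Ed K K := fun s => (invFun f (w s 0), invFun f (w s 0), 0, lab (w s) (d s))
  have cg : ∀ s s' : ℤ, (s : ZMod k) = s' → Φ s = Φ s' := fun s s' h => by
    obtain ⟨n, hn⟩ := (ZMod.intCast_eq_intCast_iff_dvd_sub s s' k).1 h
    have : ∀ r : ℕ, t + (q + 1 : ℕ) * s' + r = t + (q + 1 : ℕ) * s + r + k * (q + 1 : ℕ) * n :=
      fun r => by linear_combination ((q + 1 : ℕ) : ℤ) * hn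
    have e1 : w s' = w s := funext fun r => by simp only [w, this, per]
    have e2 : d s' = d s := funext fun r => by simp only [d, this, per]
    simp only [Φ, e1, e2]
  rw [← Matrix.one_mul (submatrix _ f f), ← base.cnt.card_prim K K 1 _ k, Nat.cast_ne_zero,
    card_ne_zero]
  refine ⟨fun i => Φ i.val, mem_filter.2 ⟨mem_cyc.2 fun i => ⟨by simp [Φ], ?_⟩, fun j hj => ?_⟩⟩
  · rw [cg (i + 1).val (i.val + 1) (by simp)]
    have := (hl _ _ (ok i.val)).1
    simpa only [Φ, submatrix_apply, w0, w1, inv] using this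
  · have sh : ∀ s : ℤ, Φ (s + j.val) = Φ s := fun s => by
      have := congrFun hj s
      simp only [rot] at this
      rw [cg _ ((s : ZMod k) + j).val (by simp), this]
      exact cg _ _ (by simp)
    have s0 : ∀ s, w (s + j.val) 0 = w s 0 := fun s => by
      have := congrArg (fun z => f z.1) (sh s)
      simpa only [Φ, w0, inv] using this
    have dv := (hp ((q + 1 : ℕ) * j.val)).1 fun i => by
      have := (hl _ _ (ok ((i - t) / (q + 1 : ℕ)))).2 _ _ (ok ((i - t) / (q + 1 : ℕ) + j.val)) (s0 _)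
        (by rw [w1, w1, ← w0, ← w0, add_right_comm, s0]) (congrArg (fun z => z.2.2.2) (sh _))
        ((i - t) % (q + 1 : ℕ)).toNat (by
          have := Int.emod_lt_of_pos (i - t) (show (0 : ℤ) < (q + 1 : ℕ) by omega)
          omega)
      simp only [w, d, Int.toNat_of_nonneg (Int.emod_nonneg (i - t)
        (show ((q + 1 : ℕ) : ℤ) ≠ 0 by omega))] at this
      rw [Int.emod_def, show t + (q + 1 : ℕ) * ((i - t) / (q + 1 : ℕ) + j.val) +
        (i - t - (q + 1 : ℕ) * ((i - t) / (q + 1 : ℕ))) = i + (q + 1 : ℕ) * j.val by ring,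
        show t + (q + 1 : ℕ) * ((i - t) / (q + 1 : ℕ)) +
        (i - t - (q + 1 : ℕ) * ((i - t) / (q + 1 : ℕ))) = i by ring] at this
      exact this
    rw [Nat.cast_mul, mul_comm, mul_dvd_mul_iff_left (by omega), Int.natCast_dvd_natCast] at dv
    exact (ZMod.val_eq_zero j).1 (Nat.eq_zero_of_dvd_of_lt dv (ZMod.val_lt j))

theorem real_prim {A : Matrix V V ℕ} {B : Matrix W W ℕ} {R : Matrix V W ℕ} {S : Matrix W V ℕ}
    {l : ℕ} (hA : H16.Prim A) (hB : H16.Prim B) (hl : 1 ≤ l) (z : ZSE A B (zz R) (zz S) l)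
    (h : ¬2 ≤ ∑ u, ∑ v, A u v ∨ ∀ k, 2 ≤ k → np k A ≠ 0) : Real A B (zz R) := by
  have z1 : A * R = R * B := zz_inj (by simpa only [zz_mul] using z.1)
  have z2 : S * A = B * S := zz_inj (by simpa only [zz_mul] using z.2.1)
  have z3 : R * S = A ^ l := zz_inj (by simpa only [zz_mul, zz_pow] using z.2.2.1)
  have z4 : S * R = B ^ l := zz_inj (by simpa only [zz_mul, zz_pow] using z.2.2.2)
  rcases h with h | h
  · exact real_small hA hB h z2 z3 z4
  obtain ⟨T, hT, a, b, e⟩ := fullStmt V W _ _ _ _ l z.1 z.2.1 z.2.2.1 z.2.2.2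
  obtain ⟨v, hv⟩ := P2Aux.chV_of_ch (rk0 V) hT (rk0 W) rk0_inj
  refine suf V W _ _ A B R S l T v a b rk0_inj hA hB hl z1 z2 z3 z4 hv e
    ⟨v, 0, fun k hk => ?_, fun _ _ => rfl, fun k => by simp [comb]⟩
  rcases k with _ | _ | k
  exacts [P2Aux.chV_zero hv, Subsingleton.elim (α := ZMod 1) _ _, absurd hk (h _ (by omega))]

/-- every component is a single orbit or has points of all periods -/
def AllPer (A : Matrix V V ℕ) : Prop :=
  ∀ u, (∀ j : ℕ, (A ^ j) u u ≤ 1) ∨ ∀ k : ℕ, 2 ≤ k →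
    ∃ (v : ℤ → V) (e : ℤ → ℕ), (∀ i, e i < A (v i) (v (i + 1))) ∧
      (∃ a b : ℕ, 0 < (A ^ a) u (v 0) ∧ 0 < (A ^ b) (v 0) u) ∧
      ∀ j : ℤ, (∀ i, v (i + j) = v i ∧ e (i + j) = e i) ↔
        ((k * Nat.setGcd {j : ℕ | 0 < (A ^ j) u u} : ℕ) : ℤ) ∣ j

theorem real_all {n m : ℕ} {A : Matrix (Fin n) (Fin n) ℕ} {B : Matrix (Fin m) (Fin m) ℕ}
    (hA : AllPer A) {l : ℕ} {R : Matrix (Fin n) (Fin m) ℕ} {S : Matrix (Fin m) (Fin n) ℕ}
    (hl : 1 ≤ l) (h1 : A ^ l = R * S) (h2 : B ^ l = S * R) (h3 : A * R = R * B)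
    (h4 : S * A = B * S) : Real A B (zz R) := by
  obtain ⟨j, hj⟩ : ∃ j, n.factorial * l = l + j :=
    Nat.exists_eq_add_of_le (Nat.le_mul_of_pos_left _ n.factorial_pos)
  have g1 : R * (S * A ^ j) = A ^ (n.factorial * l) := by
    rw [hj, pow_add, h1, Matrix.mul_assoc]
  have g2 : S * A ^ j * R = B ^ (n.factorial * l) := by
    rw [hj, pow_add, h2, Matrix.mul_assoc, H12.pow_inter h3, Matrix.mul_assoc]
  have g3 : S * A ^ j * A = B * (S * A ^ j) := by
    rw [← Matrix.mul_assoc, ← h4, Matrix.mul_assoc, Matrix.mul_assoc, ← pow_succ, ← pow_succ']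
  have z : ZSE A B (zz R) (zz (S * A ^ j)) (n.factorial * l) :=
    ⟨by rw [← zz_mul, h3, zz_mul], by rw [← zz_mul, g3, ← zz_mul], by rw [← zz_mul, g1, zz_pow],
      by rw [← zz_mul, g2, zz_pow]⟩
  have ab1 : ∀ {a b : Type} (M : Matrix a b ℕ), ab (zz M) = M := fun M => by
    ext; simp [ab, zz_apply]
  refine b2 n m A B _ _ _ z (Nat.mul_pos n.factorial_pos hl) (dvd_mul_right _ _)
    (fun i => ?_) fun q a b f g q1 q2 a0 _ hb => ?_
  · rw [ab1, ab1, ← H12.pow_inter h3, Matrix.mul_assoc, g1, ← pow_add, add_comm,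
      Matrix.mul_assoc _ (A ^ i), H12.pow_inter h3, ← Matrix.mul_assoc, g2, ← pow_add]
    exact ⟨fun _ _ h => h, fun _ _ h => h⟩
  obtain ⟨r, hr⟩ := Nat.dvd_factorial q1 q2
  rw [hr, mul_assoc] at z
  have z' := H34.zse_blk z hb
  obtain ⟨hf, -, p1, p2, x, -, c, ⟨l1, -⟩, e1, -⟩ := hb
  have r0 : 0 < r := Nat.pos_of_mul_pos_left (hr ▸ n.factorial_pos)
  refine real_prim p1 p2 (Nat.mul_pos r0 hl) z' ?_
  have sp := fun k => congrFun (congrFun (sub_pow_lev l1 hf e1 k) ⟨0, a0⟩) ⟨0, a0⟩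
  simp only [submatrix_apply, ← pow_mul] at sp
  obtain ⟨N, N1, hN⟩ := id p1
  refine (hA (f ⟨0, a0⟩)).imp (fun h c => ?_) fun h k hk => ?_
  · have : Subsingleton (Fin a) := ⟨fun i i' => by
      by_contra d
      have h5 := sum_le_sum_of_subset (f := fun w => ((A ^ q).submatrix f f ^ N) ⟨0, a0⟩ w *
        ((A ^ q).submatrix f f ^ N) w ⟨0, a0⟩) (subset_univ ({i, i'} : Finset (Fin a)))
      rw [sum_pair d, ← mul_apply, ← pow_add, ← sp] at h5
      nlinarith [h (q * (N + N)), Nat.mul_pos (hN ⟨0, a0⟩ i) (hN i ⟨0, a0⟩),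
        Nat.mul_pos (hN ⟨0, a0⟩ i') (hN i' ⟨0, a0⟩)]⟩
    simp only [Fintype.sum_subsingleton _ (⟨0, a0⟩ : Fin a), submatrix_apply] at c
    have := h q
    omega
  · have P : H18.Prim ((A ^ q).submatrix f f) := ⟨⟨⟨0, a0⟩⟩, N, N1, fun u v => (hN u v).ne'⟩
    obtain ⟨w, hw⟩ := P.out ⟨0, a0⟩
    have d1 : Nat.setGcd {j : ℕ | 0 < (A ^ j) (f ⟨0, a0⟩) (f ⟨0, a0⟩)} ∣ q * N :=
      Nat.setGcd_dvd_of_mem (by rw [Set.mem_ofPred_eq, sp]; exact hN _ _)
    have d2 : Nat.setGcd {j : ℕ | 0 < (A ^ j) (f ⟨0, a0⟩) (f ⟨0, a0⟩)} ∣ q * (N + 1) :=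
      Nat.setGcd_dvd_of_mem (by
        rw [Set.mem_ofPred_eq, sp, pow_succ']
        exact Nat.pos_of_ne_zero (mul_ne_zero_of hw (hN _ _).ne'))
    obtain ⟨s, hs⟩ := (Nat.dvd_add_right d1).1 d2
    have s0 : 0 < s := Nat.pos_of_mul_pos_left (hs ▸ q1)
    obtain ⟨v, e, k1, ⟨a', b', k2, k3⟩, k4⟩ := h (k * s) (by nlinarith)
    rw [mul_assoc, mul_comm s, ← hs] at k4
    exact np_block q1 (by omega) hf l1 e1 _ k1 k2.ne' k3.ne' k4

/-- chains on `Fin` types -/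
theorem ch_fin {n : ℕ} {A : Matrix (Fin n) (Fin n) ℕ} {B : Matrix W W ℕ} {T : Matrix (Fin n) W ℕ}
    (h : Ch A B T) : ∀ (m : ℕ) (g : Fin m ≃ W), Relation.TransGen
      (fun X Y : (Σ k : ℕ, Matrix (Fin k) (Fin k) ℕ × Matrix (Fin n) (Fin k) ℕ) =>
        ∃ (R' : Matrix (Fin X.1) (Fin Y.1) ℕ) (S' : Matrix (Fin Y.1) (Fin X.1) ℕ),
          X.2.1 = R' * S' ∧ Y.2.1 = S' * R' ∧ Y.2.2 = X.2.2 * R')
      ⟨n, A, 1⟩ ⟨m, B.submatrix g g, T.submatrix id g⟩ := by
  induction h with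
  | refl =>
    refine fun m g => .single ⟨(1 : Matrix _ _ ℕ).submatrix id g, A.submatrix g id, ?_, ?_, ?_⟩
    · exact ((submatrix_mul_equiv 1 A id g id).trans (by simp)).symm
    · exact ((submatrix_mul_equiv A 1 g (Equiv.refl _) g).trans (by simp)).symm
    · simp
  | @step W X _ _ _ _ R S T _ ih =>
    intro m g
    exact (ih _ (Fintype.equivFin W).symm).tail ⟨R.submatrix (Fintype.equivFin W).symm g,
      S.submatrix g (Fintype.equivFin W).symm, (submatrix_mul_equiv R S _ g _).symm,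
      (submatrix_mul_equiv S R _ _ _).symm, (submatrix_mul_equiv T R _ _ _).symm⟩

end Pool.Agent.MP_993212_an.H18
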