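import Pool.Agent.MP_993212_an.H92.PDefs
import Pool.Agent.MP_993212_an.H16.Low
import Pool.Agent.MP_993212_an.H15.LMain

/-! Statements of the steps of the positive normal form. -/

namespace Pool.Agent.MP_993212_an.H18

open Matrix Polynomial Finset H16 H92 H15

variable {I G : Type} [Fintype I] [DecidableEq I] [AddCommGroup G] [Module ℤ[X] G]

/-- nonnegative coefficients -/
def N1 (p : ℤ[X]) : Prop := ∀ k, 0 ≤ p.coeff k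

/-- honest system without edges of length zero -/
def Hs (N : Matrix I I ℤ[X]) : Prop := NN N ∧ cf 0 N = 0

/-- equivalence of honest systems -/
def Eq0 {J : Type} [Fintype J] [DecidableEq J] (N : Matrix I I ℤ[X]) (ξ : I → G)
    (N' : Matrix J J ℤ[X]) (ξ' : J → G) : Prop := Eqv (1 - N) 0 ξ (1 - N') 0 ξ'

/-- a superharmonic vector for the system without the hub `z` -/
def Cert (ρ η : ℝ) (z : I) (N : Matrix I I ℤ[X]) (p : I → ℝ) : Prop :=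
  (∀ j, 0 < p j) ∧ ∀ j, j ≠ z → ∑ l ∈ univ.erase z, nz ρ (N j l) * p l ≤ (1 - η) * p j

/-- no incoming edge -/
def Src (N : Matrix I I ℤ[X]) (j : I) : Prop := ∀ u, N u j = 0

/-- no outgoing edge -/
def Snk (N : Matrix I I ℤ[X]) (j : I) : Prop := ∀ l, N j l = 0

/-- connection with the hub -/
structure Inv (z : I) (N : Matrix I I ℤ[X]) : Prop where
  out : ∀ j, j ≠ z → Snk N j ∨ N j z ≠ 0
  inn : ∀ j, j ≠ z → Src N j ∨ (N z j ≠ 0 ∧ N j j ≠ 0)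
  ex : ∃ j, j ≠ z ∧ N j j ≠ 0

/-- the weak form of `Inv` -/
structure Inv0 (z : I) (N : Matrix I I ℤ[X]) : Prop where
  out : ∀ j, j ≠ z → Snk N j ∨ Relation.TransGen (fun u v => N u v ≠ 0) j z
  inn : ∀ j, j ≠ z → Src N j ∨ N z j ≠ 0
  ex : ∃ j, j ≠ z ∧ N j j ≠ 0

/-- the state of the construction at depth `L` -/
structure St (ρ η : ℝ) (z : I) (L : ℕ) (N : Matrix I I ℤ[X]) : Prop where
  hs : Hs N
  cert : ∃ p, Cert ρ η z N p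
  inv : Inv z N
  clean : ∀ u l, l ≠ z → u ≠ l → X ^ L ∣ N u l

/-- sources stay sources and sinks stay sinks outside `T` -/
def Keep (T : Set I) (N N' : Matrix I I ℤ[X]) : Prop :=
  ∀ j, j ∉ T → (Src N j → Src N' j) ∧ (Snk N j → Snk N' j)

/-- the window `X ^ h + ... + X ^ (2 h - 1)` -/
noncomputable def Wd (h : ℕ) : ℤ[X] := ∑ i ∈ range h, X ^ (h + i)

/-- diagonal up to deep and small terms -/
structure NF (ρ η ε : ℝ) (z : I) (L : ℕ) (dg : I → ℤ[X]) (N : Matrix I I ℤ[X]) : Prop where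
  hs : Hs N
  inv : Inv z N
  off : ∀ u l, u ≠ l → X ^ L ∣ N u l ∧ nz ρ (N u l) ≤ ε
  dia : ∀ i, X ^ L ∣ 1 - N i i - dg i
  lt : ∀ j, j ≠ z → nz ρ (N j j) ≤ 1 - η

/-- ROW PUSH: push the edges from `a` into `S` through `S`, `n` times -/
def PushStmt : Prop :=
  ∀ (I G : Type) [Fintype I] [DecidableEq I] [AddCommGroup G] [Module ℤ[X] G]
    (N : Matrix I I ℤ[X]) (ξ : I → G) (a : I) (S : Finset I) (n : ℕ), Hs N → act (1 - N) ξ = 0 →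
    a ∉ S → ∃ (N' : Matrix I I ℤ[X]) (c : I → ℤ[X]), Eq0 N ξ N' ξ ∧ Hs N' ∧
      (∀ u, u ≠ a → N' u = N u) ∧ (∀ l, N' a l = N a l - c l + ∑ u, c u * N u l) ∧
      (∀ l, N1 (c l)) ∧ (∀ l, l ∉ S → c l = 0) ∧ (1 ≤ n → ∀ l ∈ S, N1 (c l - N a l)) ∧
      (Snk N a → c = 0) ∧ (∀ l, Src N l → c l = 0) ∧
      (∀ k, (∀ l ∈ S, X ^ k ∣ N a l) → ∀ l, X ^ k ∣ c l) ∧ (∀ l ∈ S, X ^ n ∣ N' a l) ∧
      (∀ l ∈ S, N1 (N' a l - N a l * N l l ^ n)) ∧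
      ∀ (ρ η : ℝ) (z : I) (p : I → ℝ), 0 ≤ ρ → 0 < η → z ∉ S → Cert ρ η z N p → Cert ρ η z N' p ∧
        η * ∑ l, nz ρ (c l) * p l ≤ ∑ l ∈ S, nz ρ (N a l) * p l ∧
        ∑ l ∈ S, nz ρ (N' a l) * p l ≤ (1 - η) ^ n * ∑ l ∈ S, nz ρ (N a l) * p l

/-- ROW HUB: creation of the hub `none` with a prescribed class -/
def HubStmt : Prop :=
  ∀ (V G : Type) [Fintype V] [DecidableEq V] [AddCommGroup G] [Module ℤ[X] G] (A : Matrix V V ℕ)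
    (ι : V → G) (lam : ℝ) (x : V → ℝ) (u : V → ℕ) (m : ℕ), H16.Prim A → 1 < lam → (∀ v, 0 < x v) →
    A.map (Nat.cast : ℕ → ℝ) *ᵥ x = lam • x → act (pen (zz A)) ι = 0 → (∀ v, 2 ≤ u v) → 1 ≤ m →
    ∃ (N : Matrix (Option (Option V)) (Option (Option V)) ℤ[X]) (ξ : Option (Option V) → G)
      (ρ η : ℝ) (p : Option (Option V) → ℝ), Eqv (pen (zz A)) 0 ι (1 - N) 0 ξ ∧ Hs N ∧
      ξ none = ∑ v, ((u v : ℤ[X]) * X ^ m) • ι v ∧ (∀ v, ξ (some (some v)) = ι v) ∧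
      lam⁻¹ < ρ ∧ 0 < η ∧ Cert ρ η none N p ∧ Inv0 none N ∧ (∀ j, ¬Snk N j) ∧
      ∀ j, j ≠ none → N none j ≠ 0

/-- ROW EMB: new sources and unused states -/
def EmbStmt : Prop :=
  ∀ (J I G : Type) [Fintype J] [DecidableEq J] [Fintype I] [DecidableEq I] [AddCommGroup G]
    [Module ℤ[X] G] (N : Matrix J J ℤ[X]) (ξ : J → G) (z : J) (ρ η : ℝ) (p : J → ℝ) (e : J → I)
    (N' : Matrix I I ℤ[X]) (ξ' : I → G), Function.Injective e → Hs N' → N'.submatrix e e = N →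
    (∀ j, j ∉ Set.range e → Src N' j) → ξ' ∘ e = ξ → act (1 - N') ξ' = 0 → η < 1 →
    Cert ρ η z N p → Inv0 z N → (∀ j, ¬Snk N j) → (∀ j, j ≠ z → N z j ≠ 0) →
    Eq0 N ξ N' ξ' ∧ (∃ p', Cert ρ η (e z) N' p') ∧ Inv0 (e z) N'

/-- ROW CLEAN -/
def CleanStmt : Prop :=
  ∀ (I G : Type) [Fintype I] [DecidableEq I] [AddCommGroup G] [Module ℤ[X] G]
    (N : Matrix I I ℤ[X]) (ξ : I → G) (z : I) (ρ η : ℝ) (p : I → ℝ) (L : ℕ), Hs N →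
    act (1 - N) ξ = 0 → 0 ≤ ρ → 0 < η → Cert ρ η z N p → Inv0 z N →
    ∃ N', Eq0 N ξ N' ξ ∧ St ρ η z L N' ∧ Keep ∅ N N'

/-- ROW EXT: the loops `ψ` of the state `v` are moved to the unused state `w` -/
def ExtStmt : Prop :=
  ∀ (I G : Type) [Fintype I] [DecidableEq I] [AddCommGroup G] [Module ℤ[X] G]
    (N : Matrix I I ℤ[X]) (ξ : I → G) (z v w : I) (ρ η : ℝ) (L : ℕ) (ψ : ℤ[X]), St ρ η z L N →
    act (1 - N) ξ = 0 → 0 ≤ ρ → 0 < η → w ≠ z → w ≠ v → Src N w → Snk N w → N1 ψ →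
    N1 (N v v - ψ) → (v = z → nz ρ ψ ≤ 1 - 2 * η) →
    ∃ N', Eq0 N ξ N' (Function.update ξ w (ξ v)) ∧ St ρ η z L N' ∧ Keep {w} N N' ∧
      X ^ L ∣ N' w w - ψ ∧ X ^ L ∣ (1 - ψ) * (1 - N' v v) - (1 - N v v) ∧
      N1 (N' v v - (N v v - ψ)) ∧ ∀ u, u ≠ v → u ≠ w → X ^ L ∣ N' u u - N u u

/-- ROW TRACE: counting loops -/
def TraceStmt : Prop :=
  ∀ (V I : Type) [Fintype V] [DecidableEq V] [Fintype I] [DecidableEq I] (A : Matrix V V ℕ)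
    (N : Matrix I I ℤ[X]) (z : I) (L k : ℕ) (T : Finset I) (per : I → ℕ),
    (1 - N).det = (pen (zz A)).det → (∀ u l, l ≠ z → u ≠ l → X ^ L ∣ N u l) → 1 ≤ k →
    (∀ w ∈ T, 1 ≤ per w ∧ X ^ L ∣ N w w - X ^ per w) → (∀ u, u ∉ T → X ^ k ∣ N u u) →
    ∀ m, 1 ≤ m → m < 2 * k → m < L →
      np m A = m * ((T.filter fun w => per w = m).card + ∑ u ∈ Tᶜ, (N u u).coeff m)

/-- ROW LOW: all loops of length less than `h` become single states -/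
def LowExtStmt : Prop :=
  ∀ (V I G : Type) [Fintype V] [DecidableEq V] [Fintype I] [DecidableEq I] [AddCommGroup G]
    [Module ℤ[X] G] (A : Matrix V V ℕ) (N : Matrix I I ℤ[X]) (ξ : I → G) (z : I) (ρ η : ℝ)
    (L h : ℕ) (T : Finset I) (per : I → ℕ), (1 - N).det = (pen (zz A)).det → St ρ η z L N →
    act (1 - N) ξ = 0 → 0 ≤ ρ → 0 < η → ρ ≤ 1 - 2 * η → h ≤ L → z ∉ T →
    (∀ w ∈ T, Src N w ∧ Snk N w ∧ 1 ≤ per w ∧ per w < h) →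
    (∀ k, 1 ≤ k → k < h → ((T.filter fun w => per w = k).card : ℤ) * k = np k A) →
    ∃ N' ξ', Eq0 N ξ N' ξ' ∧ (∀ i, i ∉ T → ξ' i = ξ i) ∧ St ρ η z L N' ∧ Keep T N N' ∧
      (∀ w ∈ T, X ^ L ∣ N' w w - X ^ per w) ∧ ∀ u, u ∉ T → X ^ h ∣ N' u u

/-- ROW MID: the reservoir `r`, then prescribed loops of the hub -/
def MidStmt : Prop :=
  ∀ (I G : Type) [Fintype I] [DecidableEq I] [AddCommGroup G] [Module ℤ[X] G]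
    (N : Matrix I I ℤ[X]) (ξ : I → G) (z r : I) (ρ σ η : ℝ) (L h c₀ c : ℕ) (T : Finset I)
    (ψ : I → ℤ[X]) (K : ℝ), St ρ η z L N → act (1 - N) ξ = 0 → 0 ≤ ρ → 0 < σ → σ ≤ 1 → 0 < η →
    1 ≤ h → 2 * h ≤ L → z ∉ T → r ∉ T → r ≠ z → Src N r → Snk N r →
    (∀ w ∈ T, Src N w ∧ Snk N w ∧ N1 (ψ w) ∧ nz ρ (ψ w) ≤ 1 - 2 * η) →
    (c₀ : ℝ) * ρ ^ h ≤ 1 - 2 * η → 1 ≤ (c₀ : ℝ) * σ ^ h →
    (∀ k, (∑ w ∈ T, ((ψ w).coeff k : ℝ)) * σ ^ k ≤ if h ≤ k ∧ k < L then K else 0) →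
    (∀ k, h ≤ k → k < 2 * h → K + 1 ≤ ((N z z).coeff k - c₀ - c : ℝ) * σ ^ k) →
    ∃ N', Eq0 N ξ N' (fun i => if i = r ∨ i ∈ T then ξ z else ξ i) ∧ St ρ η z L N' ∧
      Keep (insert r T) N N' ∧ X ^ L ∣ N' r r - (c₀ : ℤ[X]) * X ^ h ∧
      (∀ w ∈ T, X ^ L ∣ N' w w - ψ w) ∧
      (∀ u, u ≠ z → u ≠ r → u ∉ T → X ^ L ∣ N' u u - N u u) ∧
      N1 (N' z z - ((c : ℤ[X]) * X ^ h + Wd h))

/-- ROW ABUND: many periodic points, and the Perron eigenvalue -/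
structure AbundStmt : Prop where
  many : ∀ (V : Type) [Fintype V] [DecidableEq V] (A : Matrix V V ℕ) (lam : ℝ) (x : V → ℝ)
    (ρ K : ℝ), H16.Prim A → Nonempty V → 1 < lam → (∀ v, 0 < x v) →
    A.map (Nat.cast : ℕ → ℝ) *ᵥ x = lam • x → lam⁻¹ < ρ →
    ∀ᶠ m in Filter.atTop, K * m ≤ (np m A : ℝ) * ρ ^ m
  eig : ∀ (V : Type) [Fintype V] [DecidableEq V] (A : Matrix V V ℕ), H16.Prim A →
    2 ≤ ∑ u, ∑ v, A u v → ∃ (lam : ℝ) (x : V → ℝ), 1 < lam ∧ (∀ v, 0 < x v) ∧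
      A.map (Nat.cast : ℕ → ℝ) *ᵥ x = lam • x
  dvd : ∀ (V : Type) [Fintype V] [DecidableEq V] (A : Matrix V V ℕ) (k : ℕ), 1 ≤ k →
    ∃ o : ℕ, (o : ℤ) * k = np k A

/-- ROW END: the delays -/
def EndStmt : Prop :=
  ∀ (I G : Type) [Fintype I] [DecidableEq I] [AddCommGroup G] [Module ℤ[X] G]
    (N : Matrix I I ℤ[X]) (ξ : I → G) (z : I) (ρ η ε : ℝ) (L : ℕ) (D : Finset I), St ρ η z L N →
    act (1 - N) ξ = 0 → 0 < ρ → ρ < 1 → 0 < η → 0 < ε → z ∉ D → (∀ d ∈ D, Src N d) →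
    ∀ᶠ M₁ in Filter.atTop, ∀ᶠ M₂ in Filter.atTop, ∃ N',
      Eq0 N ξ N' (fun i => (X ^ (if i = z then 0 else if i ∈ D then M₁ else M₂) : ℤ[X]) • ξ i) ∧
      NF ρ η ε z L (fun i => 1 - N i i) N' ∧ (∀ d ∈ D, Src N' d) ∧ N1 (N' z z - N z z)

/-- ROW DLY: relabelling and bounded delay of a normal form -/
def DlyStmt : Prop :=
  ∀ (I G : Type) [Fintype I] [DecidableEq I] [AddCommGroup G] [Module ℤ[X] G]
    (N : Matrix I I ℤ[X]) (ξ : I → G) (z : I) (ρ η ε : ℝ) (L ν : ℕ) (dg : I → ℤ[X])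
    (π : Equiv.Perm I) (δ : I → ℕ) (P' : Matrix I I ℤ[X]), NF ρ η (ε * ρ ^ ν) z (L + ν) dg N →
    act (1 - N) ξ = 0 → 0 < ρ → ρ ≤ 1 → 0 ≤ ε → 1 ≤ L → π z = z → (∀ i, dg (π i) = dg i) →
    (∀ i, δ i ≤ ν) → Dly δ ((1 - N).submatrix π π) P' →
    Eq0 N ξ (1 - P') (fun i => (X ^ δ i : ℤ[X]) • ξ (π i)) ∧ NF ρ η ε z L dg (1 - P') ∧
      (1 - P') z z = N z z ∧ ∀ d, Src N (π d) → Src (1 - P') d

/-- deep room in every row and column, and junk that is small against it -/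
structure Room (ρ θ τ : ℝ) (z : I) (h M : ℕ) (N : Matrix I I ℤ[X]) : Prop where
  out : ∀ i, i ≠ z → Snk N i ∨ ∃ m ≤ M, N1 (N i z - X ^ m * Wd h)
  inn : ∀ l, l ≠ z → Src N l ∨ ∃ m ≤ M, N1 (N z l - X ^ m)
  junk : ∀ u l, u ≠ z → l ≠ z → u ≠ l → X ^ (M + 2 * h) ∣ N u l ∧ nz ρ (N u l) ≤ θ * τ ^ M

/-- ROW LAST -/
def LastStmt : Prop :=
  ∀ (I : Type) [Fintype I] [DecidableEq I] (ρ η K : ℝ), 0 < ρ → ρ < 1 → 0 < η →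
    ∃ ε : ℝ, 0 < ε ∧ ∃ K' : ℝ, ∀ (G : Type) [AddCommGroup G] [Module ℤ[X] G]
      (N : Matrix I I ℤ[X]) (ξ : I → G) (z : I) (θ τ : ℝ) (L h : ℕ) (dg : I → ℤ[X]),
      NF ρ η ε z L dg N → act (1 - N) ξ = 0 → 0 < θ → 0 < τ → N1 (N z z - Wd h) →
      nz ρ (N z z) ≤ K → ∃ (N' : Matrix I I ℤ[X]) (g : GL I ℤ[X]) (M : ℕ), g ∈ Hn I (tI L) ∧
        1 - N' = g.val * (1 - N) ∧ Eq0 N ξ N' ξ ∧ Keep ∅ N N' ∧ N' z = N z ∧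
        NF ρ (η / 2) K' z L dg N' ∧ Room ρ θ τ z h M N'

/-- ROW BOUND: the loops of the hub are bounded through the determinant -/
def BoundStmt : Prop :=
  ∀ (I : Type) [Fintype I] [DecidableEq I] (ρ η : ℝ) (χ : ℤ[X]), 0 < ρ → 0 < η →
    ∃ ε : ℝ, 0 < ε ∧ ∃ K : ℝ, ∀ (N : Matrix I I ℤ[X]) (z : I) (L : ℕ) (dg : I → ℤ[X]),
      NF ρ η ε z L dg N → (1 - N).det = χ → nz ρ (N z z) ≤ K

/-- division by `χ` is bounded -/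
def Div (ρ : ℝ) (χ : ℤ[X]) : Prop := ∃ C : ℝ, ∀ q, nz ρ q ≤ C * nz ρ (χ * q)

/-- ROW DIV -/
def DivStmt : Prop :=
  ∀ χ : ℤ[X], χ.coeff 0 = 1 → ∃ S : Finset ℝ, ∀ ρ, 0 < ρ → ρ ∉ S → Div ρ χ

/-- ROW SUS -/
def SusStmt : Prop :=
  ∃ n : ℕ, ∀ (s : Type) [Fintype s] [DecidableEq s], n ≤ Fintype.card s →
    Cn s (tI 1) ≤ Hn s (tI 1)

/-- ROW CLOSE: congruent and bounded matrices differ by a small factor -/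
def CloseStmt : Prop :=
  ∀ (I : Type) [Fintype I] [DecidableEq I] (ρ ρ₁ K δ : ℝ) (χ : ℤ[X]) (L₁ : ℕ), 0 < ρ → ρ < ρ₁ →
    0 < δ → χ.coeff 0 = 1 → Div ρ χ → ∃ L : ℕ, ∀ P₁ P₂ U : Matrix I I ℤ[X], P₁ = U * P₂ →
      P₂.det = χ → (∀ i j, nz ρ₁ (P₁ i j) ≤ K ∧ nz ρ₁ (P₂ i j) ≤ K ∧ X ^ L ∣ (P₁ - P₂) i j) →
      ∑ i, ∑ j, nz ρ ((U - 1) i j) ≤ δ ∧ ∀ i j, X ^ L₁ ∣ (U - 1) i j

/-- the part of the row of the hub that is eliminated -/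
noncomputable def Lb (z : I) (g : ℤ[X]) (β : I → ℤ[X]) : Matrix I I ℤ[X] :=
  Matrix.of fun i l => if i = z then (if l = z then g else β l) else 0

/-- the fat form -/
structure FF (ρ K ε : ℝ) (h c L : ℕ) (γ : I → ℕ) (z p q : I) (N : Matrix I I ℤ[X]) : Prop where
  zero : cf 0 N = 0
  col : ∀ i, i ≠ z → X ^ L ∣ N i z - Wd h ∧ nz ρ (N i z - Wd h) ≤ ε
  hub : ∃ a, N1 (a - Wd h) ∧ X ^ (2 * h) ∣ N z z - (c : ℤ[X]) * X ^ h - a ∧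
    nz ρ (N z z - (c : ℤ[X]) * X ^ h - a) ≤ ρ ^ (2 * h) / 8 + ε
  bd : nz ρ (N z z) ≤ K + ε
  row : ∀ l, l ≠ z → X ^ L ∣ N z l - X ^ γ l ∧ nz ρ (N z l - X ^ γ l) ≤ ε
  off : ∀ i l, i ≠ z → l ≠ z → i ≠ l → X ^ L ∣ N i l ∧ nz ρ (N i l) ≤ ε
  dia : ∀ l, l ≠ z → ∃ φ, N1 φ ∧ nz ρ φ ≤ 1 ∧ (l = p ∨ l = q → φ = 0) ∧ X ^ L ∣ N l l - φ ∧
    nz ρ (N l l - φ) ≤ ε

/-- ROW REG: small multiples of a fat form are virtually positive -/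
def RegStmt : Prop :=
  ∀ (ρ : ℝ) (h c γ₀ : ℕ), 0 < ρ → ρ < 1 → 1 ≤ h → (c : ℝ) * ρ ^ h = 1 → ∃ r : ℝ, 0 < r ∧
    ∀ (I : Type) [Fintype I] [DecidableEq I] (z p q : I) (γ : I → ℕ) (K : ℝ), p ≠ z → q ≠ z →
      γ p = γ₀ → γ q = γ₀ → (∀ l, 1 ≤ γ l) → ∃ r₁ : ℝ, 0 < r₁ ∧ ∃ ε : ℝ, 0 < ε ∧ ∃ L₀ : ℕ,
        ∀ (N : Matrix I I ℤ[X]) (H : GL I ℤ[X]) (ν : ℕ), FF ρ K ε h c L₀ γ z p q N →
          2 * h + γ₀ ≤ ν → Reg ρ r r₁ p q ν L₀ H →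
          VP (H.val * (1 - N)) (Lb z ((c : ℤ[X]) * X ^ h) fun l => X ^ γ l)

/-- ROW ROOM: growing the column and the row of the hub -/
def RoomStmt : Prop :=
  ∀ (ρ ρ₁ η : ℝ) (h c : ℕ), 0 < ρ → ρ < ρ₁ → ρ₁ < 1 → 0 < η → 1 ≤ h → (c : ℝ) * ρ ^ h = 1 →
    ∃ γ₀ : ℕ, ∀ (I : Type) [Fintype I] [DecidableEq I] (z p q : I), ∃ γ : I → ℕ, γ p = γ₀ ∧
      γ q = γ₀ ∧ (∀ l, 1 ≤ γ l) ∧ ∀ K : ℝ, ∃ K' θ : ℝ, 0 < θ ∧ ∀ (ε : ℝ) (L : ℕ), 0 < ε →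
        ∃ L' : ℕ, ∀ (G : Type) [AddCommGroup G] [Module ℤ[X] G] (N : Matrix I I ℤ[X]) (ξ : I → G)
          (dg : I → ℤ[X]) (M : ℕ), NF ρ₁ η K z L' dg N → Room ρ₁ θ ρ z h M N →
          N1 (N z z - ((c : ℤ[X]) * X ^ h + Wd h)) → nz ρ₁ (N z z) ≤ K → act (1 - N) ξ = 0 →
          dg p = 1 → dg q = 1 → ∃ s s' : I → ℤ[X], s z = 0 ∧ s' z = 0 ∧
            Eqv (1 - N) 0 ξ ((1 - vecMulVec (Pi.single z 1) s') * (1 - N) *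
              (1 - vecMulVec s (Pi.single z 1))) (Lb z ((c : ℤ[X]) * X ^ h) fun l => X ^ γ l)
              (fun i => ξ i + s i • ξ z) ∧
            FF ρ K' ε h c L γ z p q (1 - (1 - vecMulVec (Pi.single z 1) s') * (1 - N) *
              (1 - vecMulVec s (Pi.single z 1))) ∧
            ∀ j, j ≠ z → X ^ L ∣ dg j * s j - Wd h ∧ X ^ L ∣ dg j * s' j - X ^ γ j ∧
              nz ρ₁ (s j) ≤ K' ∧ nz ρ₁ (s' j) ≤ K' ∧ (Src N j → s j = Wd h)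

/-- ROW FAT: two normal forms with close classes -/
def FatStmt : Prop :=
  ∀ (ρ ρ₁ η : ℝ) (h c : ℕ) (χ : ℤ[X]), 0 < ρ → ρ < ρ₁ → ρ₁ < 1 → 0 < η → 1 ≤ h →
    (c : ℝ) * ρ ^ h = 1 → χ.coeff 0 = 1 → Div ρ χ → ∀ᶠ ν in Filter.atTop,
    ∀ (I : Type) [Fintype I] [DecidableEq I] (z p q : I), Three I → p ≠ q → p ≠ z → q ≠ z →
      ∃ ε : ℝ, 0 < ε ∧ ∃ L : ℕ, 1 ≤ L ∧ ∀ (G : Type) [AddCommGroup G] [Module ℤ[X] G]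
        (N₁ N₂ Z : Matrix I I ℤ[X]) (ξ₁ ξ₂ : I → G) (dg : I → ℤ[X]) (D : Finset I),
        NF ρ₁ η ε z L dg N₁ → NF ρ₁ η ε z L dg N₂ →
        N1 (N₁ z z - ((c : ℤ[X]) * X ^ h + Wd h)) → N1 (N₂ z z - ((c : ℤ[X]) * X ^ h + Wd h)) →
        (1 - N₁).det = χ → (1 - N₂).det = χ → dg p = 1 → dg q = 1 → Pres (1 - N₁) ξ₁ →
        Pres (1 - N₂) ξ₂ → z ∉ D → (∀ d ∈ D, Src N₁ d ∧ Src N₂ d) →
        (∀ i d, Z i d ≠ 0 → i ≠ z ∧ i ∉ D ∧ d ∈ D) → (∀ i d, X ^ L ∣ Z i d ∧ nz ρ₁ (Z i d) ≤ 1) →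
        ξ₁ = act (1 + Z) ξ₂ → ∃ v ∈ Hn I (tI (ν + 1)), ∃ U ∈ Cn I (tI 1), pl v.val ξ₂ = ξ₁ ∧
          (1 - N₁) * v.val = U.val * (1 - N₂) ∧ (U ∈ Hn I (tI ν) → Eq0 N₁ ξ₁ N₂ ξ₂)

end Pool.Agent.MP_993212_an.H18
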